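import Pool.Agent.helper93.B2.FD
import Pool.Agent.helper93.B2.T6a
import Pool.Agent.helper93.B2.T6b
import Pool.Agent.helper93.B2.T6c
import Pool.Agent.helper9.B2.T1b
import Pool.Agent.helper30.B2.LA1

/-! # MP_b2b189_gt, b2:T6d: block data near a double eigenvalue -/

set_option autoImplicit false

namespace Pool.Agent.helper68.B2

open scoped ContDiff Topology Matrix
open Matrix Set Filter

/-! ### linear algebra in the frame -/

/-- the matrix of the block endomorphism -/
def T6d_M (s a b l : ℝ) : M3 := !![s, a, 0; b, s, 0; 0, 0, l]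

theorem T6d_conj {G L : M3} {z n e : V3} {s a b l : ℝ}
    (hz : L *ᵥ z = s • z + b • n) (hn : L *ᵥ n = s • n + a • z) (he : L *ᵥ e = l • e) (t : ℝ) :
    (L - t • (1 : M3)) * LA1_P z n e = LA1_P z n e * T6d_M (s - t) a b (l - t) := by
  have h0 : (L - t • (1 : M3)) *ᵥ z = (s - t) • z + b • n := by
    rw [Matrix.sub_mulVec, hz, Matrix.smul_mulVec, Matrix.one_mulVec, sub_smul]; abel
  have h1 : (L - t • (1 : M3)) *ᵥ n = (s - t) • n + a • z := by
    rw [Matrix.sub_mulVec, hn, Matrix.smul_mulVec, Matrix.one_mulVec, sub_smul]; abel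
  have h2 : (L - t • (1 : M3)) *ᵥ e = (l - t) • e := by
    rw [Matrix.sub_mulVec, he, Matrix.smul_mulVec, Matrix.one_mulVec, sub_smul]
  ext i j
  have e1 : ((L - t • (1 : M3)) * LA1_P z n e) i j = ((L - t • (1 : M3)) *ᵥ (![z, n, e] j)) i := by
    simp [Matrix.mul_apply, LA1_P, mulVec, dotProduct]
  rw [e1, Matrix.mul_apply, Fin.sum_univ_three]
  fin_cases j
  · simp [h0, LA1_P, T6d_M]; ring
  · simp [h1, LA1_P, T6d_M]; ring
  · simp [h2, LA1_P, T6d_M]; ring

theorem T6d_det {G L : M3} (hG : Gᵀ = G) {z n e : V3} (hf : NFrame G z n e) {s a b l : ℝ}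
    (hz : L *ᵥ z = s • z + b • n) (hn : L *ᵥ n = s • n + a • z) (he : L *ᵥ e = l • e) (t : ℝ) :
    (t • (1 : M3) - L).det = ((t - s) ^ 2 - a * b) * (t - l) := by
  have h1 := congrArg Matrix.det (T6d_conj (G := G) hz hn he t)
  rw [Matrix.det_mul, Matrix.det_mul, mul_comm] at h1
  have h2 := mul_left_cancel₀ (LA1_P_det hG hf) h1
  have h3 : t • (1 : M3) - L = -(L - t • (1 : M3)) := by abel
  rw [h3, Matrix.det_neg, h2]
  simp [T6d_M, Matrix.det_fin_three]
  ring

theorem T6d_adj {G L : M3} (hG : Gᵀ = G) {z n e : V3} (hf : NFrame G z n e) {s a b l : ℝ}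
    (hz : L *ᵥ z = s • z + b • n) (hn : L *ᵥ n = s • n + a • z) (he : L *ᵥ e = l • e) (t : ℝ) :
    (L - t • (1 : M3)).adjugate * LA1_P z n e =
      LA1_P z n e * (T6d_M (s - t) a b (l - t)).adjugate := by
  have h1 := congrArg Matrix.adjugate (T6d_conj (G := G) hz hn he t)
  rw [Matrix.adjugate_mul_distrib, Matrix.adjugate_mul_distrib] at h1
  have hP := LA1_P_det hG hf
  set P := LA1_P z n e with hPdef
  have h2 : P.det • ((L - t • (1 : M3)).adjugate * P) = P.det • (P * (T6d_M (s - t) a b (l - t)).adjugate) := by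
    calc P.det • ((L - t • (1 : M3)).adjugate * P) = (P * P.adjugate) * ((L - t • (1 : M3)).adjugate * P) := by
          rw [Matrix.mul_adjugate, Matrix.smul_mul, Matrix.one_mul]
      _ = P * (P.adjugate * (L - t • (1 : M3)).adjugate) * P := by noncomm_ring
      _ = P * ((T6d_M (s - t) a b (l - t)).adjugate * P.adjugate) * P := by rw [h1]
      _ = P * (T6d_M (s - t) a b (l - t)).adjugate * (P.adjugate * P) := by noncomm_ring
      _ = P.det • (P * (T6d_M (s - t) a b (l - t)).adjugate) := by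
          rw [Matrix.adjugate_mul, Matrix.mul_smul, Matrix.mul_one]
  have h3 := congrArg (fun M => P.det⁻¹ • M) h2
  simpa only [smul_smul, inv_mul_cancel₀ hP, one_smul] using h3

/-! ### consequences of `BlockOf` -/

open Pool.Agent.helper25.B2 (Block)

theorem T6d_ne {S : Geo} {B : Block E4} {z n e : E4 → V3} (h : BlockOf S B z n e) {x : E4}
    (hx : x ∈ B.W) : x ≠ 0 := fun h0 => h.cone.zero (h0 ▸ hx)

/-- the roots of the two block eigenvalues -/
theorem block_roots (S : Geo) {B : Block E4} {z n e : E4 → V3}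
    (h : BlockOf S B z n e) {x : E4} (hx : x ∈ B.W) :
    RR3 (S.L x) (B.s x - Real.sqrt (B.a x * B.b x)) (B.s x + Real.sqrt (B.a x * B.b x)) (B.l x) := by
  intro t
  rw [T6d_det (S.symm x (T6d_ne h hx)) (h.frame x hx) (h.Lz x hx) (h.Ln x hx) (h.Le x hx)]
  have h1 := Real.sq_sqrt (B.ab_nonneg x hx)
  linear_combination (t - B.l x) * h1

/-- contravariant adjugates at the two block eigenvalues; `ρ = ∓√(ab)` -/
theorem block_adj (S : Geo) {B : Block E4} {z n e : E4 → V3}
    (h : BlockOf S B z n e) {x : E4} (hx : x ∈ B.W) {ρ : ℝ} (hρ : ρ ^ 2 = B.a x * B.b x) :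
    S.Ku (B.s x + ρ) x = (B.s x + ρ - B.l x) •
      (B.a x • vecMulVec (z x) (z x) + B.b x • vecMulVec (n x) (n x)
        + ρ • (vecMulVec (z x) (n x) + vecMulVec (n x) (z x))) := by
  have hx0 := T6d_ne h hx
  have hG := S.symm x hx0
  have hu := isUnit_iff_ne_zero.2 (S.det_neg x hx0).ne
  have hf := h.frame x hx
  set R : M3 := (B.s x + ρ - B.l x) •
      (B.a x • vecMulVec (z x) (z x) + B.b x • vecMulVec (n x) (n x)
        + ρ • (vecMulVec (z x) (n x) + vecMulVec (n x) (z x))) with hR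
  have key : S.K (B.s x + ρ) x = R * S.G x := by
    have hadj := T6d_adj hG hf (h.Lz x hx) (h.Ln x hx) (h.Le x hx) (B.s x + ρ)
    have hcol : ∀ j : Fin 3, S.K (B.s x + ρ) x *ᵥ (![z x, n x, e x] j) = fun i =>
        (LA1_P (z x) (n x) (e x) * (T6d_M (B.s x - (B.s x + ρ)) (B.a x) (B.b x) (B.l x - (B.s x + ρ))).adjugate) i j := by
      intro j
      funext i
      rw [← hadj]
      simp [Geo.K, Matrix.mul_apply, LA1_P, mulVec, dotProduct]
    have hRG : ∀ w : V3, (R * S.G x) *ᵥ w = (B.s x + ρ - B.l x) •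
        (B.a x • (bil (S.G x) (z x) w • z x) + B.b x • (bil (S.G x) (n x) w • n x)
          + ρ • (bil (S.G x) (n x) w • z x + bil (S.G x) (z x) w • n x)) := by
      intro w
      rw [← Matrix.mulVec_mulVec, hR]
      simp only [Matrix.smul_mulVec, Matrix.add_mulVec, GA_vecMulVec_mulVec, bil]
    have hzn := hf.zn
    have hnz : bil (S.G x) (n x) (z x) = 1 := by rw [bil_symm hG]; exact hzn
    refine hf.ext hG ?_ ?_ ?_
    · have h0 := hcol 0
      simp only [Matrix.cons_val_zero] at h0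
      rw [h0, hRG, hf.zz, hnz]
      funext i
      rw [Matrix.mul_apply, Fin.sum_univ_three]
      simp [LA1_P, T6d_M, Matrix.adjugate_fin_three]
      ring
    · have h0 := hcol 1
      simp only [Matrix.cons_val_one, Matrix.cons_val_zero] at h0
      rw [h0, hRG, hf.nn, hzn]
      funext i
      rw [Matrix.mul_apply, Fin.sum_univ_three]
      simp [LA1_P, T6d_M, Matrix.adjugate_fin_three]
      ring
    · have h0 := hcol 2
      simp only [Matrix.cons_val] at h0
      rw [h0, hRG, hf.ze, hf.ne]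
      funext i
      rw [Matrix.mul_apply, Fin.sum_univ_three]
      simp [LA1_P, T6d_M, Matrix.adjugate_fin_three]
      right
      linear_combination hρ
  unfold Geo.Ku
  rw [key, Matrix.mul_nonsing_inv_cancel_right _ _ hu]

/-! ### construction of the block -/

theorem T6d_form (S : Geo) {x : E4} (hx : x ≠ 0) (V : E4 → V3) (w : E4) :
    form (fun y => S.G y *ᵥ V y) x w = S.g x (V x) (comps x w) := by
  rw [S.g_symm hx]
  simp only [form, Geo.g, bil, comps, dotProduct, ContinuousLinearMap.sum_apply,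
    _root_.smul_apply, innerSL_apply_apply, smul_eq_mul]
  exact Finset.sum_congr rfl fun i _ => by ring

theorem T6d_form_gen {x : E4} (α : E4 → V3) (w : E4) : form α x w = ∑ i, α x i * comps x w i := by
  simp only [form, comps, ContinuousLinearMap.sum_apply, _root_.smul_apply, innerSL_apply_apply, smul_eq_mul]
  exact Finset.sum_congr rfl fun i _ => by ring

theorem T6d_form_smooth {α : E4 → V3} {x : E4} (hx : x ≠ 0) (hα : ContDiffAt ℝ ∞ α x) :
    ContDiffAt ℝ ∞ (form α) x := by
  unfold form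
  refine ContDiffAt.sum fun i _ => ?_
  have h1 : ContDiffAt ℝ ∞ (fun y => α y i) x := (contDiffAt_pi.1 hα) i
  have h2 : ContDiffAt ℝ ∞ (fun y : E4 => ‖y‖ ^ 2) x := (contDiff_norm_sq ℝ).contDiffAt
  have h3 : ContDiffAt ℝ ∞ (fun y : E4 => α y i / ‖y‖ ^ 2) x :=
    h1.div h2 (pow_ne_zero 2 (norm_ne_zero_iff.2 hx))
  have h4 : ContDiffAt ℝ ∞ (fun y : E4 => innerSL ℝ (J i y)) x :=
    ((innerSL ℝ : E4 →L[ℝ] E4 →L[ℝ] ℝ).contDiff.comp (J i).contDiff).contDiffAt
  exact h3.smul h4

theorem T6d_fld_smooth {α : E4 → V3} {x : E4} (hα : ContDiffAt ℝ ∞ α x) :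
    ContDiffAt ℝ ∞ (fun y => fld (α y) y) x := by
  unfold fld
  refine ContDiffAt.sum fun i _ => ?_
  exact ((contDiffAt_pi.1 hα) i).smul (J i).contDiff.contDiffAt

theorem T6d_ab {A : M3} {r₁ r₂ r₃ s a b l : ℝ} (h : RR3 A r₁ r₂ r₃)
    (hd : ∀ t : ℝ, (t • (1 : M3) - A).det = ((t - s) ^ 2 - a * b) * (t - l)) : 0 ≤ a * b := by
  have h1 : ∀ t : ℝ, (t - r₁) * (t - r₂) * (t - r₃) = ((t - s) ^ 2 - a * b) * (t - l) := fun t => by
    rw [← h t, hd t]
  by_contra hcon
  push Not at hcon
  have hpos : ∀ t : ℝ, 0 < (t - s) ^ 2 - a * b := fun t => by nlinarith [sq_nonneg (t - s)]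
  have hr : ∀ t : ℝ, (t - r₁) * (t - r₂) * (t - r₃) = 0 → t = l := by
    intro t ht
    have h2 := h1 t
    rw [ht] at h2
    have h3 := (mul_eq_zero.1 h2.symm).resolve_left (hpos t).ne'
    linarith
  have e1 := hr r₁ (by ring)
  have e2 := hr r₂ (by ring)
  have e3 := hr r₃ (by ring)
  subst e1
  rw [e2, e3] at h1
  have h4 := h1 (r₁ + 1)
  have h5 := h1 (r₁ - 1)
  have h6 := h1 (r₁ + 2)
  ring_nf at h4 h5 h6
  nlinarith

theorem exists_block (S : Geo) (hRR : ∀ x, x ≠ 0 → ∃ r₁ r₂ r₃ : ℝ, RR3 (S.L x) r₁ r₂ r₃) {q : E4}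
    (hq : q ≠ 0) {l₀ : ℝ} {e₀ : V3} (he₀ : S.L q *ᵥ e₀ = l₀ • e₀) (hee : S.g q e₀ e₀ = 1)
    (hsimple : 0 < (S.L q - l₀ • (1 : M3)).adjugate.trace) :
    ∃ (B : Pool.Agent.helper25.B2.Block E4) (z n e : E4 → V3), q ∈ B.W ∧ B.l q = l₀ ∧
      BlockOf S B z n e := by
  obtain ⟨W, z, n, e, s, a, b, l, hqW, hlq, F⟩ := T6_frame S hq he₀ hee hsimple
  have hne : ∀ x ∈ W, x ≠ 0 := fun x hx h0 => F.cone.zero (h0 ▸ hx)
  have hWo := F.cone.isOpen
  have hG : ∀ x ∈ W, (S.G x)ᵀ = S.G x := fun x hx => S.symm x (hne x hx)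
  -- smoothness
  have cz : ∀ x ∈ W, ContDiffAt ℝ ∞ z x := fun x hx => F.smz.contDiffAt (hWo.mem_nhds hx)
  have cn : ∀ x ∈ W, ContDiffAt ℝ ∞ n x := fun x hx => F.smn.contDiffAt (hWo.mem_nhds hx)
  have ce : ∀ x ∈ W, ContDiffAt ℝ ∞ e x := fun x hx => F.sme.contDiffAt (hWo.mem_nhds hx)
  have cs : ∀ x ∈ W, ContDiffAt ℝ ∞ s x := fun x hx => F.sms.contDiffAt (hWo.mem_nhds hx)
  have ca : ∀ x ∈ W, ContDiffAt ℝ ∞ a x := fun x hx => F.sma.contDiffAt (hWo.mem_nhds hx)
  have cb : ∀ x ∈ W, ContDiffAt ℝ ∞ b x := fun x hx => F.smb.contDiffAt (hWo.mem_nhds hx)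
  have cl : ∀ x ∈ W, ContDiffAt ℝ ∞ l x := fun x hx => F.sml.contDiffAt (hWo.mem_nhds hx)
  have cG : ∀ x ∈ W, ContDiffAt ℝ ∞ S.G x := fun x hx => S.smG.contDiffAt (hne x hx)
  have clam : ∀ x ∈ W, ContDiffAt ℝ ∞ S.lam x := fun x hx => S.smlam.contDiffAt (hne x hx)
  have cLam : ∀ x ∈ W, ContDiffAt ℝ ∞ S.Lam x := fun x hx => S.sm_Lam.contDiffAt (hne x hx)
  have cg : ∀ x ∈ W, ∀ U V : E4 → V3, ContDiffAt ℝ ∞ U x → ContDiffAt ℝ ∞ V x →
      ContDiffAt ℝ ∞ (fun y => S.g y (U y) (V y)) x := fun x hx U V hU hV => contDiffAt_bil (cG x hx) hU hV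
  have cflat : ∀ x ∈ W, ∀ V : E4 → V3, ContDiffAt ℝ ∞ V x → ContDiffAt ℝ ∞ (fun y => S.G y *ᵥ V y) x :=
    fun x hx V hV => contDiffAt_mulVec (cG x hx) hV
  have cnab : ∀ x ∈ W, ∀ v : V3, ContDiffAt ℝ ∞ (fun y => S.nab z v y) x := by
    intro x hx v
    unfold Geo.nab
    have h1 : ContDiffAt ℝ ∞ (fun y => Dv z v y) x :=
      Dv_contDiffAt (v := fun _ => v) (cz x hx) contDiffAt_const
    have h2 : ContDiffAt ℝ ∞ (fun y => S.Gam v y) x := by
      unfold Geo.Gam
      exact ContDiffAt.sum fun i _ => ((S.smΓ i).contDiffAt (hne x hx)).const_smul (v i)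
    exact h1.add (contDiffAt_mulVec h2 (cz x hx))
  set omv : E4 → V3 := fun y i => S.g y (S.nab z (ee i) y) (n y) with homv
  have com : ∀ x ∈ W, ContDiffAt ℝ ∞ omv x := fun x hx =>
    contDiffAt_pi.2 fun i => cg x hx _ _ (cnab x hx (ee i)) (cn x hx)
  have hom_apply : ∀ x, ∀ v : V3, (∑ i, omv x i * v i) = S.g x (S.nab z v x) (n x) := by
    intro x v
    rw [S.GA_nab_linear z v x]
    simp only [Geo.g, homv, Fin.sum_univ_three, GA_bil_add_left, GA_bil_smul_left]
    ring
  -- values on the frame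
  have cf : ∀ x ∈ W, ∀ v, comps x (fld v x) = v := fun x hx v => comps_fld v (hne x hx)
  have gzz : ∀ x ∈ W, S.g x (z x) (z x) = 0 := fun x hx => (F.frame x hx).zz
  have gnn : ∀ x ∈ W, S.g x (n x) (n x) = 0 := fun x hx => (F.frame x hx).nn
  have gzn : ∀ x ∈ W, S.g x (z x) (n x) = 1 := fun x hx => (F.frame x hx).zn
  have gnz : ∀ x ∈ W, S.g x (n x) (z x) = 1 := fun x hx => by rw [S.g_symm (hne x hx)]; exact gzn x hx
  have gee : ∀ x ∈ W, S.g x (e x) (e x) = 1 := fun x hx => (F.frame x hx).ee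
  have gze : ∀ x ∈ W, S.g x (z x) (e x) = 0 := fun x hx => (F.frame x hx).ze
  have gez : ∀ x ∈ W, S.g x (e x) (z x) = 0 := fun x hx => by rw [S.g_symm (hne x hx)]; exact gze x hx
  have gne : ∀ x ∈ W, S.g x (n x) (e x) = 0 := fun x hx => (F.frame x hx).ne
  have gen : ∀ x ∈ W, S.g x (e x) (n x) = 0 := fun x hx => by rw [S.g_symm (hne x hx)]; exact gne x hx
  have hdfun : ∀ (f : E4 → ℝ), Hom f → ∀ x ∈ W, ∀ w, fderiv ℝ f x w = Dv f (comps x w) x := by
    intro f hf x hx w
    rw [fderiv_decomp f (hne x hx) w, hf.radial (hne x hx), smul_zero, add_zero]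
  have hu_hom : Hom (fun y => S.g y (S.lam y) (n y)) := by
    intro t ht x
    simp only [Geo.g]
    rw [S.homG t ht x, S.homlam t ht x, F.homn t ht x]
  have hv_hom : Hom (fun y => S.g y (S.lam y) (z y)) := by
    intro t ht x
    simp only [Geo.g]
    rw [S.homG t ht x, S.homlam t ht x, F.homz t ht x]
  let B : Block E4 :=
    { W := W
      isOpen_W := hWo
      Np := fun x => fld (z x) x
      Nm := fun x => fld (n x) x
      Ne := fun x => fld (e x) x
      cp := form fun y => S.G y *ᵥ n y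
      cm := form fun y => S.G y *ᵥ z y
      ce := form fun y => S.G y *ᵥ e y
      om := form omv
      a := a
      b := b
      s := s
      u := fun x => S.g x (S.lam x) (n x)
      v := fun x => S.g x (S.lam x) (z x)
      h := fun x => ((S.Lam x).trace - S.g x (S.Lam x *ᵥ e x) (e x)) / 2
        - S.g x (S.lam x) (e x) ^ 2 * (l x - s x) / ((l x - s x) ^ 2 - a x * b x)
      l := l
      k := fun x => S.g x (S.lam x) (e x)
      f := fun _ => 0
      smooth_Np := fun x hx => T6d_fld_smooth (cz x hx)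
      smooth_Nm := fun x hx => T6d_fld_smooth (cn x hx)
      smooth_Ne := fun x hx => T6d_fld_smooth (ce x hx)
      smooth_cp := fun x hx => T6d_form_smooth (hne x hx) (cflat x hx n (cn x hx))
      smooth_cm := fun x hx => T6d_form_smooth (hne x hx) (cflat x hx z (cz x hx))
      smooth_ce := fun x hx => T6d_form_smooth (hne x hx) (cflat x hx e (ce x hx))
      smooth_om := fun x hx => T6d_form_smooth (hne x hx) (com x hx)
      smooth_a := ca
      smooth_b := cb
      smooth_s := cs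
      smooth_u := fun x hx => cg x hx _ _ (clam x hx) (cn x hx)
      smooth_v := fun x hx => cg x hx _ _ (clam x hx) (cz x hx)
      smooth_h := fun x hx => by
        have h1 := contDiffAt_trace (cLam x hx)
        have h2 := cg x hx _ _ (contDiffAt_mulVec (cLam x hx) (ce x hx)) (ce x hx)
        have h3 := cg x hx _ _ (clam x hx) (ce x hx)
        have h4 := (cl x hx).sub (cs x hx)
        have h5 : ContDiffAt ℝ ∞ (fun x => (l x - s x) ^ 2 - a x * b x) x :=
          (h4.pow 2).sub ((ca x hx).mul (cb x hx))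
        exact ((h1.sub h2).div_const 2).sub (((h3.pow 2).mul h4).div h5 (F.P x hx).ne')
      smooth_l := cl
      smooth_k := fun x hx => cg x hx _ _ (clam x hx) (ce x hx)
      smooth_f := fun x hx => contDiffAt_const
      cp_Np := fun x hx => by rw [T6d_form S (hne x hx), cf x hx, gnz x hx]
      cp_Nm := fun x hx => by rw [T6d_form S (hne x hx), cf x hx, gnn x hx]
      cp_Ne := fun x hx => by rw [T6d_form S (hne x hx), cf x hx, gne x hx]
      cm_Np := fun x hx => by rw [T6d_form S (hne x hx), cf x hx, gzz x hx]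
      cm_Nm := fun x hx => by rw [T6d_form S (hne x hx), cf x hx, gzn x hx]
      cm_Ne := fun x hx => by rw [T6d_form S (hne x hx), cf x hx, gze x hx]
      ce_Np := fun x hx => by rw [T6d_form S (hne x hx), cf x hx, gez x hx]
      ce_Nm := fun x hx => by rw [T6d_form S (hne x hx), cf x hx, gen x hx]
      ce_Ne := fun x hx => by rw [T6d_form S (hne x hx), cf x hx, gee x hx]
      da := fun x hx w => by
        obtain ⟨ηp, ηm, -, -, -, -, -, -, h1, -, -⟩ := T6_conn S F hx (comps x w)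
        rw [hdfun a F.homa x hx, h1, T6d_form S (hne x hx), T6d_form_gen, hom_apply]
      db := fun x hx w => by
        obtain ⟨ηp, ηm, -, -, -, -, -, -, -, h1, -⟩ := T6_conn S F hx (comps x w)
        rw [hdfun b F.homb x hx, h1, T6d_form S (hne x hx), T6d_form_gen, hom_apply]
      ds := fun x hx w => by
        obtain ⟨ηp, ηm, -, -, -, -, -, h1, -, -, -⟩ := T6_conn S F hx (comps x w)
        rw [hdfun s F.homs x hx, h1, T6d_form S (hne x hx), T6d_form S (hne x hx)]
      dl := fun x hx w => by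
        obtain ⟨ηp, ηm, -, -, -, -, -, -, -, -, h1⟩ := T6_conn S F hx (comps x w)
        rw [hdfun l F.homl x hx, h1, T6d_form S (hne x hx)]
      du_Np := fun x hx => by
        rw [T6d_form_gen, hom_apply, hdfun _ hu_hom x hx, cf x hx]
        exact (T6_h S F hx).1
      dv_Nm := fun x hx => by
        rw [T6d_form_gen, hom_apply, hdfun _ hv_hom x hx, cf x hx]
        exact (T6_h S F hx).2
      bracket := fun x hx => by
        have h1 := T.bracket_fld S (hne x hx) ((cz x hx).differentiableAt (by simp))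
          ((cn x hx).differentiableAt (by simp))
        obtain ⟨ηp, ηm, -, hm, -, h2, -, -⟩ := T6_conn S F hx (z x)
        obtain ⟨ηp', ηm', hp', -, h3, -, -, -⟩ := T6_conn S F hx (n x)
        have h4 : ηm = ηp' := by
          rw [hm, hp', gnz x hx, gez x hx, gzz x hx, gzn x hx, gen x hx, gnn x hx]
          ring
        rw [T6d_form_gen, T6d_form_gen, hom_apply, hom_apply, cf x hx, cf x hx, h1]
        generalize S.g x (S.nab z (n x) x) (n x) = A at h3 ⊢
        generalize S.g x (S.nab z (z x) x) (n x) = A' at h2 ⊢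
        rw [h2, h3, h4]
        have h5 : -A' • n x + ηp' • e x - (A • z x + ηp' • e x) = (-A') • n x + (-A) • z x := by
          module
        rw [h5]
        simp only [← fldL_apply, map_add, map_smul, zero_smul]
        module
      P_pos := F.P
      ab_nonneg := fun x hx => by
        obtain ⟨r₁, r₂, r₃, hr⟩ := hRR x (hne x hx)
        exact T6d_ab hr (T6d_det (hG x hx) (F.frame x hx) (F.Lz x hx) (F.Ln x hx) (F.Le x hx))
      dcp := fun x hx w w' => by
        have h1 := T.form_flat_d S F.homn (hne x hx) ((cn x hx).differentiableAt (by simp)) w w'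
        obtain ⟨ηp, ηm, -, hm, -, h2, -, -⟩ := T6_conn S F hx (comps x w)
        obtain ⟨ηp', ηm', -, hm', -, h2', -, -⟩ := T6_conn S F hx (comps x w')
        have ho : ∀ w, form omv x w = S.g x (S.nab z (comps x w) x) (n x) := fun w => by
          rw [T6d_form_gen, hom_apply]
        rw [h1]
        simp only [ho, T6d_form S (hne x hx)]
        generalize S.g x (S.nab z (comps x w) x) (n x) = A at h2 ⊢
        generalize S.g x (S.nab z (comps x w') x) (n x) = A' at h2' ⊢
        rw [h2, h2']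
        simp only [Geo.g, GA_bil_add_left, GA_bil_smul_left] at hm hm' ⊢
        rw [hm, hm']
        ring
      dcm := fun x hx w w' => by
        have h1 := T.form_flat_d S F.homz (hne x hx) ((cz x hx).differentiableAt (by simp)) w w'
        obtain ⟨ηp, ηm, hm, -, h2, -, -, -⟩ := T6_conn S F hx (comps x w)
        obtain ⟨ηp', ηm', hm', -, h2', -, -, -⟩ := T6_conn S F hx (comps x w')
        have ho : ∀ w, form omv x w = S.g x (S.nab z (comps x w) x) (n x) := fun w => by
          rw [T6d_form_gen, hom_apply]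
        rw [h1]
        simp only [ho, T6d_form S (hne x hx)]
        generalize S.g x (S.nab z (comps x w) x) (n x) = A at h2 ⊢
        generalize S.g x (S.nab z (comps x w') x) (n x) = A' at h2' ⊢
        rw [h2, h2']
        simp only [Geo.g, GA_bil_add_left, GA_bil_smul_left] at hm hm' ⊢
        rw [hm, hm']
        ring }
  refine ⟨B, z, n, e, hqW, hlq, ?_⟩
  exact
    { cone := F.cone
      homz := F.homz
      homn := F.homn
      home := F.home
      smz := F.smz
      smn := F.smn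
      sme := F.sme
      frame := F.frame
      Np := fun x hx => rfl
      Nm := fun x hx => rfl
      Ne := fun x hx => rfl
      cp := fun x hx w => T6d_form S (hne x hx) n w
      cm := fun x hx w => T6d_form S (hne x hx) z w
      ce := fun x hx w => T6d_form S (hne x hx) e w
      Lz := F.Lz
      Ln := F.Ln
      Le := F.Le
      u := fun x hx => rfl
      v := fun x hx => rfl
      k := fun x hx => rfl
      h := fun x hx => rfl
      homs := fun x hx t ht => ⟨F.homs t ht x, F.homl t ht x, F.homa t ht x, F.homb t ht x⟩ }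

end Pool.Agent.helper68.B2
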