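import Pool.Agent.helper49.B2.FR1
import Pool.Agent.helper49.B2.T6d
import Pool.Agent.helper71.B2.A3
import Pool.Agent.helper46.B2.GB
import Pool.Agent.helper63.B2.NZ
import Pool.Agent.helper93.B2.TB

/-! # MP_b2b189_gt, b2:FR2: block data at the points of `S2` -/

set_option autoImplicit false

namespace Pool.Agent.helper68.B2

open scoped ContDiff Topology Matrix
open Matrix Set Filter
open Pool.Agent.helper25.B2 (Sol Block)

variable {S : Geo}

/-- restriction of a block to a smaller open set -/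
def FR2_restrict (B : Block E4) (W' : Set E4) (hW' : IsOpen W') (hs : W' ⊆ B.W) : Block E4 where
  W := W'
  isOpen_W := hW'
  Np := B.Np
  Nm := B.Nm
  Ne := B.Ne
  cp := B.cp
  cm := B.cm
  ce := B.ce
  om := B.om
  a := B.a
  b := B.b
  s := B.s
  u := B.u
  v := B.v
  h := B.h
  l := B.l
  k := B.k
  f := B.f
  smooth_Np := fun x hx => B.smooth_Np x (hs hx)
  smooth_Nm := fun x hx => B.smooth_Nm x (hs hx)
  smooth_Ne := fun x hx => B.smooth_Ne x (hs hx)
  smooth_cp := fun x hx => B.smooth_cp x (hs hx)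
  smooth_cm := fun x hx => B.smooth_cm x (hs hx)
  smooth_ce := fun x hx => B.smooth_ce x (hs hx)
  smooth_om := fun x hx => B.smooth_om x (hs hx)
  smooth_a := fun x hx => B.smooth_a x (hs hx)
  smooth_b := fun x hx => B.smooth_b x (hs hx)
  smooth_s := fun x hx => B.smooth_s x (hs hx)
  smooth_u := fun x hx => B.smooth_u x (hs hx)
  smooth_v := fun x hx => B.smooth_v x (hs hx)
  smooth_h := fun x hx => B.smooth_h x (hs hx)
  smooth_l := fun x hx => B.smooth_l x (hs hx)
  smooth_k := fun x hx => B.smooth_k x (hs hx)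
  smooth_f := fun x hx => B.smooth_f x (hs hx)
  cp_Np := fun x hx => B.cp_Np x (hs hx)
  cp_Nm := fun x hx => B.cp_Nm x (hs hx)
  cp_Ne := fun x hx => B.cp_Ne x (hs hx)
  cm_Np := fun x hx => B.cm_Np x (hs hx)
  cm_Nm := fun x hx => B.cm_Nm x (hs hx)
  cm_Ne := fun x hx => B.cm_Ne x (hs hx)
  ce_Np := fun x hx => B.ce_Np x (hs hx)
  ce_Nm := fun x hx => B.ce_Nm x (hs hx)
  ce_Ne := fun x hx => B.ce_Ne x (hs hx)
  da := fun x hx => B.da x (hs hx)
  db := fun x hx => B.db x (hs hx)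
  ds := fun x hx => B.ds x (hs hx)
  dl := fun x hx => B.dl x (hs hx)
  du_Np := fun x hx => B.du_Np x (hs hx)
  dv_Nm := fun x hx => B.dv_Nm x (hs hx)
  bracket := fun x hx => B.bracket x (hs hx)
  P_pos := fun x hx => B.P_pos x (hs hx)
  ab_nonneg := fun x hx => B.ab_nonneg x (hs hx)
  dcp := fun x hx => B.dcp x (hs hx)
  dcm := fun x hx => B.dcm x (hs hx)

theorem FR2_restrict_of {B : Block E4} {z n e : E4 → V3} (h : BlockOf S B z n e) {W' : Set E4}
    (hW' : OCone W') (hs : W' ⊆ B.W) : BlockOf S (FR2_restrict B W' hW'.isOpen hs) z n e where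
  cone := hW'
  homz := h.homz
  homn := h.homn
  home := h.home
  smz := h.smz.mono hs
  smn := h.smn.mono hs
  sme := h.sme.mono hs
  frame := fun x hx => h.frame x (hs hx)
  Np := fun x hx => h.Np x (hs hx)
  Nm := fun x hx => h.Nm x (hs hx)
  Ne := fun x hx => h.Ne x (hs hx)
  cp := fun x hx => h.cp x (hs hx)
  cm := fun x hx => h.cm x (hs hx)
  ce := fun x hx => h.ce x (hs hx)
  Lz := fun x hx => h.Lz x (hs hx)
  Ln := fun x hx => h.Ln x (hs hx)
  Le := fun x hx => h.Le x (hs hx)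
  u := fun x hx => h.u x (hs hx)
  v := fun x hx => h.v x (hs hx)
  k := fun x hx => h.k x (hs hx)
  h := fun x hx => h.h x (hs hx)
  homs := fun x hx => h.homs x (hs hx)

theorem FR2_det {B : Block E4} {z n e : E4 → V3} (h : BlockOf S B z n e) {x : E4} (hx : x ∈ B.W)
    (t : ℝ) : (t • (1 : M3) - S.L x).det = ((t - B.s x) ^ 2 - B.a x * B.b x) * (t - B.l x) :=
  T6d_det (S.symm x (T6d_ne h hx)) (h.frame x hx) (h.Lz x hx) (h.Ln x hx) (h.Le x hx) t

/-- the adjugate at the third eigenvalue -/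
theorem FR2_adj {B : Block E4} {z n e : E4 → V3} (h : BlockOf S B z n e) {x : E4} (hx : x ∈ B.W) :
    (S.L x - B.l x • (1 : M3)).adjugate =
      ((B.l x - B.s x) ^ 2 - B.a x * B.b x) • vecMulVec (e x) (S.G x *ᵥ e x) := by
  have hx0 := T6d_ne h hx
  have hG := S.symm x hx0
  have hf := h.frame x hx
  have hadj := T6d_adj hG hf (h.Lz x hx) (h.Ln x hx) (h.Le x hx) (B.l x)
  have hcol : ∀ j : Fin 3, (S.L x - B.l x • (1 : M3)).adjugate *ᵥ (![z x, n x, e x] j) = fun i =>
      (LA1_P (z x) (n x) (e x) * (T6d_M (B.s x - B.l x) (B.a x) (B.b x) (B.l x - B.l x)).adjugate) i j := by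
    intro j
    funext i
    rw [← hadj]
    simp [Matrix.mul_apply, LA1_P, mulVec, dotProduct]
  have hRG : ∀ w : V3, (((B.l x - B.s x) ^ 2 - B.a x * B.b x) • vecMulVec (e x) (S.G x *ᵥ e x)) *ᵥ w =
      (((B.l x - B.s x) ^ 2 - B.a x * B.b x) * bil (S.G x) w (e x)) • e x := by
    intro w
    rw [Matrix.smul_mulVec, GA_vecMulVec_mulVec, smul_smul, dotProduct_comm]
    rfl
  refine hf.ext hG ?_ ?_ ?_
  · have h0 := hcol 0
    simp only [Matrix.cons_val_zero] at h0
    rw [h0, hRG, hf.ze]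
    funext i
    rw [Matrix.mul_apply, Fin.sum_univ_three]
    simp [LA1_P, T6d_M, Matrix.adjugate_fin_three]
  · have h0 := hcol 1
    simp only [Matrix.cons_val_one, Matrix.cons_val_zero] at h0
    rw [h0, hRG, hf.ne]
    funext i
    rw [Matrix.mul_apply, Fin.sum_univ_three]
    simp [LA1_P, T6d_M, Matrix.adjugate_fin_three]
  · have h0 := hcol 2
    simp only [Matrix.cons_val] at h0
    rw [h0, hRG, hf.ee]
    funext i
    rw [Matrix.mul_apply, Fin.sum_univ_three]
    simp [LA1_P, T6d_M, Matrix.adjugate_fin_three]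
    ring

namespace Roots
variable (R : Roots S)

theorem block_at (hNC : S.NC) {q : E4} (hq : q ∈ R.S2) :
    ∃ (B : Block E4) (z n e : E4 → V3), q ∈ B.W ∧ BlockOf S B z n e ∧ B.A ∧ B.NZ ∧ B.W ⊆ R.N ∧
      ∀ x ∈ B.W, B.l x = R.far x ∧ B.s x = R.m x ∧ B.h x = R.h x ∧
        R.X x = B.u x • z x + B.v x • n x ∧ R.Xg x = B.u x • B.Np x + B.v x • B.Nm x ∧
        (x ∈ R.S2 ↔ B.a x * B.b x = 0) ∧
        R.P3 x = vecMulVec (e x) (S.G x *ᵥ e x) ∧
        R.Nn x = B.a x • vecMulVec (z x) (S.G x *ᵥ z x) + B.b x • vecMulVec (n x) (S.G x *ᵥ n x) := by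
  have hqN := R.S2_sub_N hq
  obtain ⟨e₀, he1, he2, -⟩ := R.far_space hqN
  obtain ⟨B₀, z, n, e, hqW, hlq, hB₀⟩ := exists_block S
    (fun x hx => ⟨_, _, _, R.fac x hx⟩) hqN.1 he2 he1 (R.Pi_pos hqN)
  -- the smaller cone
  set W' : Set E4 := {x | x ∈ B₀.W ∧ x ∈ R.N ∧ (R.far x - B₀.s x) ^ 2 - B₀.a x * B₀.b x ≠ 0} with hW'
  have hfl : ∀ x ∈ W', B₀.l x = R.far x := by
    rintro x ⟨hxW, hxN, hne⟩
    have h1 := FR2_det hB₀ hxW (R.far x)
    rw [FR1_det_neg, R.FR1_det hxN, neg_zero] at h1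
    have h2 := (mul_eq_zero.1 h1.symm).resolve_left hne
    linarith
  have hcone : OCone W' := by
    refine ⟨?_, fun h => h.2.1.1 rfl, ?_⟩
    · rw [isOpen_iff_mem_nhds]
      rintro x ⟨hxW, hxN, hne⟩
      have c1 : ContinuousAt (fun x => (R.far x - B₀.s x) ^ 2 - B₀.a x * B₀.b x) x :=
        (((R.smN hxN).1.continuousAt.sub (B₀.smooth_s x hxW).continuousAt).pow 2).sub
          ((B₀.smooth_a x hxW).continuousAt.mul (B₀.smooth_b x hxW).continuousAt)
      filter_upwards [B₀.isOpen_W.mem_nhds hxW, R.N_cone.isOpen.mem_nhds hxN, c1.eventually_ne hne]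
        with y h1 h2 h3
      exact ⟨h1, h2, h3⟩
    · rintro x ⟨hxW, hxN, hne⟩ t ht
      refine ⟨hB₀.cone.smul x hxW t ht, R.N_cone.smul x hxN t ht, ?_⟩
      obtain ⟨h1, -, h2, h3⟩ := hB₀.homs x hxW t ht
      rw [h1, h2, h3, R.hom_far t ht]
      exact hne
  have hsub : W' ⊆ B₀.W := fun x hx => hx.1
  have hqW' : q ∈ W' := by
    refine ⟨hqW, hqN, ?_⟩
    rw [← hlq]
    exact (B₀.P_pos q hqW).ne'
  set B : Block E4 := FR2_restrict B₀ W' hcone.isOpen hsub with hBdef
  have hB : BlockOf S B z n e := FR2_restrict_of hB₀ hcone hsub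
  have hBN : B.W ⊆ R.N := fun x hx => hx.2.1
  have hBl : ∀ x ∈ B.W, B.l x = R.far x := hfl
  -- pointwise facts
  have hs : ∀ x ∈ B.W, B.s x = R.m x := by
    intro x hx
    have h1 := RR3_trace (block_roots S hB hx)
    unfold m
    rw [h1, ← hBl x hx]
    ring
  have hPi : ∀ x ∈ B.W, R.Pi x = (B.l x - B.s x) ^ 2 - B.a x * B.b x := by
    intro x hx
    unfold Pi
    rw [← hBl x hx, FR2_adj hB hx, Matrix.trace_smul, GA_trace_vecMulVec]
    have h1 : e x ⬝ᵥ (S.G x *ᵥ e x) = 1 := (hB.frame x hx).ee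
    rw [h1, smul_eq_mul, mul_one]
  have hP3 : ∀ x ∈ B.W, R.P3 x = vecMulVec (e x) (S.G x *ᵥ e x) := by
    intro x hx
    have h1 := (B.P_pos x hx).ne'
    unfold P3
    rw [hPi x hx, ← hBl x hx, FR2_adj hB hx, smul_smul, inv_mul_cancel₀ h1, one_smul]
  have hX : ∀ x ∈ B.W, R.X x = B.u x • z x + B.v x • n x := by
    intro x hx
    have hx0 := (hBN hx).1
    have h1 := (hB.frame x hx).expand (S.symm x hx0) (S.lam x)
    unfold X
    rw [hP3 x hx, GA_vecMulVec_mulVec, hB.u x hx, hB.v x hx]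
    have h2 : (S.G x *ᵥ e x) ⬝ᵥ S.lam x = bil (S.G x) (S.lam x) (e x) := by
      rw [dotProduct_comm]; rfl
    rw [h2]
    unfold Geo.g
    conv_lhs => rw [h1]
    rw [LA1_add_left, LA1_add_left, LA1_smul_left, LA1_smul_left, LA1_smul_left]
    have e1 : bil (S.G x) (z x) (e x) = 0 := (hB.frame x hx).ze
    have e2 : bil (S.G x) (n x) (e x) = 0 := (hB.frame x hx).ne
    have e3 : bil (S.G x) (e x) (e x) = 1 := (hB.frame x hx).ee
    rw [e1, e2, e3]
    module
  have hXg : ∀ x ∈ B.W, R.Xg x = B.u x • B.Np x + B.v x • B.Nm x := by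
    intro x hx
    unfold Xg
    rw [hX x hx, hB.Np x hx, hB.Nm x hx, ← fldL_apply, ← fldL_apply, ← fldL_apply, map_add, map_smul,
      map_smul]
  have hh : ∀ x ∈ B.W, B.h x = R.h x := by
    intro x hx
    have hx0 := (hBN hx).1
    rw [hB.h x hx]
    unfold h
    rw [hPi x hx, hP3 x hx, ← hBl x hx, ← hs x hx, GA_vecMulVec_mul, GA_trace_vecMulVec,
      GA_vecMulVec_mulVec]
    have h1 : e x ⬝ᵥ ((S.Lam x)ᵀ *ᵥ (S.G x *ᵥ e x)) = S.g x (S.Lam x *ᵥ e x) (e x) := by
      rw [Matrix.mulVec_transpose, dotProduct_comm, ← Matrix.dotProduct_mulVec, dotProduct_comm]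
      rfl
    have h2 : (S.G x *ᵥ e x) ⬝ᵥ S.lam x = B.k x := by
      rw [hB.k x hx, dotProduct_comm]; rfl
    have h3 : S.g x (B.k x • e x) (S.lam x) = B.k x ^ 2 := by
      rw [S.g_symm hx0]
      unfold Geo.g
      rw [LA1_smul_right, ← Geo.g, ← hB.k x hx]
      ring
    rw [h1, h2, h3]
  have hNn : ∀ x ∈ B.W, R.Nn x =
      B.a x • vecMulVec (z x) (S.G x *ᵥ z x) + B.b x • vecMulVec (n x) (S.G x *ᵥ n x) := by
    intro x hx
    have hx0 := (hBN hx).1
    have hG := S.symm x hx0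
    have hf := hB.frame x hx
    have hv : ∀ p w : V3, vecMulVec p (S.G x *ᵥ p) *ᵥ w = bil (S.G x) w p • p := by
      intro p w
      rw [GA_vecMulVec_mulVec, dotProduct_comm]; rfl
    have hnz : bil (S.G x) (n x) (z x) = 1 := by rw [bil_symm hG]; exact hf.zn
    have hez : bil (S.G x) (e x) (z x) = 0 := by rw [bil_symm hG]; exact hf.ze
    have hen : bil (S.G x) (e x) (n x) = 0 := by rw [bil_symm hG]; exact hf.ne
    unfold Nn
    rw [hP3 x hx, ← hs x hx, ← hBl x hx]
    refine hf.ext hG ?_ ?_ ?_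
    · simp only [Matrix.sub_mulVec, Matrix.add_mulVec, Matrix.smul_mulVec, Matrix.one_mulVec, hv,
        hB.Lz x hx, hf.ze, hf.zz, hf.zn]
      module
    · simp only [Matrix.sub_mulVec, Matrix.add_mulVec, Matrix.smul_mulVec, Matrix.one_mulVec, hv,
        hB.Ln x hx, hf.ne, hf.nn, hnz]
      module
    · simp only [Matrix.sub_mulVec, Matrix.add_mulVec, Matrix.smul_mulVec, Matrix.one_mulVec, hv,
        hB.Le x hx, hf.ee, hez, hen]
      module
  have hS2 : ∀ x ∈ B.W, (x ∈ R.S2 ↔ B.a x * B.b x = 0) := by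
    intro x hx
    have hxN := hBN hx
    have hr := block_roots S hB hx
    rw [hBl x hx] at hr
    obtain ⟨r, h1, h2⟩ := R.far_fac hxN
    have hne : R.far x ≠ R.τ x := by
      intro h0
      rw [h0, sub_self, abs_zero] at h2
      exact absurd h2 (not_lt.2 (abs_nonneg _))
    rw [R.far_S2 hxN]
    constructor
    · rintro ⟨h3, -⟩
      have e1 := RR3_trace hr
      have e2 := RR3_trace h3
      have e3 : (S.L x - R.τ x • (1 : M3)).det = 0 := (RR3_adj h3).2
      have hsq : Real.sqrt (B.a x * B.b x) = 0 := by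
        rcases RR3_root hr e3 with h | h | h
        · linarith
        · linarith
        · exact absurd h.symm hne
      exact (Real.sqrt_eq_zero (B.ab_nonneg x hx)).1 hsq
    · intro h3
      rw [h3, Real.sqrt_zero, sub_zero, add_zero] at hr
      have e3 : (S.L x - R.τ x • (1 : M3)).det = 0 := (RR3_adj h1).2
      have hτ : R.τ x = B.s x := by
        rcases RR3_root hr e3 with h | h | h
        · exact h
        · exact h
        · exact absurd h.symm hne
      rw [hτ]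
      rw [hτ] at hne
      exact ⟨hr, hne⟩
  have hlor : ∀ x, x ≠ 0 → Lor (S.G x) := fun x hx => ⟨S.symm x hx, S.det_neg x hx, S.pos x hx⟩
  have hne0 : ∀ x ∈ B.W, z x ≠ 0 ∧ n x ≠ 0 ∧ e x ≠ 0 := by
    intro x hx
    have hf := hB.frame x hx
    refine ⟨fun h0 => ?_, fun h0 => ?_, fun h0 => ?_⟩
    · have := hf.zn
      rw [h0, LA1_zero_left] at this
      exact zero_ne_one this
    · have := hf.zn
      rw [h0, LA1_zero_right] at this
      exact zero_ne_one this
    · have := hf.ee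
      rw [h0, LA1_zero_left] at this
      exact zero_ne_one this
  have hBA : B.A := by
    refine ⟨fun x hx ha => ?_, fun x hx hb => ?_⟩
    · have hL := hB.Ln x hx
      rw [ha, zero_smul, add_zero] at hL
      rw [hB.u x hx]
      exact S.lemma_A hNC R (hBN hx).1 (hne0 x hx).2.1 (hB.frame x hx).nn hL
    · have hL := hB.Lz x hx
      rw [hb, zero_smul, add_zero] at hL
      rw [hB.v x hx]
      exact S.lemma_A hNC R (hBN hx).1 (hne0 x hx).1 (hB.frame x hx).zz hL
  have hNZ : B.NZ := by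
    intro x hx ha hb hu hv
    have hx0 := (hBN hx).1
    have hG := S.symm x hx0
    have hf := hB.frame x hx
    have hLz := hB.Lz x hx
    rw [hb, zero_smul, add_zero] at hLz
    have hLn := hB.Ln x hx
    rw [ha, zero_smul, add_zero] at hLn
    have hlam : S.lam x = B.k x • e x := by
      have h1 := hf.expand hG (S.lam x)
      have e1 : bil (S.G x) (S.lam x) (n x) = 0 := by rw [← hu, hB.u x hx]; rfl
      have e2 : bil (S.G x) (S.lam x) (z x) = 0 := by rw [← hv, hB.v x hx]; rfl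
      have e3 : bil (S.G x) (S.lam x) (e x) = B.k x := by rw [hB.k x hx]; rfl
      rw [e1, e2, e3, zero_smul, zero_smul, zero_add, zero_add] at h1
      exact h1
    obtain ⟨θ₁, h1⟩ := S.F1 hx0 (hne0 x hx).1 hLz
    obtain ⟨θ₂, h2⟩ := S.F1 hx0 (hne0 x hx).2.1 hLn
    have hzn0 : z x + n x ≠ 0 := by
      intro h0
      have h3 := hf.zn
      have h4 : n x = -z x := by rw [← sub_eq_zero, sub_neg_eq_add, add_comm]; exact h0
      have h5 := hf.zz
      rw [h4, ← neg_one_smul ℝ (z x), LA1_smul_right, h5, mul_zero] at h3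
      exact zero_ne_one h3
    have hLzn : S.L x *ᵥ (z x + n x) = B.s x • (z x + n x) := by
      rw [Matrix.mulVec_add, hLz, hLn, smul_add]
    obtain ⟨θ₃, h3⟩ := S.F1 hx0 hzn0 hLzn
    rw [Matrix.mulVec_add, h1, h2] at h3
    have hnz : bil (S.G x) (n x) (z x) = 1 := by rw [bil_symm hG]; exact hf.zn
    have e1 := congrArg (fun w => bil (S.G x) w (n x)) h3
    have e2 := congrArg (fun w => bil (S.G x) w (z x)) h3
    simp only [LA1_add_left, LA1_smul_left, hf.zn, hf.nn, hf.zz, hnz] at e1 e2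
    have hθ : θ₁ = θ₂ := by linarith
    subst hθ
    have hlsne : B.l x ≠ B.s x := by
      intro h0
      have h4 := B.P_pos x hx
      rw [h0, ha] at h4
      simp at h4
    have key := S.NZ_D hNC hx0 hf hlsne hLz hLn (hB.Le x hx) hlam h1 h2
    have htr := TB_trace S hx0 hf (S.Lam x)
    rw [hB.h x hx, htr, h1, h2, ha]
    unfold Geo.g
    rw [LA1_smul_left, LA1_smul_left, hf.zn, hnz]
    intro h0
    apply key
    have h5 : B.l x - B.s x ≠ 0 := sub_ne_zero.2 hlsne
    have h6 : B.k x ^ 2 * (B.l x - B.s x) / ((B.l x - B.s x) ^ 2 - 0 * B.b x) =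
        B.k x ^ 2 / (B.l x - B.s x) := by
      rw [zero_mul, sub_zero]
      field_simp
    rw [h6] at h0
    field_simp at h0
    linarith
  exact ⟨B, z, n, e, hqW', hB, hBA, hNZ, hBN, fun x hx =>
    ⟨hBl x hx, hs x hx, hh x hx, hX x hx, hXg x hx, hS2 x hx, hP3 x hx, hNn x hx⟩⟩

end Roots

end Pool.Agent.helper68.B2
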