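import Pool.Agent.helper68.B2.Defs3
import Pool.Agent.helper97.B2.T3a
import Pool.Agent.helper30.B2.LA2
import Pool.Agent.helper98.B2.GA

/-! # MP_b2b189_gt, b2:FR1: the far root -/

set_option autoImplicit false

namespace Pool.Agent.helper68.B2

open scoped ContDiff Topology Matrix
open Matrix Set Filter

variable {S : Geo}

theorem FR1_det_neg (A : M3) (t : ℝ) : (t • (1 : M3) - A).det = -(A - t • (1 : M3)).det := by
  have h : t • (1 : M3) - A = -(A - t • (1 : M3)) := by abel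
  rw [h, Matrix.det_neg]
  simp
  norm_num

theorem RR3_root {A : M3} {a b c r : ℝ} (h : RR3 A a b c) (hr : (A - r • (1 : M3)).det = 0) :
    r = a ∨ r = b ∨ r = c := by
  have h1 := h r
  rw [FR1_det_neg, hr, neg_zero] at h1
  rcases mul_eq_zero.1 h1.symm with h2 | h2
  · rcases mul_eq_zero.1 h2 with h3 | h3
    · exact Or.inl (sub_eq_zero.1 h3)
    · exact Or.inr (Or.inl (sub_eq_zero.1 h3))
  · exact Or.inr (Or.inr (sub_eq_zero.1 h2))

theorem RR3_trace {A : M3} {a b c : ℝ} (h : RR3 A a b c) : A.trace = a + b + c := by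
  have h1 : ∀ t : ℝ, -(A.det - t * A.adjugate.trace + t ^ 2 * A.trace - t ^ 3) =
      (t - a) * (t - b) * (t - c) := fun t => by
    rw [← h t, FR1_det_neg, T3a_det_expand]
  have e0 := h1 0
  have e1 := h1 1
  have e2 := h1 (-1)
  linarith

theorem RR3_adj {A : M3} {a b c : ℝ} (h : RR3 A a b c) :
    (A - a • (1 : M3)).adjugate.trace = (a - b) * (a - c) ∧ (A - a • (1 : M3)).det = 0 :=
  ⟨(LA2_trace h).2, (LA2_trace h).1⟩

theorem RR3_perm {A : M3} {a b c : ℝ} (h : RR3 A a b c) : RR3 A b a c ∧ RR3 A a c b :=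
  ⟨fun t => by rw [h t]; ring, fun t => by rw [h t]; ring⟩

namespace Roots
variable (R : Roots S)

theorem N_cone : OCone R.N where
  isOpen := by
    have h1 : ContinuousOn (fun x => |R.σ₁ x - R.τ x| - |R.σ₂ x - R.τ x|) {0}ᶜ :=
      ((R.c₁.sub R.cτ).abs).sub ((R.c₂.sub R.cτ).abs)
    have h2 := h1.isOpen_inter_preimage isOpen_compl_singleton (isOpen_compl_singleton (x := (0 : ℝ)))
    have h3 : R.N = {0}ᶜ ∩ (fun x => |R.σ₁ x - R.τ x| - |R.σ₂ x - R.τ x|) ⁻¹' {0}ᶜ := by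
      ext x
      simp only [N, mem_setOf_eq, mem_inter_iff, mem_compl_iff, mem_singleton_iff, mem_preimage,
        sub_eq_zero, ne_eq]
    rw [h3]
    exact h2
  zero := fun h => h.1 rfl
  smul := fun x hx t ht => by
    refine ⟨smul_ne_zero ht.ne' hx.1, ?_⟩
    rw [R.h₁ t ht, R.h₂ t ht, R.hτ t ht]
    exact hx.2

theorem S2_sub_N : R.S2 ⊆ R.N := by
  rintro x ⟨hx, h | h⟩
  · refine ⟨hx, ?_⟩
    rw [← h.1, sub_self, abs_zero]
    exact (abs_ne_zero.2 (sub_ne_zero.2 (Ne.symm h.2))).symm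
  · refine ⟨hx, ?_⟩
    rw [← h.1, sub_self, abs_zero]
    exact abs_ne_zero.2 (sub_ne_zero.2 (Ne.symm h.2))

theorem FR1_cases {x : E4} (hx : x ∈ R.N) :
    (|R.σ₁ x - R.τ x| < |R.σ₂ x - R.τ x| ∧ R.far x = R.σ₂ x) ∨
    (|R.σ₂ x - R.τ x| < |R.σ₁ x - R.τ x| ∧ R.far x = R.σ₁ x) := by
  rcases lt_or_gt_of_ne hx.2 with h | h
  · exact Or.inl ⟨h, if_pos h⟩
  · exact Or.inr ⟨h, if_neg (not_lt.2 h.le)⟩

theorem far_fac {x : E4} (hx : x ∈ R.N) :
    ∃ r : ℝ, RR3 (S.L x) (R.τ x) r (R.far x) ∧ |r - R.τ x| < |R.far x - R.τ x| := by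
  rcases R.FR1_cases hx with ⟨h1, h2⟩ | ⟨h1, h2⟩
  · exact ⟨R.σ₁ x, by rw [h2]; exact R.fac x hx.1, by rw [h2]; exact h1⟩
  · exact ⟨R.σ₂ x, by rw [h2]; exact (RR3_perm (R.fac x hx.1)).2, by rw [h2]; exact h1⟩

theorem far_S2 {x : E4} (hx : x ∈ R.N) :
    x ∈ R.S2 ↔ RR3 (S.L x) (R.τ x) (R.τ x) (R.far x) ∧ R.far x ≠ R.τ x := by
  have ht := RR3_trace (R.fac x hx.1)
  constructor
  · rintro ⟨-, h | h⟩
    · have h1 : |R.σ₁ x - R.τ x| < |R.σ₂ x - R.τ x| := by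
        rw [← h.1, sub_self, abs_zero]
        exact abs_pos.2 (sub_ne_zero.2 (Ne.symm h.2))
      have h2 : R.far x = R.σ₂ x := if_pos h1
      have h3 := R.fac x hx.1
      rw [← h.1] at h3
      rw [h2]
      exact ⟨h3, Ne.symm h.2⟩
    · have h1 : ¬ (|R.σ₁ x - R.τ x| < |R.σ₂ x - R.τ x|) := by
        rw [← h.1, sub_self, abs_zero]
        exact not_lt.2 (abs_nonneg _)
      have h2 : R.far x = R.σ₁ x := if_neg h1
      have h3 := (RR3_perm (R.fac x hx.1)).2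
      rw [← h.1] at h3
      rw [h2]
      exact ⟨h3, Ne.symm h.2⟩
  · rintro ⟨h, hne⟩
    have h1 := RR3_trace h
    refine ⟨hx.1, ?_⟩
    rcases R.FR1_cases hx with ⟨h2, h3⟩ | ⟨h2, h3⟩
    · left
      rw [h3] at h1 hne
      exact ⟨by linarith, Ne.symm hne⟩
    · right
      rw [h3] at h1 hne
      exact ⟨by linarith, Ne.symm hne⟩

theorem m_S2 {x : E4} (hx : x ∈ R.S2) : R.m x = R.τ x := by
  have h1 := RR3_trace ((R.far_S2 (R.S2_sub_N hx)).1 hx).1
  unfold m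
  rw [h1]
  ring

theorem Pi_pos {x : E4} (hx : x ∈ R.N) : 0 < R.Pi x := by
  obtain ⟨r, h1, h2⟩ := R.far_fac hx
  have h3 : RR3 (S.L x) (R.far x) (R.τ x) r := fun t => by rw [h1 t]; ring
  unfold Pi
  rw [(RR3_adj h3).1]
  have h4 : (R.far x - R.τ x) * (r - R.τ x) < |R.far x - R.τ x| ^ 2 := by
    have h5 : (R.far x - R.τ x) * (r - R.τ x) ≤ |R.far x - R.τ x| * |r - R.τ x| := by
      rw [← abs_mul]; exact le_abs_self _
    have h6 : 0 < |R.far x - R.τ x| := lt_of_le_of_lt (abs_nonneg _) h2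
    nlinarith
  rw [sq_abs] at h4
  nlinarith

theorem hom_far : Hom R.far := by
  intro t ht x
  unfold far
  rw [R.h₁ t ht, R.h₂ t ht, R.hτ t ht]

theorem FR1_hom_m : Hom R.m := by
  intro t ht x
  unfold m
  rw [S.homL t ht, R.hom_far t ht]

theorem FR1_hom_Pi : Hom R.Pi := by
  intro t ht x
  unfold Pi
  rw [S.homL t ht, R.hom_far t ht]

theorem FR1_hom_P3 : Hom R.P3 := by
  intro t ht x
  unfold P3
  rw [S.homL t ht, R.hom_far t ht, R.FR1_hom_Pi t ht]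

theorem hom_X : Hom R.X := by
  intro t ht x
  unfold X
  rw [S.homlam t ht, R.FR1_hom_P3 t ht]

theorem hom_h : Hom R.h := by
  intro t ht x
  unfold h Geo.g
  rw [S.hom_Lam t ht, R.FR1_hom_P3 t ht, S.homlam t ht, R.hom_far t ht, R.FR1_hom_m t ht,
    R.FR1_hom_Pi t ht, S.homG t ht]

theorem hom_Nn : Hom R.Nn := by
  intro t ht x
  unfold Nn
  rw [S.homL t ht, R.FR1_hom_P3 t ht, R.hom_far t ht, R.FR1_hom_m t ht]

theorem FR1_cont_far : ContinuousOn R.far R.N := by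
  intro x hx
  have hN := R.N_cone.isOpen.mem_nhds hx
  have c1 : ContinuousAt R.σ₁ x := R.c₁.continuousAt (isOpen_compl_singleton.mem_nhds hx.1)
  have c2 : ContinuousAt R.σ₂ x := R.c₂.continuousAt (isOpen_compl_singleton.mem_nhds hx.1)
  have c3 : ContinuousAt R.τ x := R.cτ.continuousAt (isOpen_compl_singleton.mem_nhds hx.1)
  apply ContinuousAt.continuousWithinAt
  rcases R.FR1_cases hx with ⟨h1, h2⟩ | ⟨h1, h2⟩
  · have h3 : ∀ᶠ y in 𝓝 x, |R.σ₁ y - R.τ y| < |R.σ₂ y - R.τ y| :=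
      ((c1.sub c3).abs).eventually_lt ((c2.sub c3).abs) h1
    have h4 : R.far =ᶠ[𝓝 x] R.σ₂ := h3.mono fun y hy => if_pos hy
    exact c2.congr h4.symm
  · have h3 : ∀ᶠ y in 𝓝 x, |R.σ₂ y - R.τ y| < |R.σ₁ y - R.τ y| :=
      ((c2.sub c3).abs).eventually_lt ((c1.sub c3).abs) h1
    have h4 : R.far =ᶠ[𝓝 x] R.σ₁ := h3.mono fun y hy => if_neg (not_lt.2 (le_of_lt hy))
    exact c1.congr h4.symm

theorem FR1_det {x : E4} (hx : x ∈ R.N) : (S.L x - R.far x • (1 : M3)).det = 0 := by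
  obtain ⟨r, h1, -⟩ := R.far_fac hx
  have h3 : RR3 (S.L x) (R.far x) (R.τ x) r := fun t => by rw [h1 t]; ring
  exact (RR3_adj h3).2

theorem smN {x : E4} (hx : x ∈ R.N) : ContDiffAt ℝ ∞ R.far x ∧ ContDiffAt ℝ ∞ R.m x ∧
    ContDiffAt ℝ ∞ R.Pi x ∧ ContDiffAt ℝ ∞ R.P3 x ∧ ContDiffAt ℝ ∞ R.X x ∧
    ContDiffAt ℝ ∞ R.Nn x ∧ ContDiffAt ℝ ∞ R.h x ∧ ContDiffAt ℝ ∞ R.Xg x := by
  have hfar : ContDiffAt ℝ ∞ R.far x :=
    (T3_smooth S R.N_cone.isOpen R.N_cone.zero R.FR1_cont_far (fun y hy => R.FR1_det hy)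
      (fun y hy => (R.Pi_pos hy).ne')).contDiffAt (R.N_cone.isOpen.mem_nhds hx)
  have cL : ContDiffAt ℝ ∞ S.L x := S.smL.contDiffAt hx.1
  have cG : ContDiffAt ℝ ∞ S.G x := S.smG.contDiffAt hx.1
  have clam : ContDiffAt ℝ ∞ S.lam x := S.smlam.contDiffAt hx.1
  have cLam : ContDiffAt ℝ ∞ S.Lam x := S.sm_Lam.contDiffAt hx.1
  have hm : ContDiffAt ℝ ∞ R.m x := ((contDiffAt_trace cL).sub hfar).div_const 2
  have hLf : ContDiffAt ℝ ∞ (fun y => S.L y - R.far y • (1 : M3)) x :=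
    cL.sub (hfar.smul contDiffAt_const)
  have hadj := contDiffAt_adjugate hLf
  have hPi : ContDiffAt ℝ ∞ R.Pi x := contDiffAt_trace hadj
  have hP3 : ContDiffAt ℝ ∞ R.P3 x := (hPi.inv (R.Pi_pos hx).ne').smul hadj
  have hX : ContDiffAt ℝ ∞ R.X x := clam.sub (contDiffAt_mulVec hP3 clam)
  have hNn : ContDiffAt ℝ ∞ R.Nn x :=
    (cL.sub (hm.smul contDiffAt_const)).sub ((hfar.sub hm).smul hP3)
  have hh : ContDiffAt ℝ ∞ R.h x := by
    have h1 : ContDiffAt ℝ ∞ (fun y => R.P3 y * S.Lam y) x :=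
      B0b_contDiffAt_bilin B0b_bil_mul hP3 cLam
    exact (((contDiffAt_trace cLam).sub (contDiffAt_trace h1)).div_const 2).sub
      (((contDiffAt_bil cG (contDiffAt_mulVec hP3 clam) clam).mul (hfar.sub hm)).div hPi
        (R.Pi_pos hx).ne')
  refine ⟨hfar, hm, hPi, hP3, hX, hNn, hh, ?_⟩
  unfold Xg fld
  refine ContDiffAt.sum fun i _ => ?_
  exact ((contDiffAt_pi.1 hX) i).smul (J i).contDiff.contDiffAt

/-- the far eigenvector is spacelike -/
theorem far_space {x : E4} (hx : x ∈ R.N) :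
    ∃ e : V3, S.g x e e = 1 ∧ S.L x *ᵥ e = R.far x • e ∧ R.P3 x = vecMulVec e (S.G x *ᵥ e) := by
  have hl : Lor (S.G x) := ⟨S.symm x hx.1, S.det_neg x hx.1, S.pos x hx.1⟩
  have hA : SA (S.G x) (S.L x) := S.selfadj x hx.1
  have hA' := LA2_sa hl.symm hA (R.far x)
  obtain ⟨s, w, hs, -, hadj, hw, htr⟩ := LA_adj_root hl hA' (R.FR1_det hx)
  have hLw : S.L x *ᵥ w = R.far x • w := by
    rw [Matrix.sub_mulVec, Matrix.smul_mulVec, Matrix.one_mulVec, sub_eq_zero] at hw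
    exact hw
  have hPi := R.Pi_pos hx
  have hPi' : s * bil (S.G x) w w = R.Pi x := htr
  have hw0 : w ≠ 0 := by
    rintro rfl
    rw [LA1_zero_left, mul_zero] at hPi'
    linarith
  have hpos : 0 < bil (S.G x) w w := by
    by_contra hcon
    push Not at hcon
    obtain ⟨w', hw'0, hw', hc'⟩ := R.causal x hx.1
    have h1 := LA_causal_unique hl hA hw0 hw'0 hLw hw' hcon hc'
    obtain ⟨r, -, h2⟩ := R.far_fac hx
    rw [h1, sub_self, abs_zero] at h2
    exact absurd h2 (not_lt.2 (abs_nonneg _))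
  have hs1 : s = 1 := by
    rcases hs with h | h
    · exact h
    · rw [h] at hPi'
      linarith
  rw [hs1, one_mul] at hPi'
  set k : ℝ := (Real.sqrt (bil (S.G x) w w))⁻¹ with hk
  have hk2 : k * k = (R.Pi x)⁻¹ := by
    rw [hk, ← hPi', ← mul_inv, Real.mul_self_sqrt hpos.le]
  refine ⟨k • w, LA1_unit hpos, ?_, ?_⟩
  · rw [Matrix.mulVec_smul, hLw, smul_comm]
  · unfold P3
    rw [hadj, hs1, one_smul, Matrix.mulVec_smul, Matrix.smul_vecMulVec, Matrix.vecMulVec_smul,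
      smul_smul, hk2]

/-- limits of points of `S2` with fixed different eigenvalues -/
theorem Gs_closed {c b h₀ : ℝ} (hcb : b ≠ c) {x : E4} (hx : x ≠ 0)
    (hcl : x ∈ closure (R.Gs c b h₀)) : x ∈ R.Gs c b h₀ := by
  obtain ⟨y, hy, hyx⟩ := mem_closure_iff_seq_limit.1 hcl
  have cL : ContinuousAt S.L x := (S.smL.contDiffAt hx).continuousAt
  have cτ : ContinuousAt R.τ x := R.cτ.continuousAt (isOpen_compl_singleton.mem_nhds hx)
  have hτ : R.τ x = c := by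
    refine tendsto_nhds_unique (cτ.tendsto.comp hyx) ?_
    refine tendsto_const_nhds.congr fun n => ?_
    exact (hy n).2.1.symm
  have hRR : RR3 (S.L x) c c b := by
    intro t
    have h1 : Tendsto (fun n => (t • (1 : M3) - S.L (y n)).det) atTop
        (𝓝 ((t • (1 : M3) - S.L x).det)) := by
      have h2 : Continuous fun A : M3 => (t • (1 : M3) - A).det :=
        (continuous_const.sub continuous_id).matrix_det
      exact (h2.tendsto (S.L x)).comp (cL.tendsto.comp hyx)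
    refine tendsto_nhds_unique h1 ?_
    refine tendsto_const_nhds.congr fun n => ?_
    have h3 := (R.far_S2 (R.S2_sub_N (hy n).1)).1 (hy n).1
    rw [h3.1 t, (hy n).2.1, (hy n).2.2.1]
  have hdet : (S.L x - b • (1 : M3)).det = 0 := by
    have h3 : RR3 (S.L x) b c c := fun t => by rw [hRR t]; ring
    exact (RR3_adj h3).2
  have htr := RR3_trace hRR
  have htr' := RR3_trace (R.fac x hx)
  have hS2 : x ∈ R.S2 := by
    refine ⟨hx, ?_⟩
    rcases RR3_root (R.fac x hx) hdet with h | h | h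
    · exact absurd (h.trans hτ) hcb
    · right
      refine ⟨by linarith, ?_⟩
      rw [← h, hτ]
      exact Ne.symm hcb
    · left
      refine ⟨by linarith, ?_⟩
      rw [← h, hτ]
      exact Ne.symm hcb
  have hN := R.S2_sub_N hS2
  have hfar : R.far x = b := by
    have h1 := RR3_trace ((R.far_S2 hN).1 hS2).1
    rw [hτ] at h1
    linarith
  obtain ⟨-, -, -, -, cX, cN, ch, -⟩ := R.smN hN
  have cG : ContinuousAt S.G x := (S.smG.contDiffAt hx).continuousAt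
  refine ⟨hS2, hτ, hfar, ?_, ?_⟩
  · refine tendsto_nhds_unique (ch.continuousAt.tendsto.comp hyx) ?_
    refine tendsto_const_nhds.congr fun n => ?_
    exact (hy n).2.2.2.1.symm
  · have h1 : ContinuousAt (fun z => h₀ • R.Nn z) x := cN.continuousAt.const_smul h₀
    have h2 : ContinuousAt (fun z => vecMulVec (R.X z) (S.G z *ᵥ R.X z)) x :=
      (contDiffAt_vecMulVec cX (contDiffAt_mulVec (S.smG.contDiffAt hx) cX)).continuousAt
    refine tendsto_nhds_unique (h1.tendsto.comp hyx) ?_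
    refine (h2.tendsto.comp hyx).congr fun n => ?_
    exact (hy n).2.2.2.2.symm

theorem Gs_cone {c b h₀ : ℝ} {x : E4} (hx : x ∈ R.Gs c b h₀) {t : ℝ} (ht : 0 < t) :
    t • x ∈ R.Gs c b h₀ := by
  obtain ⟨⟨h0, h1⟩, h2, h3, h4, h5⟩ := hx
  refine ⟨⟨smul_ne_zero ht.ne' h0, ?_⟩, ?_, ?_, ?_, ?_⟩
  · rw [R.hτ t ht, R.h₁ t ht, R.h₂ t ht]
    exact h1
  · rw [R.hτ t ht]; exact h2
  · rw [R.hom_far t ht]; exact h3
  · rw [R.hom_h t ht]; exact h4
  · rw [R.hom_Nn t ht, R.hom_X t ht, S.homG t ht]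
    exact h5

end Roots

end Pool.Agent.helper68.B2
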