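import Pool.Agent.helper49.B2.FR2
import Pool.Agent.helper92.B2.BR

/-! # MP_b2b189_gt, b2:LR: Lemma R -/

set_option autoImplicit false

namespace Pool.Agent.helper68.B2

open scoped ContDiff Topology Matrix
open Matrix Set Filter
open Pool.Agent.helper25.B2 (Sol Block)
open Pool.Agent.helper25.B2.Block

variable {S : Geo}

namespace Roots
variable (R : Roots S)

/-- points of `S2` with `h = 0` and prescribed eigenvalues -/
def LR_Q (c b : ℝ) : Set E4 := {y | y ∈ R.S2 ∧ R.τ y = c ∧ R.far y = b ∧ R.h y = 0}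

/-- the test function -/
noncomputable def LR_f (y : E4) : ℝ := (R.X y ⬝ᵥ R.X y) / |(R.Nn y * (S.G y)⁻¹).trace|

theorem LR_dot_pos {z : V3} (hz : z ≠ 0) : 0 < z ⬝ᵥ z := by
  have h1 : 0 ≤ z ⬝ᵥ z := Finset.sum_nonneg fun i _ => mul_self_nonneg (z i)
  exact lt_of_le_of_ne h1 fun h => hz (dotProduct_self_eq_zero.1 h.symm)

theorem LR_point {y : E4} (hy : y ≠ 0) {z : V3} {a u : ℝ} (hX : R.X y = u • z)
    (hN : R.Nn y = a • vecMulVec z (S.G y *ᵥ z)) :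
    (R.Nn y * (S.G y)⁻¹).trace = a * (z ⬝ᵥ z) ∧ R.X y ⬝ᵥ R.X y = u ^ 2 * (z ⬝ᵥ z) := by
  have hu := isUnit_iff_ne_zero.2 (S.det_neg y hy).ne
  constructor
  · rw [hN, Matrix.smul_mul, Matrix.trace_smul, Matrix.trace_mul_comm, GA_mul_vecMulVec,
      GA_trace_vecMulVec, smul_eq_mul]
    have h1 : ((S.G y)⁻¹)ᵀ = (S.G y)⁻¹ := by
      rw [Matrix.transpose_nonsing_inv, S.symm y hy]
    have h2 : ((S.G y)⁻¹ *ᵥ z) ⬝ᵥ (S.G y *ᵥ z) = z ⬝ᵥ z := by
      rw [Matrix.dotProduct_mulVec, ← Matrix.mulVec_transpose, S.symm y hy, Matrix.mulVec_mulVec,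
        Matrix.mul_nonsing_inv _ hu, Matrix.one_mulVec]
    rw [h2]
  · rw [hX, smul_dotProduct, dotProduct_smul, smul_eq_mul, smul_eq_mul]
    ring

theorem LR_point_f {y : E4} (hy : y ≠ 0) {z : V3} (hz : z ≠ 0) {a u : ℝ} (ha : a ≠ 0)
    (hX : R.X y = u • z) (hN : R.Nn y = a • vecMulVec z (S.G y *ᵥ z)) :
    R.LR_f y = u ^ 2 / |a| := by
  obtain ⟨h1, h2⟩ := R.LR_point hy hX hN
  have h3 := LR_dot_pos hz
  unfold LR_f
  rw [h1, h2, abs_mul, abs_of_pos h3]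
  have h4 : |a| ≠ 0 := abs_ne_zero.2 ha
  field_simp

/-- the points near a point of `S2` are described by a block with `b = 0` at the centre -/
theorem LR_block (hNC : S.NC) {q : E4} (hq : q ∈ R.S2) (hh : R.h q = 0) :
    ∃ (B : Block E4) (z : E4 → V3), q ∈ B.W ∧ B.A ∧ B.b q = 0 ∧ B.a q ≠ 0 ∧ B.W ⊆ R.N ∧
      ∀ x ∈ B.W, z x ≠ 0 ∧ B.l x = R.far x ∧ B.s x = R.m x ∧ B.h x = R.h x ∧
        (B.b x = 0 → x ∈ R.S2 ∧ R.X x = B.u x • z x ∧
          R.Nn x = B.a x • vecMulVec (z x) (S.G x *ᵥ z x) ∧ (R.h x = 0 → B.a x ≠ 0)) := by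
  obtain ⟨B, z, n, e, hqW, hB, hA, hNZ, hWN, H⟩ := R.block_at hNC hq
  have hne0 : ∀ x ∈ B.W, z x ≠ 0 ∧ n x ≠ 0 := by
    intro x hx
    have hf := hB.frame x hx
    refine ⟨fun h0 => ?_, fun h0 => ?_⟩
    · have := hf.zn
      rw [h0, LA1_zero_left] at this
      exact zero_ne_one this
    · have := hf.zn
      rw [h0, LA1_zero_right] at this
      exact zero_ne_one this
  have hab : ∀ x ∈ B.W, R.h x = 0 → ¬ (B.a x = 0 ∧ B.b x = 0) := by
    rintro x hx h0 ⟨ha, hb⟩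
    have h1 := hNZ x hx ha hb (hA.1 x hx ha) (hA.2 x hx hb)
    rw [(H x hx).2.2.1] at h1
    exact h1 h0
  have hq0 : B.a q * B.b q = 0 := (H q hqW).2.2.2.2.2.1.1 hq
  rcases mul_eq_zero.1 hq0 with ha | hb
  · -- swap
    refine ⟨B.swap, n, hqW, ⟨hA.2, hA.1⟩, ha, fun h => hab q hqW hh ⟨ha, h⟩, hWN, fun x hx => ?_⟩
    obtain ⟨h1, h2, h3, h4, -, h5, -, h6⟩ := H x hx
    refine ⟨(hne0 x hx).2, h1, h2, h3, fun hb => ?_⟩
    have hb' : B.a x = 0 := hb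
    refine ⟨h5.2 (by rw [hb', zero_mul]), ?_, ?_, fun h0 h => hab x hx h0 ⟨hb', h⟩⟩
    · rw [h4, hA.1 x hx hb', zero_smul, zero_add]
      rfl
    · rw [h6, hb', zero_smul, zero_add]
      rfl
  · refine ⟨B, z, hqW, hA, hb, fun h => hab q hqW hh ⟨h, hb⟩, hWN, fun x hx => ?_⟩
    obtain ⟨h1, h2, h3, h4, -, h5, -, h6⟩ := H x hx
    refine ⟨(hne0 x hx).1, h1, h2, h3, fun hb => ?_⟩
    refine ⟨h5.2 (by rw [hb, mul_zero]), ?_, ?_, fun h0 h => hab x hx h0 ⟨h, hb⟩⟩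
    · rw [h4, hA.2 x hx hb, zero_smul, add_zero]
    · rw [h6, hb, zero_smul, add_zero]

theorem LR_closed {c b : ℝ} (hcb : b ≠ c) {x : E4} (hx : x ≠ 0)
    (hcl : x ∈ closure (R.LR_Q c b)) : x ∈ R.LR_Q c b := by
  obtain ⟨y, hy, hyx⟩ := mem_closure_iff_seq_limit.1 hcl
  have cL : ContinuousAt S.L x := (S.smL.contDiffAt hx).continuousAt
  have cτ : ContinuousAt R.τ x := R.cτ.continuousAt (isOpen_compl_singleton.mem_nhds hx)
  have hτ : R.τ x = c := by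
    refine tendsto_nhds_unique (cτ.tendsto.comp hyx) ?_
    refine tendsto_const_nhds.congr fun n => ?_
    exact (hy n).2.1.symm
  have hRR : RR3 (S.L x) c c b := by
    intro t
    have h1 : Tendsto (fun n => (t • (1 : M3) - S.L (y n)).det) atTop
        (𝓝 ((t • (1 : M3) - S.L x).det)) := by
      have h2 : Continuous fun A : M3 => (t • (1 : M3) - A).det :=
        (continuous_const.sub continuous_id).matrix_det
      exact (h2.tendsto (S.L x)).comp (cL.tendsto.comp hyx)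
    refine tendsto_nhds_unique h1 ?_
    refine tendsto_const_nhds.congr fun n => ?_
    have h3 := (R.far_S2 (R.S2_sub_N (hy n).1)).1 (hy n).1
    rw [h3.1 t, (hy n).2.1, (hy n).2.2.1]
  have hdet : (S.L x - b • (1 : M3)).det = 0 := by
    have h3 : RR3 (S.L x) b c c := fun t => by rw [hRR t]; ring
    exact (RR3_adj h3).2
  have htr := RR3_trace hRR
  have htr' := RR3_trace (R.fac x hx)
  have hS2 : x ∈ R.S2 := by
    refine ⟨hx, ?_⟩
    rcases RR3_root (R.fac x hx) hdet with h | h | h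
    · exact absurd (h.trans hτ) hcb
    · right
      refine ⟨by linarith, ?_⟩
      rw [← h, hτ]
      exact Ne.symm hcb
    · left
      refine ⟨by linarith, ?_⟩
      rw [← h, hτ]
      exact Ne.symm hcb
  have hN := R.S2_sub_N hS2
  have hfar : R.far x = b := by
    have h1 := RR3_trace ((R.far_S2 hN).1 hS2).1
    rw [hτ] at h1
    linarith
  obtain ⟨-, -, -, -, -, -, ch, -⟩ := R.smN hN
  refine ⟨hS2, hτ, hfar, ?_⟩
  refine tendsto_nhds_unique (ch.continuousAt.tendsto.comp hyx) ?_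
  refine tendsto_const_nhds.congr fun n => ?_
  exact (hy n).2.2.2.symm

/-- Lemma R -/
theorem lemma_R (hNC : S.NC) {x : E4} (hx : x ∈ R.S2) (hh : R.h x = 0) : R.X x = 0 := by
  have hfx := ((R.far_S2 (R.S2_sub_N hx)).1 hx).2
  set Q := R.LR_Q (R.τ x) (R.far x) with hQ
  have hxQ : x ∈ Q := ⟨hx, rfl, rfl, hh⟩
  have htr : ∀ y ∈ Q, (R.Nn y * (S.G y)⁻¹).trace ≠ 0 := by
    rintro y ⟨hy, -, -, hhy⟩
    obtain ⟨B, z, hyW, -, hb, ha, -, H⟩ := R.LR_block hNC hy hhy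
    obtain ⟨hz, -, -, -, h1⟩ := H y hyW
    obtain ⟨-, h2, h3, -⟩ := h1 hb
    rw [(R.LR_point hy.1 h2 h3).1]
    exact mul_ne_zero ha (LR_dot_pos hz).ne'
  have hcont : ContinuousOn R.LR_f Q := by
    intro y hy
    have hN := R.S2_sub_N hy.1
    obtain ⟨-, -, -, -, cX, cN, -, -⟩ := R.smN hN
    have cG := contDiffAt_inv (S.smG.contDiffAt hN.1) (S.det_neg y hN.1).ne
    have h1 : ContDiffAt ℝ ∞ (fun y => R.Nn y * (S.G y)⁻¹) y := B0b_contDiffAt_bilin B0b_bil_mul cN cG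
    have h2 := (contDiffAt_trace h1).continuousAt
    have h3 := (contDiffAt_dotProduct cX cX).continuousAt
    exact (h3.div h2.abs (abs_ne_zero.2 (htr y hy))).continuousWithinAt
  obtain ⟨q, hqQ, hmax⟩ := exists_max_cone Q (fun y hy => hy.1.1)
    (fun y hy hcl => R.LR_closed hfx hy hcl)
    (fun y hy t ht => by
      obtain ⟨⟨h0, h1⟩, h2, h3, h4⟩ := hy
      refine ⟨⟨smul_ne_zero ht.ne' h0, ?_⟩, ?_, ?_, ?_⟩
      · rw [R.hτ t ht, R.h₁ t ht, R.h₂ t ht]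
        exact h1
      · rw [R.hτ t ht]; exact h2
      · rw [R.hom_far t ht]; exact h3
      · rw [R.hom_h t ht]; exact h4)
    ⟨x, hxQ⟩ R.LR_f hcont
    (fun y hy t ht => by
      unfold LR_f
      rw [R.hom_X t ht, R.hom_Nn t ht, S.homG t ht])
  have hfq : R.LR_f q = 0 := by
    obtain ⟨B, z, hqW, hA, hb, ha, hWN, H⟩ := R.LR_block hNC hqQ.1 hqQ.2.2.2
    obtain ⟨hz, hl, hs, hBh, h1⟩ := H q hqW
    obtain ⟨-, h2, h3, -⟩ := h1 hb
    have hu : B.u q = 0 := by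
      refine block_R B hA hqW hb ha (by rw [hBh]; exact hqQ.2.2.2) ?_
      filter_upwards [B.isOpen_W.mem_nhds hqW] with y hyW hyb hyh hys hyl
      obtain ⟨hz', hl', hs', hBh', h1'⟩ := H y hyW
      obtain ⟨h0', h2', h3', h4'⟩ := h1' hyb
      have hyh' : R.h y = 0 := by rw [← hBh']; exact hyh
      have hya := h4' hyh'
      have hyQ : y ∈ Q := by
        refine ⟨h0', ?_, ?_, hyh'⟩
        · rw [← R.m_S2 h0', ← hs', hys, hs, R.m_S2 hqQ.1]
          exact hqQ.2.1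
        · rw [← hl', hyl, hl]
          exact hqQ.2.2.1
      have h5 := hmax y hyQ
      rw [R.LR_point_f h0'.1 hz' hya h2' h3', R.LR_point_f hqQ.1.1 hz ha h2 h3] at h5
      rwa [div_le_div_iff₀ (abs_pos.2 hya) (abs_pos.2 ha)] at h5
    rw [R.LR_point_f hqQ.1.1 hz ha h2 h3, hu]
    simp
  have hfx0 : R.LR_f x ≤ 0 := hfq ▸ hmax x hxQ
  by_contra hX
  have h1 : 0 < R.LR_f x := by
    unfold LR_f
    exact div_pos (LR_dot_pos hX) (abs_pos.2 (htr x hxQ))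
  linarith

end Roots

end Pool.Agent.helper68.B2
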