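import Pool.Agent.helper98.B2.B0b

/-! # MP_b2b189_gt, b2:STb: Levi-Civita connection in the frame -/

set_option autoImplicit false

namespace Pool.Agent.helper68.B2

open scoped ContDiff Topology Matrix
open Matrix Set

theorem BRb_unique (G0 : M3) (hs : G0ᵀ = G0) (hd : G0.det ≠ 0) (D : Fin 3 → M3)
    (hm : ∀ i, (D i)ᵀ * G0 + G0 * D i = 0) (ht : ∀ i j k, D i k j = D j k i) :
    ∀ i, D i = 0 := by
  have hanti : ∀ i k j, (G0 * D i) k j = -(G0 * D i) j k := by
    intro i k j
    have h1 := congrFun (congrFun (hm i) j) k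
    have h2 : (D i)ᵀ * G0 = (G0 * D i)ᵀ := by rw [Matrix.transpose_mul, hs]
    rw [h2] at h1
    simp only [Matrix.add_apply, Matrix.transpose_apply, Matrix.zero_apply] at h1
    linarith
  have hsym : ∀ i k j, (G0 * D i) k j = (G0 * D j) k i := by
    intro i k j
    simp only [Matrix.mul_apply]
    exact Finset.sum_congr rfl fun l _ => by rw [ht i j l]
  have hz : ∀ i, G0 * D i = 0 := by
    intro i
    ext k j
    have h1 := hanti i k j
    have h2 := hsym i j k
    have h3 := hanti k j i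
    have h4 := hsym k i j
    have h5 := hanti j i k
    have h6 := hsym j k i
    simp only [Matrix.zero_apply]
    linarith
  intro i
  have h1 : G0⁻¹ * (G0 * D i) = D i := Matrix.nonsing_inv_mul_cancel_left _ _ (isUnit_iff_ne_zero.2 hd)
  rw [← h1, hz i, mul_zero]

theorem STb_fld_smul (v : V3) (t : ℝ) (x : E4) : fld v (t • x) = t • fld v x := by
  simp only [fld, map_smul, Finset.smul_sum]
  exact Finset.sum_congr rfl fun i _ => smul_comm _ _ _

theorem STb_HomDv {F : Type*} [NormedAddCommGroup F] [NormedSpace ℝ F] {f : E4 → F} (h : Hom f)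
    (v : V3) : Hom (fun x => Dv f v x) := by
  intro t ht x
  have h1 : (fun y => f (t • y)) = f := funext fun y => h t ht y
  have h2 : fderiv ℝ f x = t • fderiv ℝ f (t • x) := by
    conv_lhs => rw [← h1]
    exact fderiv_comp_smul t
  simp only [Dv, STb_fld_smul, map_smul]
  rw [h2]
  simp

theorem STb_fld_contDiff (v : V3) : ContDiff ℝ ∞ (fld v) := by
  unfold fld
  fun_prop

theorem STb_SmDv {F : Type*} [NormedAddCommGroup F] [NormedSpace ℝ F] {f : E4 → F} (h : Sm f)
    (v : V3) : Sm (fun x => Dv f v x) := by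
  intro x hx
  have h1 : ContDiffAt ℝ ∞ f x := h.contDiffAt (isOpen_compl_singleton.mem_nhds hx)
  have h2 : ContDiffAt ℝ ∞ (fderiv ℝ f) x := h1.fderiv_right (by simp)
  exact (h2.clm_apply (STb_fld_contDiff v).contDiffAt).contDiffWithinAt

theorem STb_eps (i j k : Fin 3) : eps i j k = -eps j i k := by
  fin_cases i <;> fin_cases j <;> fin_cases k <;> simp [eps]

/-- lowered bracket -/
noncomputable def STb_c (G : M3) (i j l : Fin 3) : ℝ := 2 * ∑ m, eps i j m * G m l

theorem STb_c_anti (G : M3) (i j l : Fin 3) : STb_c G i j l = -STb_c G j i l := by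
  simp only [STb_c]
  rw [← mul_neg, ← Finset.sum_neg_distrib]
  congr 1
  exact Finset.sum_congr rfl fun m _ => by rw [STb_eps i j m]; ring

/-- lowered Christoffel symbols -/
noncomputable def STb_B (G : M3) (DG : Fin 3 → M3) (i : Fin 3) : M3 := Matrix.of fun l j =>
  (1 / 2 : ℝ) * (DG i j l + DG j i l - DG l i j + STb_c G i j l - STb_c G j l i + STb_c G l i j)

/-- b2:BRb  Levi-Civita connection in the frame -/
theorem BRb (G : E4 → M3) (hG : Sm G) (hH : Hom G)
    (hs : ∀ x, x ≠ 0 → (G x)ᵀ = G x ∧ (G x).det ≠ 0) :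
    ∃ Γ : Fin 3 → E4 → M3, (∀ i, Sm (Γ i)) ∧ (∀ i, Hom (Γ i)) ∧
      (∀ x, x ≠ 0 → ∀ i, Dv G (ee i) x = (Γ i x)ᵀ * G x + G x * Γ i x) ∧
      (∀ x, x ≠ 0 → ∀ i j k, Γ i x k j - Γ j x k i = 2 * eps i j k) := by
  refine ⟨fun i x => (G x)⁻¹ * STb_B (G x) (fun i => Dv G (ee i) x) i, ?_, ?_, ?_, ?_⟩
  · intro i x hx
    have hx' : x ≠ 0 := hx
    have h1 : ContDiffAt ℝ ∞ G x := hG.contDiffAt (isOpen_compl_singleton.mem_nhds hx)
    have h2 : ContDiffAt ℝ ∞ (fun y => (G y)⁻¹) x := contDiffAt_inv h1 (hs x hx').2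
    have h3 : ContDiffAt ℝ ∞ (fun y => STb_B (G y) (fun i => Dv G (ee i) y) i) x := by
      rw [contDiffAt_entries]
      intro l j
      have e1 : ∀ a b : Fin 3, ContDiffAt ℝ ∞ (fun y => G y a b) x := fun a b => contDiffAt_entries.1 h1 a b
      have e2 : ∀ c a b : Fin 3, ContDiffAt ℝ ∞ (fun y => Dv G (ee c) y a b) x := fun c a b =>
        contDiffAt_entries.1 ((STb_SmDv hG (ee c)).contDiffAt (isOpen_compl_singleton.mem_nhds hx)) a b
      have e3 : ∀ a b c : Fin 3, ContDiffAt ℝ ∞ (fun y => STb_c (G y) a b c) x := by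
        intro a b c
        unfold STb_c
        exact contDiffAt_const.mul (ContDiffAt.sum fun m _ => contDiffAt_const.mul (e1 m c))
      simp only [STb_B, Matrix.of_apply]
      exact contDiffAt_const.mul ((((((e2 i j l).add (e2 j i l)).sub (e2 l i j)).add (e3 i j l)).sub
        (e3 j l i)).add (e3 l i j))
    have h4 : ContDiffAt ℝ ∞ (fun y => (G y)⁻¹ * STb_B (G y) (fun i => Dv G (ee i) y) i) x :=
      h2.mul h3
    exact h4.contDiffWithinAt
  · intro i t ht x
    have h1 : (fun i => Dv G (ee i) (t • x)) = fun i => Dv G (ee i) x :=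
      funext fun i => STb_HomDv hH (ee i) t ht x
    simp only [h1, hH t ht x]
  · intro x hx i
    obtain ⟨hsym, hdet⟩ := hs x hx
    have hu := isUnit_iff_ne_zero.2 hdet
    have hDG : ∀ i a b, Dv G (ee i) x a b = Dv G (ee i) x b a := by
      intro i a b
      have h1 : ContDiffAt ℝ ∞ G x := hG.contDiffAt (isOpen_compl_singleton.mem_nhds hx)
      have h2 := Dv_transpose (A := G) (v := ee i) (x := x) (h1.differentiableAt (by simp))
      have h3 : (fun y => (G y)ᵀ) =ᶠ[𝓝 x] G := by
        filter_upwards [isOpen_compl_singleton.mem_nhds hx] with y hy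
        exact (hs y hy).1
      have h4 : Dv (fun y => (G y)ᵀ) (ee i) x = Dv G (ee i) x := B0b_Dv_congr h3
      rw [h4] at h2
      conv_lhs => rw [h2]
      rfl
    have e1 : G x * ((G x)⁻¹ * STb_B (G x) (fun i => Dv G (ee i) x) i) =
        STb_B (G x) (fun i => Dv G (ee i) x) i := Matrix.mul_nonsing_inv_cancel_left _ _ hu
    have e2 : ((G x)⁻¹ * STb_B (G x) (fun i => Dv G (ee i) x) i)ᵀ * G x =
        (STb_B (G x) (fun i => Dv G (ee i) x) i)ᵀ := by
      rw [Matrix.transpose_mul, Matrix.transpose_nonsing_inv, hsym]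
      exact Matrix.nonsing_inv_mul_cancel_right _ _ hu
    show Dv G (ee i) x = ((G x)⁻¹ * STb_B (G x) (fun i => Dv G (ee i) x) i)ᵀ * G x +
      G x * ((G x)⁻¹ * STb_B (G x) (fun i => Dv G (ee i) x) i)
    rw [e1, e2]
    ext l j
    simp only [STb_B, Matrix.add_apply, Matrix.transpose_apply, Matrix.of_apply]
    have a1 := STb_c_anti (G x) i j l
    have a2 := STb_c_anti (G x) j l i
    have a3 := STb_c_anti (G x) l i j
    have b1 := hDG i j l
    have b2 := hDG j i l
    have b3 := hDG l i j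
    linarith
  · intro x hx i j k
    obtain ⟨hsym, hdet⟩ := hs x hx
    have hu := isUnit_iff_ne_zero.2 hdet
    have e1 : ∀ i, G x * ((G x)⁻¹ * STb_B (G x) (fun i => Dv G (ee i) x) i) =
        STb_B (G x) (fun i => Dv G (ee i) x) i := fun i => Matrix.mul_nonsing_inv_cancel_left _ _ hu
    have hDG : ∀ i a b, Dv G (ee i) x a b = Dv G (ee i) x b a := by
      intro i a b
      have h1 : ContDiffAt ℝ ∞ G x := hG.contDiffAt (isOpen_compl_singleton.mem_nhds hx)
      have h2 := Dv_transpose (A := G) (v := ee i) (x := x) (h1.differentiableAt (by simp))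
      have h3 : (fun y => (G y)ᵀ) =ᶠ[𝓝 x] G := by
        filter_upwards [isOpen_compl_singleton.mem_nhds hx] with y hy
        exact (hs y hy).1
      have h4 : Dv (fun y => (G y)ᵀ) (ee i) x = Dv G (ee i) x := B0b_Dv_congr h3
      rw [h4] at h2
      conv_lhs => rw [h2]
      rfl
    set Γ : Fin 3 → M3 := fun i => (G x)⁻¹ * STb_B (G x) (fun i => Dv G (ee i) x) i with hΓ
    have key : G x *ᵥ (fun k => Γ i k j - Γ j k i - 2 * eps i j k) = 0 := by
      ext l
      have h1 : (G x *ᵥ fun k => Γ i k j - Γ j k i - 2 * eps i j k) l =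
          (G x * Γ i) l j - (G x * Γ j) l i - STb_c (G x) i j l := by
        simp only [Matrix.mulVec, dotProduct, Matrix.mul_apply, STb_c, Finset.mul_sum,
          ← Finset.sum_sub_distrib]
        refine Finset.sum_congr rfl fun m _ => ?_
        have h2 : G x l m = G x m l := by
          conv_lhs => rw [← hsym]
          rfl
        rw [h2]; ring
      rw [h1]
      simp only [hΓ]
      rw [e1 i, e1 j]
      simp only [STb_B, Matrix.of_apply, Pi.zero_apply]
      have a1 := STb_c_anti (G x) i j l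
      have a2 := STb_c_anti (G x) j l i
      have a3 := STb_c_anti (G x) l i j
      have b1 := hDG i j l
      have b2 := hDG j i l
      have b3 := hDG l i j
      linarith
    have h5 : (G x)⁻¹ *ᵥ (G x *ᵥ (fun k => Γ i k j - Γ j k i - 2 * eps i j k)) =
        fun k => Γ i k j - Γ j k i - 2 * eps i j k := by
      rw [Matrix.mulVec_mulVec, Matrix.nonsing_inv_mul _ hu, Matrix.one_mulVec]
    rw [key, Matrix.mulVec_zero] at h5
    have h6 := congrFun h5 k
    simp only [Pi.zero_apply] at h6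
    show Γ i k j - Γ j k i = 2 * eps i j k
    linarith

end Pool.Agent.helper68.B2
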