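import Pool.Agent.helper98.B2.B0b
import Pool.Agent.helper22.B2.STa
import Pool.Agent.helper49.B2.STb

/-! # MP_b2b189_gt, b2:STc: the projective relation in the frame -/

set_option autoImplicit false

namespace Pool.Agent.helper68.B2

open scoped ContDiff Topology Matrix
open Matrix Set

theorem STc_JJ (i j : Fin 3) (x : E4) :
    J j (J i x) - J i (J j x) = ∑ k, (2 * eps i j k) • J k x := by
  rw [Fin.sum_univ_three]
  fin_cases i <;> fin_cases j <;>
    simp only [Fin.zero_eta, Fin.mk_one, Fin.reduceFinMk, STa_J0, STa_J1, STa_J2] <;>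
    ext a <;> fin_cases a <;> simp [eps] <;> ring

theorem STc_commutator {F : Type*} [NormedAddCommGroup F] [NormedSpace ℝ F] {f : E4 → F} {x : E4}
    (hf : ContDiffAt ℝ 2 f x) (i j : Fin 3) :
    Dv (fun y => Dv f (ee j) y) (ee i) x - Dv (fun y => Dv f (ee i) y) (ee j) x
      = ∑ k, (2 * eps i j k) • Dv f (ee k) x := by
  have h1 : DifferentiableAt ℝ (fderiv ℝ f) x :=
    (hf.fderiv_right (m := 1) (by norm_num)).differentiableAt (by norm_num)
  have h2 : ∀ i j : Fin 3, Dv (fun y => Dv f (ee j) y) (ee i) x =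
      fderiv ℝ (fderiv ℝ f) x (J i x) (J j x) + fderiv ℝ f x (J j (J i x)) := by
    intro i j
    simp only [Dv, STa_fld]
    have h3 := (h1.hasFDerivAt.clm_apply (J j).hasFDerivAt).fderiv
    rw [h3]
    simp
    abel
  have hsym : IsSymmSndFDerivAt ℝ f x := hf.isSymmSndFDerivAt (by
    simp only [minSmoothness_of_isRCLikeNormedField]; exact le_rfl)
  rw [h2, h2, hsym (J i x) (J j x)]
  have h4 : ∑ k, (2 * eps i j k) • Dv f (ee k) x = fderiv ℝ f x (∑ k, (2 * eps i j k) • J k x) := by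
    rw [map_sum]
    exact Finset.sum_congr rfl fun k _ => by simp only [Dv, STa_fld, map_smul]
  rw [h4, ← STc_JJ, map_sub]
  abel

/-- partial derivatives of the metric -/
noncomputable def STc_dg (g : (Fin 3 → ℝ) → M3) (y : Fin 3 → ℝ) (b : Fin 3) : M3 :=
  Matrix.of fun a c => fderiv ℝ (fun z => g z a c) y (Pi.single b 1 : Fin 3 → ℝ)

/-- Christoffel matrix -/
noncomputable def STc_Ch (g : (Fin 3 → ℝ) → M3) (y : Fin 3 → ℝ) (b : Fin 3) : M3 :=
  Matrix.of fun a c => chris g y a b c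

/-- lowered Christoffel matrix -/
noncomputable def STc_LB (g : (Fin 3 → ℝ) → M3) (y : Fin 3 → ℝ) (b : Fin 3) : M3 :=
  Matrix.of fun l a => (1 / 2 : ℝ) * (STc_dg g y b l a + STc_dg g y a l b - STc_dg g y l b a)

theorem STc_Ch_eq (g : (Fin 3 → ℝ) → M3) (y : Fin 3 → ℝ) (b : Fin 3) :
    STc_Ch g y b = (g y)⁻¹ * STc_LB g y b := by
  ext i k
  simp only [STc_Ch, chris, Matrix.of_apply, Matrix.mul_apply, STc_LB, STc_dg, Finset.mul_sum]
  exact Finset.sum_congr rfl fun l _ => by ring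

theorem STc_dg_symm (g : (Fin 3 → ℝ) → M3) (hs : ∀ x, (g x).IsSymm) (y : Fin 3 → ℝ) (b a c : Fin 3) :
    STc_dg g y b a c = STc_dg g y b c a := by
  simp only [STc_dg, Matrix.of_apply]
  have : (fun z => g z a c) = fun z => g z c a := funext fun z => (hs z).apply c a
  rw [this]

theorem STc_Ch_symm (g : (Fin 3 → ℝ) → M3) (hs : ∀ x, (g x).IsSymm) (y : Fin 3 → ℝ) (a b c : Fin 3) :
    STc_Ch g y b a c = STc_Ch g y c a b := by
  rw [STc_Ch_eq, STc_Ch_eq]
  simp only [Matrix.mul_apply]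
  refine Finset.sum_congr rfl fun l _ => ?_
  congr 1
  simp only [STc_LB, Matrix.of_apply]
  rw [STc_dg_symm g hs y l b c]
  ring

theorem STc_metric (g : (Fin 3 → ℝ) → M3) (hs : ∀ x, (g x).IsSymm ∧ (g x).det ≠ 0)
    (y : Fin 3 → ℝ) (b : Fin 3) :
    STc_dg g y b = (STc_Ch g y b)ᵀ * g y + g y * STc_Ch g y b := by
  have hu := isUnit_iff_ne_zero.2 (hs y).2
  have h1 : g y * STc_Ch g y b = STc_LB g y b := by
    rw [STc_Ch_eq]; exact Matrix.mul_nonsing_inv_cancel_left _ _ hu
  have h2 : (STc_Ch g y b)ᵀ * g y = (STc_LB g y b)ᵀ := by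
    rw [← h1, Matrix.transpose_mul, (hs y).1.eq]
  rw [h1, h2]
  ext a c
  simp only [STc_LB, Matrix.add_apply, Matrix.transpose_apply, Matrix.of_apply]
  have e := STc_dg_symm g (fun x => (hs x).1) y
  rw [e b c a, e a c b, e c b a]
  ring

/-- chain rule -/
theorem STc_chain (g : (Fin 3 → ℝ) → M3) (hg : ∀ i j, ContDiff ℝ (⊤ : ℕ∞) (fun x => g x i j))
    {x : E4} (hX : DifferentiableAt ℝ stX x) (i : Fin 3) :
    DifferentiableAt ℝ (fun y => g (stX y)) x ∧
    Dv (fun y => g (stX y)) (ee i) x = ∑ b, stB stX x b i • STc_dg g (stX x) b := by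
  have hd : ∀ a c : Fin 3, HasFDerivAt (fun y => g (stX y) a c)
      ((fderiv ℝ (fun z => g z a c) (stX x)).comp (fderiv ℝ stX x)) x := fun a c =>
    HasFDerivAt.comp (g := fun z => g z a c) x
      ((hg a c).differentiable (by simp) (stX x)).hasFDerivAt hX.hasFDerivAt
  have hG : DifferentiableAt ℝ (fun y => g (stX y)) x := by
    have h1 : (fun y => g (stX y)) = fun y => ∑ a, ∑ c, (g (stX y) a c) • (Matrix.single a c (1 : ℝ) : M3) := by
      funext y
      conv_lhs => rw [Matrix.matrix_eq_sum_single (g (stX y))]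
      simp [Matrix.smul_single]
    rw [h1]
    exact DifferentiableAt.fun_sum fun a _ => DifferentiableAt.fun_sum fun c _ =>
      (hd a c).differentiableAt.smul_const _
  refine ⟨hG, ?_⟩
  ext a c
  rw [← Dv_entry hG]
  simp only [Dv]
  rw [(hd a c).fderiv]
  simp only [ContinuousLinearMap.comp_apply, Matrix.sum_apply, Matrix.smul_apply, smul_eq_mul, STc_dg,
    Matrix.of_apply, stB, Dv]
  have h3 : ∀ b : Fin 3, fderiv ℝ (fun y => stX y b) x (fld (ee i) x) = fderiv ℝ stX x (fld (ee i) x) b := by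
    intro b
    rw [fderiv_apply hX]
    rfl
  have h4 : fderiv ℝ stX x (fld (ee i) x) =
      ∑ b, (fderiv ℝ stX x (fld (ee i) x) b) • (Pi.single b 1 : Fin 3 → ℝ) := by
    ext b
    simp [Finset.sum_apply, Pi.single_apply]
  conv_lhs => rw [h4, map_sum]
  refine Finset.sum_congr rfl fun b _ => ?_
  rw [map_smul, h3, smul_eq_mul]

/-- the transformation law of the connection. -/
theorem STc_conn (g : (Fin 3 → ℝ) → M3) (hg : ∀ i j, ContDiff ℝ (⊤ : ℕ∞) (fun x => g x i j))
    (hs : ∀ x, (g x).IsSymm ∧ (g x).det ≠ 0) (G : E4 → M3)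
    (hr : ∀ x, x ≠ 0 → x 3 ≠ ‖x‖ → G x = (stB stX x)ᵀ * g (stX x) * stB stX x)
    (Γ : Fin 3 → E4 → M3)
    (hm : ∀ x, x ≠ 0 → ∀ i, Dv G (ee i) x = (Γ i x)ᵀ * G x + G x * Γ i x)
    (ht : ∀ x, x ≠ 0 → ∀ i j k, Γ i x k j - Γ j x k i = 2 * eps i j k)
    {x : E4} (hx : x ≠ 0) (h3 : x 3 ≠ ‖x‖) (i : Fin 3) :
    stB stX x * Γ i x = Dv (stB stX) (ee i) x +
      (∑ b, stB stX x b i • STc_Ch g (stX x) b) * stB stX x := by
  have hU : x ∈ STa_U 1 := ⟨hx, by
    intro h; apply h3; linarith⟩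
  have hUo := STa_U_open 1
  have hXc : ContDiffAt ℝ ∞ stX x := by
    rw [STa_stX]; exact (STa_st_cd 1).contDiffAt (hUo.mem_nhds hU)
  have hX : DifferentiableAt ℝ stX x := hXc.differentiableAt (by simp)
  have hBc : ContDiffAt ℝ ∞ (stB stX) x := by
    rw [contDiffAt_entries]
    intro a b
    rw [STa_stX]; exact (STa_stB_cd 1 a b).contDiffAt (hUo.mem_nhds hU)
  have hB : DifferentiableAt ℝ (stB stX) x := hBc.differentiableAt (by simp)
  have hBd := BRa_jac x hx h3
  have hBu := isUnit_iff_ne_zero.2 hBd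
  set B := stB stX x with hBdef
  set C : Fin 3 → M3 := fun i => ∑ b, B b i • STc_Ch g (stX x) b with hC
  set D : Fin 3 → M3 := fun i => B⁻¹ * (Dv (stB stX) (ee i) x + C i * B) with hD
  have hBD : ∀ i, B * D i = Dv (stB stX) (ee i) x + C i * B := fun i =>
    Matrix.mul_nonsing_inv_cancel_left _ _ hBu
  obtain ⟨hgd, -⟩ := STc_chain g hg hX i
  -- the derivative of G
  have hGx := hr x hx h3
  rw [← hBdef] at hGx
  have hDG : ∀ i, Dv G (ee i) x = (Dv (stB stX) (ee i) x)ᵀ * g (stX x) * B +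
      Bᵀ * (∑ b, B b i • STc_dg g (stX x) b) * B + Bᵀ * g (stX x) * Dv (stB stX) (ee i) x := by
    intro i
    have e1 : G =ᶠ[𝓝 x] fun y => (stB stX y)ᵀ * g (stX y) * stB stX y := by
      filter_upwards [hUo.mem_nhds hU] with y hy
      exact hr y hy.1 (by intro h; apply hy.2; rw [h]; ring)
    have hBT : DifferentiableAt ℝ (fun y => (stB stX y)ᵀ) x := by
      have : ContDiffAt ℝ ∞ (fun y => (stB stX y)ᵀ) x := by
        rw [contDiffAt_entries]
        intro a b
        exact contDiffAt_entries.1 hBc b a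
      exact this.differentiableAt (by simp)
    rw [B0b_Dv_congr e1, Dv_mul (hBT.fun_mul hgd) hB, Dv_mul hBT hgd, Dv_transpose hB,
      (STc_chain g hg hX i).2]
    rw [add_mul]
  have hsym : (G x)ᵀ = G x := by
    rw [hGx]
    simp only [Matrix.transpose_mul, Matrix.transpose_transpose, (hs _).1.eq, Matrix.mul_assoc]
  have hdet : (G x).det ≠ 0 := by
    rw [hGx, Matrix.det_mul, Matrix.det_mul, Matrix.det_transpose]
    exact mul_ne_zero (mul_ne_zero hBd (hs _).2) hBd
  -- metric compatibility of D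
  have hmD : ∀ i, Dv G (ee i) x = (D i)ᵀ * G x + G x * D i := by
    intro i
    have e2 : G x * D i = Bᵀ * g (stX x) * (Dv (stB stX) (ee i) x + C i * B) := by
      rw [hGx, Matrix.mul_assoc, hBD]
    have e3 : (D i)ᵀ * G x = (Bᵀ * g (stX x) * (Dv (stB stX) (ee i) x + C i * B))ᵀ := by
      rw [← e2, Matrix.transpose_mul (G x) (D i), hsym]
    have e4 : (∑ b, B b i • STc_dg g (stX x) b) = (C i)ᵀ * g (stX x) + g (stX x) * C i := by
      simp only [hC, Matrix.transpose_sum, Finset.sum_mul, Finset.mul_sum, ← Finset.sum_add_distrib]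
      refine Finset.sum_congr rfl fun b _ => ?_
      rw [STc_metric g hs, Matrix.transpose_smul, Matrix.smul_mul, Matrix.mul_smul, smul_add]
    rw [e3, e2, hDG, e4]
    simp only [Matrix.transpose_mul, Matrix.transpose_add, Matrix.transpose_transpose, (hs _).1.eq]
    noncomm_ring
  -- torsion of D
  have htD : ∀ i j k, D i k j - D j k i = 2 * eps i j k := by
    intro i j k
    have key : B *ᵥ (fun k => D i k j - D j k i - 2 * eps i j k) = 0 := by
      ext a
      have h1 : (B *ᵥ fun k => D i k j - D j k i - 2 * eps i j k) a =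
          (B * D i) a j - (B * D j) a i - ∑ k, (2 * eps i j k) • B a k := by
        simp only [Matrix.mulVec, dotProduct, Matrix.mul_apply, ← Finset.sum_sub_distrib, smul_eq_mul]
        exact Finset.sum_congr rfl fun m _ => by ring
      rw [h1, hBD, hBD]
      have h2 : (C i * B) a j = (C j * B) a i := by
        simp only [hC, Matrix.mul_apply, Matrix.sum_apply, Matrix.smul_apply, smul_eq_mul,
          Finset.sum_mul]
        rw [Finset.sum_comm]
        refine Finset.sum_congr rfl fun b _ => Finset.sum_congr rfl fun c _ => ?_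
        rw [STc_Ch_symm g (fun x => (hs x).1)]
        ring
      have h4 := STc_commutator (f := fun y => stX y a) (x := x)
        (((contDiffAt_pi.1 hXc) a).of_le (WithTop.coe_le_coe.2 (le_top : (2 : ℕ∞) ≤ ⊤))) i j
      have h5 : ∀ i j, Dv (stB stX) (ee i) x a j = Dv (fun y => Dv (fun y => stX y a) (ee j) y) (ee i) x := by
        intro i j
        rw [← Dv_entry hB]
        rfl
      have h6 : ∑ k, (2 * eps i j k) • B a k = ∑ k, (2 * eps i j k) • Dv (fun y => stX y a) (ee k) x := rfl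
      simp only [Matrix.add_apply, Pi.zero_apply]
      rw [h2, h5 i j, h5 j i, h6, ← h4]
      ring
    have h5 : B⁻¹ *ᵥ (B *ᵥ (fun k => D i k j - D j k i - 2 * eps i j k)) =
        fun k => D i k j - D j k i - 2 * eps i j k := by
      rw [Matrix.mulVec_mulVec, Matrix.nonsing_inv_mul _ hBu, Matrix.one_mulVec]
    rw [key, Matrix.mulVec_zero] at h5
    have h6 := congrFun h5 k
    simp only [Pi.zero_apply] at h6
    linarith
  have huniq := BRb_unique (G x) hsym hdet (fun i => Γ i x - D i)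
    (fun i => by
      have a1 := hm x hx i
      have a2 := hmD i
      rw [Matrix.transpose_sub, sub_mul, mul_sub]
      rw [a1] at a2
      calc _ = ((Γ i x)ᵀ * G x + G x * Γ i x) - ((D i)ᵀ * G x + G x * D i) := by abel
        _ = 0 := by rw [a2, sub_self])
    (fun i j k => by
      have a1 := ht x hx i j k
      have a2 := htD i j k
      simp only [Matrix.sub_apply]
      linarith) i
  have h7 : Γ i x = D i := sub_eq_zero.1 huniq
  rw [h7, hBD]

theorem STc_alg (B : M3) (f : V3) (i : Fin 3) :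
    (∑ b, B b i • (Matrix.of fun a c =>
      (if a = b then f c else 0) + (if a = c then f b else 0) : M3)) * B =
    B * Matrix.of fun k j => (if k = i then ∑ c, f c * B c j else 0) +
      (if k = j then ∑ c, f c * B c i else 0) := by
  ext a j
  simp only [Matrix.mul_apply, Matrix.sum_apply, Matrix.smul_apply, smul_eq_mul,
    Matrix.of_apply, Fin.sum_univ_three]
  fin_cases a <;> fin_cases i <;> fin_cases j <;> simp <;> ring

/-- b2:BRc  the projective relation in the frame -/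
theorem BRc (g₁ g₂ : (Fin 3 → ℝ) → M3) (hg₁ : ∀ i j, ContDiff ℝ (⊤ : ℕ∞) (fun x => g₁ x i j))
    (hg₂ : ∀ i j, ContDiff ℝ (⊤ : ℕ∞) (fun x => g₂ x i j))
    (hs₁ : ∀ x, (g₁ x).IsSymm ∧ (g₁ x).det ≠ 0) (hs₂ : ∀ x, (g₂ x).IsSymm ∧ (g₂ x).det ≠ 0)
    (hφ : ∃ φ : (Fin 3 → ℝ) → Fin 3 → ℝ, ∀ x i j k,
        chris g₂ x i j k = chris g₁ x i j k + (if i = j then φ x k else 0)
          + (if i = k then φ x j else 0))
    (G₁ G₂ : E4 → M3) (hG₁ : Sm G₁) (hG₂ : Sm G₂)
    (hr₁ : ∀ x, x ≠ 0 → x 3 ≠ ‖x‖ → G₁ x = (stB stX x)ᵀ * g₁ (stX x) * stB stX x)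
    (hr₂ : ∀ x, x ≠ 0 → x 3 ≠ ‖x‖ → G₂ x = (stB stX x)ᵀ * g₂ (stX x) * stB stX x)
    (Γ₁ Γ₂ : Fin 3 → E4 → M3) (hΓ₁ : ∀ i, Sm (Γ₁ i)) (hΓ₂ : ∀ i, Sm (Γ₂ i))
    (hm₁ : ∀ x, x ≠ 0 → ∀ i, Dv G₁ (ee i) x = (Γ₁ i x)ᵀ * G₁ x + G₁ x * Γ₁ i x)
    (hm₂ : ∀ x, x ≠ 0 → ∀ i, Dv G₂ (ee i) x = (Γ₂ i x)ᵀ * G₂ x + G₂ x * Γ₂ i x)
    (ht₁ : ∀ x, x ≠ 0 → ∀ i j k, Γ₁ i x k j - Γ₁ j x k i = 2 * eps i j k)
    (ht₂ : ∀ x, x ≠ 0 → ∀ i j k, Γ₂ i x k j - Γ₂ j x k i = 2 * eps i j k) :
    ∃ φ : E4 → V3, ∀ x, x ≠ 0 → ∀ i k j,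
      Γ₂ i x k j - Γ₁ i x k j = (if k = i then φ x j else 0) + (if k = j then φ x i else 0) := by
  obtain ⟨φ, hφ⟩ := hφ
  set ψ : E4 → V3 := fun x i => (1 / 4 : ℝ) * ∑ j, (Γ₂ i x j j - Γ₁ i x j j) with hψ
  -- off the ray
  have hoff : ∀ x, x ≠ 0 → x 3 ≠ ‖x‖ → ∀ i k j,
      Γ₂ i x k j - Γ₁ i x k j = (if k = i then ψ x j else 0) + (if k = j then ψ x i else 0) := by
    intro x hx h3
    have hBu := isUnit_iff_ne_zero.2 (BRa_jac x hx h3)
    set B := stB stX x with hB
    set p : Fin 3 → ℝ := fun j => ∑ c, φ (stX x) c * B c j with hp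
    have key : ∀ i, B * (Γ₂ i x - Γ₁ i x) = B * Matrix.of fun k j =>
        (if k = i then p j else 0) + (if k = j then p i else 0) := by
      intro i
      have e1 := STc_conn g₁ hg₁ hs₁ G₁ hr₁ Γ₁ hm₁ ht₁ hx h3 i
      have e2 := STc_conn g₂ hg₂ hs₂ G₂ hr₂ Γ₂ hm₂ ht₂ hx h3 i
      rw [← hB] at e1 e2
      have e4 : ∀ b, STc_Ch g₂ (stX x) b - STc_Ch g₁ (stX x) b = Matrix.of fun a c =>
          (if a = b then φ (stX x) c else 0) + (if a = c then φ (stX x) b else 0) := by
        intro b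
        ext a c
        simp only [STc_Ch, Matrix.of_apply, Matrix.sub_apply, hφ]
        ring
      rw [Matrix.mul_sub, e1, e2, add_sub_add_left_eq_sub, ← Matrix.sub_mul, ← Finset.sum_sub_distrib]
      have e5 : ∑ b, (B b i • STc_Ch g₂ (stX x) b - B b i • STc_Ch g₁ (stX x) b) =
          ∑ b, B b i • (Matrix.of fun a c =>
            (if a = b then φ (stX x) c else 0) + (if a = c then φ (stX x) b else 0) : M3) :=
        Finset.sum_congr rfl fun b _ => by rw [← smul_sub, e4]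
      rw [e5]
      exact STc_alg B (φ (stX x)) i
    have hp2 : ∀ i k j, Γ₂ i x k j - Γ₁ i x k j = (if k = i then p j else 0) + (if k = j then p i else 0) := by
      intro i k j
      have h1 := congrArg (fun M => B⁻¹ * M) (key i)
      simp only [Matrix.nonsing_inv_mul_cancel_left _ _ hBu] at h1
      have h2 := congrFun (congrFun h1 k) j
      simpa only [Matrix.sub_apply, Matrix.of_apply] using h2
    have hψp : ψ x = p := by
      funext i
      simp only [hψ, hp2, Fin.sum_univ_three]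
      fin_cases i <;> simp <;> ring
    rw [hψp]
    exact hp2
  refine ⟨ψ, fun x hx i k j => ?_⟩
  by_cases h3 : x 3 = ‖x‖
  swap
  · exact hoff x hx h3 i k j
  -- on the ray: closure
  set F : E4 → ℝ := fun x => (Γ₂ i x k j - Γ₁ i x k j) -
    ((if k = i then ψ x j else 0) + (if k = j then ψ x i else 0)) with hF
  have hc : ∀ (Γ : Fin 3 → E4 → M3), (∀ i, Sm (Γ i)) → ∀ a b c, ContinuousAt (fun y => Γ a y b c) x := by
    intro Γ hΓ a b c
    have h1 : ContDiffAt ℝ ∞ (Γ a) x := (hΓ a).contDiffAt (isOpen_compl_singleton.mem_nhds hx)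
    exact (contDiffAt_entries.1 h1 b c).continuousAt
  have hψc : ∀ a, ContinuousAt (fun y => ψ y a) x := by
    intro a
    simp only [hψ, Fin.sum_univ_three]
    have a1 := fun b => hc Γ₁ hΓ₁ a b b
    have a2 := fun b => hc Γ₂ hΓ₂ a b b
    exact continuousAt_const.mul ((((a2 0).sub (a1 0)).add ((a2 1).sub (a1 1))).add ((a2 2).sub (a1 2)))
  have hFc : ContinuousAt F x := by
    have b1 : ContinuousAt (fun y => if k = i then ψ y j else 0) x := by
      split_ifs
      · exact hψc j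
      · exact continuousAt_const
    have b2 : ContinuousAt (fun y => if k = j then ψ y i else 0) x := by
      split_ifs
      · exact hψc i
      · exact continuousAt_const
    exact ((hc Γ₂ hΓ₂ i k j).sub (hc Γ₁ hΓ₁ i k j)).sub (b1.add b2)
  set w : E4 := EuclideanSpace.single 0 1 with hw
  have hcomp : ContinuousAt (fun t : ℝ => F (x + t • w)) 0 := by
    have h1 : ContinuousAt (fun t : ℝ => x + t • w) 0 := by fun_prop
    exact ContinuousAt.comp' (g := F) (f := fun t : ℝ => x + t • w) (by simpa using hFc) h1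
  have hzero : ∀ᶠ t : ℝ in 𝓝[≠] 0, F (x + t • w) = 0 := by
    filter_upwards [self_mem_nhdsWithin] with t ht
    have ht' : t ≠ 0 := ht
    have hx3 : 0 < x 3 := by rw [h3]; exact norm_pos_iff.2 hx
    have hy3 : (x + t • w) 3 = x 3 := by simp [hw]
    have hy0 : x + t • w ≠ 0 := by
      intro h
      have := congrArg (fun y : E4 => y 3) h
      simp only [hy3] at this
      simp at this
      linarith
    have hn := STa_normsq x
    have hxx : x 0 ^ 2 + x 1 ^ 2 + x 2 ^ 2 = 0 := by rw [← h3] at hn; linarith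
    have h01 : x 0 = 0 := by
      have := sq_nonneg (x 0)
      have := sq_nonneg (x 1)
      have := sq_nonneg (x 2)
      exact pow_eq_zero_iff (two_ne_zero) |>.1 (by linarith)
    have hy : (x + t • w) 3 ≠ ‖x + t • w‖ := by
      intro h
      have h5 := STa_normsq (x + t • w)
      rw [← h] at h5
      have h6 : (x + t • w) 0 = t := by simp [hw, h01]
      rw [h6] at h5
      have h7 := sq_nonneg ((x + t • w) 1)
      have h8 := sq_nonneg ((x + t • w) 2)
      have h9 : 0 < t ^ 2 := by positivity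
      linarith
    simp only [hF]
    rw [hoff _ hy0 hy i k j, sub_self]
  have hlim : Filter.Tendsto (fun t : ℝ => F (x + t • w)) (𝓝[≠] 0) (𝓝 (F (x + (0:ℝ) • w))) :=
    hcomp.tendsto.mono_left nhdsWithin_le_nhds
  have h1 : F (x + (0:ℝ) • w) = 0 :=
    tendsto_nhds_unique hlim ((tendsto_const_nhds).congr' (hzero.mono fun t ht => ht.symm))
  rw [zero_smul, add_zero] at h1
  exact sub_eq_zero.1 h1

end Pool.Agent.helper68.B2
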