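import Mathlib
import Pool.Agent.helper25.B2.Sol
import Pool.Agent.helper25.B2.Block
import Pool.Agent.helper58.B2.FU

/-! # MP_b2b189_gt (S13780), b2:BS: near a scalar point with `h > 0` both `a` and `b` are nonnegative -/

set_option autoImplicit false

namespace Pool.Agent.helper25.B2

open Set Filter Topology Asymptotics

namespace Block

variable {E : Type*} [NormedAddCommGroup E] [NormedSpace ℝ E]

/-- chain rule along a curve. -/
theorem BS_comp {F : Type*} [NormedAddCommGroup F] [NormedSpace ℝ F] {f : E → F} {γ : ℝ → E} {t : ℝ}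
    {X : E} (hf : DifferentiableAt ℝ f (γ t)) (hγ : HasDerivAt γ X t) :
    HasDerivAt (fun t => f (γ t)) (fderiv ℝ f (γ t) X) t :=
  hf.hasFDerivAt.comp_hasDerivAt t hγ

/-- a solution of a linear equation which is nonzero at time `0` is nonzero. -/
theorem BS_lin {α c : ℝ → ℝ} {K T : ℝ} (h : ∀ t ∈ Icc 0 T, HasDerivAt α (c t * α t) t)
    (hc : ∀ t ∈ Icc 0 T, |c t| ≤ K) (h0 : α 0 ≠ 0) : ∀ t ∈ Icc 0 T, α t ≠ 0 := by
  intro t ht hz
  have hmono : MonotoneOn (fun t => α t ^ 2 * Real.exp (2 * K * t)) (Icc 0 T) := by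
    have hd : ∀ t ∈ Icc 0 T, HasDerivAt (fun t => α t ^ 2 * Real.exp (2 * K * t))
        (2 * α t * (c t * α t) * Real.exp (2 * K * t) + α t ^ 2 * (Real.exp (2 * K * t) * (2 * K))) t := by
      intro t ht
      have h1 := (h t ht).fun_pow 2
      have h2 : HasDerivAt (fun t : ℝ => Real.exp (2 * K * t)) (Real.exp (2 * K * t) * (2 * K)) t := by
        have := ((hasDerivAt_id t).const_mul (2 * K)).exp
        simpa using this
      refine (h1.fun_mul h2).congr_deriv ?_
      push_cast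
      ring
    refine monotoneOn_of_deriv_nonneg (convex_Icc 0 T)
      (fun t ht => (hd t ht).continuousAt.continuousWithinAt)
      (fun t ht => ((hd t (interior_subset ht)).differentiableAt).differentiableWithinAt) ?_
    intro t ht
    have ht' := interior_subset ht
    rw [(hd t ht').deriv]
    have h4 := (abs_le.1 (hc t ht')).1
    have h5 := Real.exp_pos (2 * K * t)
    have h6 : 0 ≤ α t ^ 2 * Real.exp (2 * K * t) * (2 * (K + c t)) := by
      have : 0 ≤ K + c t := by linarith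
      positivity
    nlinarith [h6]
  have h7 := hmono (left_mem_Icc.2 (ht.1.trans ht.2)) ht ht.1
  have h8 : 0 < α 0 ^ 2 := by positivity
  simp only [hz, mul_zero, Real.exp_zero, mul_one] at h7
  simp at h7
  exact h0 h7

theorem BS_lin_neg {α c : ℝ → ℝ} {K T : ℝ} (hT : 0 ≤ T) (h : ∀ t ∈ Icc 0 T, HasDerivAt α (c t * α t) t)
    (hc : ∀ t ∈ Icc 0 T, |c t| ≤ K) (h0 : α 0 < 0) : α T < 0 := by
  by_contra hcon
  push Not at hcon
  have h1 : (0 : ℝ) ∈ α '' Icc 0 T :=
    intermediate_value_Icc hT (fun t ht => (h t ht).continuousAt.continuousWithinAt) ⟨h0.le, hcon⟩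
  obtain ⟨t, ht, hz⟩ := h1
  exact BS_lin h hc h0.ne t ht hz

/-- Taylor lower bound. -/
theorem BS_taylor {β β1 β2 : ℝ → ℝ} {T m : ℝ} (hT : 0 ≤ T)
    (h : ∀ t ∈ Icc 0 T, HasDerivAt β (β1 t) t) (h1 : ∀ t ∈ Icc 0 T, HasDerivAt β1 (β2 t) t)
    (h2 : ∀ t ∈ Icc 0 T, m ≤ β2 t) : β 0 + β1 0 * T + m * T ^ 2 / 2 ≤ β T := by
  have m1 : MonotoneOn (fun t => β1 t - m * t) (Icc 0 T) := by
    have hd : ∀ t ∈ Icc 0 T, HasDerivAt (fun t => β1 t - m * t) (β2 t - m) t := by
      intro t ht
      refine ((h1 t ht).fun_sub ((hasDerivAt_id' t).const_mul m)).congr_deriv ?_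
      ring
    refine monotoneOn_of_deriv_nonneg (convex_Icc 0 T)
      (fun t ht => (hd t ht).continuousAt.continuousWithinAt)
      (fun t ht => ((hd t (interior_subset ht)).differentiableAt).differentiableWithinAt) ?_
    intro t ht
    rw [(hd t (interior_subset ht)).deriv]
    linarith [h2 t (interior_subset ht)]
  have m2 : MonotoneOn (fun t => β t - β1 0 * t - m * t ^ 2 / 2) (Icc 0 T) := by
    have hd : ∀ t ∈ Icc 0 T, HasDerivAt (fun t => β t - β1 0 * t - m * t ^ 2 / 2)
        (β1 t - β1 0 - m * t) t := by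
      intro t ht
      refine (((h t ht).fun_sub ((hasDerivAt_id' t).const_mul (β1 0))).fun_sub
        (((hasDerivAt_pow 2 t).const_mul m).div_const 2)).congr_deriv ?_
      push_cast
      ring
    refine monotoneOn_of_deriv_nonneg (convex_Icc 0 T)
      (fun t ht => (hd t ht).continuousAt.continuousWithinAt)
      (fun t ht => ((hd t (interior_subset ht)).differentiableAt).differentiableWithinAt) ?_
    intro t ht
    rw [(hd t (interior_subset ht)).deriv]
    have ht' := interior_subset ht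
    have := m1 (left_mem_Icc.2 hT) ht' ht'.1
    simp only [mul_zero, sub_zero] at this
    linarith
  have := m2 (left_mem_Icc.2 hT) (right_mem_Icc.2 hT) hT
  simp only [mul_zero, sub_zero] at this
  norm_num at this
  linarith

theorem BS_diff {F : Type*} [NormedAddCommGroup F] [NormedSpace ℝ F] {f : E → F} {x : E}
    (hf : ContDiffAt ℝ (⊤ : ℕ∞) f x) : DifferentiableAt ℝ f x :=
  hf.differentiableAt (by simp)

theorem BS_fderiv {F : Type*} [NormedAddCommGroup F] [NormedSpace ℝ F] {f : E → F} {x : E}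
    (hf : ContDiffAt ℝ (⊤ : ℕ∞) f x) : ContDiffAt ℝ (⊤ : ℕ∞) (fderiv ℝ f) x :=
  hf.fderiv_right (by simp)

/-- half of `block_S`. -/
theorem BS_half [CompleteSpace E] (B : Block E) (hA : B.A) {q : E} (hq : q ∈ B.W)
    (hb : B.b q = 0) (hh : 0 < B.h q) : ∀ᶠ x in 𝓝 q, 0 ≤ B.b x := by
  have hv : B.v q = 0 := hA.2 q hq hb
  set m : E → ℝ := fun x => B.om x (B.Nm x) with hm
  have sm : ∀ x ∈ B.W, ContDiffAt ℝ (⊤ : ℕ∞) m x := fun x hx =>
    (B.smooth_om x hx).clm_apply (B.smooth_Nm x hx)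
  set G : E → ℝ := fun x => 2 * ((2 * B.b x * m x + 2 * B.v x) * m x + B.b x * fderiv ℝ m x (B.Nm x)) +
    2 * (B.h x + m x * B.v x) with hG
  have cG : ContinuousAt G q := by
    have c1 := (B.smooth_b q hq).continuousAt
    have c2 := (sm q hq).continuousAt
    have c3 := (B.smooth_v q hq).continuousAt
    have c4 := (B.smooth_h q hq).continuousAt
    have c5 : ContinuousAt (fun x => fderiv ℝ m x (B.Nm x)) q :=
      ((BS_fderiv (sm q hq)).clm_apply (B.smooth_Nm q hq)).continuousAt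
    fun_prop
  have hGq : B.h q < G q := by
    simp only [hG, hb, hv]
    linarith
  -- the good neighbourhood
  obtain ⟨U, hU, hUo, hqU⟩ : ∃ U : Set E, (∀ x ∈ U, x ∈ B.W ∧ B.h q < G x ∧ 0 < B.h x ∧ |m x| ≤ |m q| + 1) ∧
      IsOpen U ∧ q ∈ U := by
    have e1 : ∀ᶠ x in 𝓝 q, x ∈ B.W ∧ B.h q < G x ∧ 0 < B.h x ∧ |m x| ≤ |m q| + 1 := by
      filter_upwards [B.isOpen_W.mem_nhds hq, cG.eventually_const_lt hGq,
        (B.smooth_h q hq).continuousAt.eventually_const_lt hh,
        (sm q hq).continuousAt.abs.eventually_lt_const (show |m q| < |m q| + 1 by linarith)]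
        with x h1 h2 h3 h4
      exact ⟨h1, h2, h3, h4.le⟩
    obtain ⟨U, h1, h2, h3⟩ := eventually_nhds_iff.1 e1
    exact ⟨U, h1, h2, h3⟩
  obtain ⟨r, hr, δ, hδ, hflow⟩ := FU_local (X := B.Nm) hUo hqU ((B.smooth_Nm q hq).of_le (by exact_mod_cast le_top))
  set T := δ / 2 with hT
  have hT0 : 0 < T := by positivity
  -- b vanishes to first order at q
  set b1 : E → ℝ := fun x => 2 * (B.b x * m x) + 2 * B.v x with hb1
  have cb : ContinuousAt (fun x => B.b x + b1 x * T + B.h q * T ^ 2 / 2) q := by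
    have c1 := (B.smooth_b q hq).continuousAt
    have c2 := (sm q hq).continuousAt
    have c3 := (B.smooth_v q hq).continuousAt
    fun_prop
  have hpos : 0 < B.b q + b1 q * T + B.h q * T ^ 2 / 2 := by
    simp only [hb1, hb, hv]
    have : 0 < B.h q * T ^ 2 / 2 := by positivity
    linarith
  have key : ∀ᶠ x in 𝓝 q, B.b x < 0 → B.a x = 0 := by
    filter_upwards [Metric.closedBall_mem_nhds q hr, cb.eventually_const_lt hpos] with y hy hyp hby
    obtain ⟨γ, h0, hγ⟩ := hflow y hy
    have hsub : Icc 0 T ⊆ Ioo (-δ) δ := fun t ht => ⟨by linarith [ht.1], by linarith [ht.2]⟩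
    have hU' : ∀ t ∈ Icc 0 T, γ t ∈ U := fun t ht => (hγ t (hsub ht)).1
    have hd : ∀ t ∈ Icc 0 T, HasDerivAt γ (B.Nm (γ t)) t := fun t ht => (hγ t (hsub ht)).2
    have hβ : ∀ t ∈ Icc 0 T, HasDerivAt (fun t => B.b (γ t)) (b1 (γ t)) t := by
      intro t ht
      have hW := (hU _ (hU' t ht)).1
      have := BS_comp (BS_diff (B.smooth_b _ hW)) (hd t ht)
      rw [B.db _ hW, B.cm_Nm _ hW] at this
      refine this.congr_deriv ?_
      simp only [hb1, hm]
      ring
    have hβ1 : ∀ t ∈ Icc 0 T, HasDerivAt (fun t => b1 (γ t)) (G (γ t)) t := by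
      intro t ht
      have hW := (hU _ (hU' t ht)).1
      have e1 := hβ t ht
      have e2 := BS_comp (BS_diff (sm _ hW)) (hd t ht)
      have e3 := BS_comp (BS_diff (B.smooth_v _ hW)) (hd t ht)
      rw [B.dv_Nm _ hW] at e3
      refine (((e1.fun_mul e2).const_mul 2).fun_add (e3.const_mul 2)).congr_deriv ?_
      simp only [hG, hb1, hm]
      ring
    have hα : ∀ t ∈ Icc 0 T, HasDerivAt (fun t => B.a (γ t)) ((-2 * m (γ t)) * B.a (γ t)) t := by
      intro t ht
      have hW := (hU _ (hU' t ht)).1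
      have := BS_comp (BS_diff (B.smooth_a _ hW)) (hd t ht)
      rw [B.da _ hW, B.cp_Nm _ hW] at this
      refine this.congr_deriv ?_
      simp only [hm]
      ring
    have hbT : 0 < B.b (γ T) := by
      have h5 := BS_taylor hT0.le hβ hβ1 (fun t ht => (hU _ (hU' t ht)).2.1.le)
      simp only [h0] at h5
      linarith
    have hbound : ∀ t ∈ Icc 0 T, |-2 * m (γ t)| ≤ 2 * (|m q| + 1) := by
      intro t ht
      rw [abs_mul]
      have := (hU _ (hU' t ht)).2.2.2
      norm_num
      linarith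
    have haT : 0 ≤ B.a (γ T) := by
      have hW := (hU _ (hU' T (right_mem_Icc.2 hT0.le))).1
      have h6 := B.ab_nonneg _ hW
      by_contra hcon
      push Not at hcon
      nlinarith
    have hW := (hU _ (hU' 0 (left_mem_Icc.2 hT0.le))).1
    rw [h0] at hW
    have ha0 : B.a y ≤ 0 := by
      have h6 := B.ab_nonneg _ hW
      by_contra hcon
      push Not at hcon
      nlinarith
    rcases ha0.lt_or_eq with hlt | heq
    · exfalso
      have := BS_lin_neg hT0.le hα hbound (by simpa only [h0] using hlt)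
      linarith
    · exact heq
  filter_upwards [key.eventually_nhds, hUo.mem_nhds hqU] with x hx hxU
  by_contra hcon
  push Not at hcon
  obtain ⟨hW, -, hhx, -⟩ := hU x hxU
  have cb' : ∀ᶠ y in 𝓝 x, B.b y < 0 := (B.smooth_b x hW).continuousAt.eventually_lt_const hcon
  have hu : B.u =ᶠ[𝓝 x] fun _ => (0 : ℝ) := by
    filter_upwards [hx, cb', B.isOpen_W.mem_nhds hW] with y h1 h2 h3
    exact hA.1 y h3 (h1 h2)
  have h7 : fderiv ℝ B.u x = 0 := by
    rw [hu.fderiv_eq]
    simp
  have h8 := B.du_Np x hW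
  rw [h7, hu.eq_of_nhds] at h8
  simp at h8
  linarith

/-- BS: near a scalar point with `h > 0` both `a` and `b` are nonnegative. -/
theorem block_S [CompleteSpace E] (B : Block E) (hA : B.A) {q : E} (hq : q ∈ B.W) (ha : B.a q = 0)
    (hb : B.b q = 0) (hh : 0 < B.h q) :
    ∀ᶠ x in 𝓝 q, 0 ≤ B.a x ∧ 0 ≤ B.b x := by
  have h1 := BS_half B hA hq hb hh
  have h2 := BS_half B.swap ⟨hA.2, hA.1⟩ (q := q) hq ha hh
  filter_upwards [h1, h2] with x h3 h4
  exact ⟨h4, h3⟩

end Block

end Pool.Agent.helper25.B2
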