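import Mathlib
import Pool.Agent.helper25.B2.Sol
import Pool.Agent.helper25.B2.Block
import Pool.Agent.helper49.B2.BS

/-! # MP_b2b189_gt (S13780), b2:BE: `u^2 ≤ C a` where `a ≥ 0` -/

set_option autoImplicit false

namespace Pool.Agent.helper25.B2

open Set Filter Topology Asymptotics

namespace Block

variable {E : Type*} [NormedAddCommGroup E] [NormedSpace ℝ E]

theorem BE_smul {x w : E} (t : ℝ) : HasDerivAt (fun t : ℝ => x + t • w) w t := by
  simpa using ((hasDerivAt_id t).smul_const w).const_add x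

/-- derivative along a line. -/
theorem BE_line {f : E → ℝ} {x w : E} {t : ℝ} (hf : ContDiffAt ℝ (⊤ : ℕ∞) f (x + t • w)) :
    HasDerivAt (fun t : ℝ => f (x + t • w)) (fderiv ℝ f (x + t • w) w) t :=
  BS_comp (BS_diff hf) (BE_smul t)

theorem BE_D {f : E → ℝ} {x : E} (w : E) (hf : ContDiffAt ℝ (⊤ : ℕ∞) f x) :
    ContDiffAt ℝ (⊤ : ℕ∞) (fun x => fderiv ℝ f x w) x :=
  (BS_fderiv hf).clm_apply contDiffAt_const

/-- two-sided Taylor lower bound. -/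
theorem BE_taylor {β β1 β2 : ℝ → ℝ} {t m : ℝ}
    (h : ∀ s, |s| ≤ |t| → HasDerivAt β (β1 s) s) (h1 : ∀ s, |s| ≤ |t| → HasDerivAt β1 (β2 s) s)
    (h2 : ∀ s, |s| ≤ |t| → m ≤ β2 s) : β 0 + β1 0 * t + m * t ^ 2 / 2 ≤ β t := by
  rcases le_or_gt 0 t with ht | ht
  · have hs : ∀ s ∈ Icc 0 t, |s| ≤ |t| := fun s hs => by
      rw [abs_of_nonneg hs.1, abs_of_nonneg ht]; exact hs.2
    exact BS_taylor ht (fun s h3 => h s (hs s h3)) (fun s h3 => h1 s (hs s h3))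
      (fun s h3 => h2 s (hs s h3))
  · have hs : ∀ s ∈ Icc 0 (-t), |-s| ≤ |t| := fun s hs => by
      rw [abs_neg, abs_of_nonneg hs.1, abs_of_neg ht]; exact hs.2
    have h3 := BS_taylor (β := fun s => β (-s)) (β1 := fun s => -β1 (-s)) (β2 := fun s => β2 (-s))
      (T := -t) (m := m) (by linarith)
      (fun s h3 => by
        refine ((h (-s) (hs s h3)).comp s (hasDerivAt_neg s)).congr_deriv ?_
        ring)
      (fun s h3 => by
        refine ((h1 (-s) (hs s h3)).comp s (hasDerivAt_neg s)).neg.congr_deriv ?_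
        ring)
      (fun s h3 => h2 (-s) (hs s h3))
    simp only [neg_zero, neg_neg] at h3
    linarith [h3]

omit [NormedSpace ℝ E] in
theorem BE_bdd {F : Type*} [NormedAddCommGroup F] {f : E → F} {q : E}
    (hf : ContinuousAt f q) : ∀ᶠ x in 𝓝 q, ‖f x‖ ≤ ‖f q‖ + 1 :=
  (hf.norm.eventually_lt_const (show ‖f q‖ < ‖f q‖ + 1 by linarith)).mono fun _ h => h.le

/-- BE: `u^2 ≤ C a` where `a ≥ 0`. -/
theorem block_E (B : Block E) {q : E} (hq : q ∈ B.W) (hpos : ∀ᶠ x in 𝓝 q, 0 ≤ B.a x) :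
    ∃ C : ℝ, ∀ᶠ x in 𝓝 q, B.u x ^ 2 ≤ C * B.a x := by
  set w := B.Np q with hw
  set F1 : E → ℝ := fun x => fderiv ℝ B.a x w with hF1
  set F2 : E → ℝ := fun x => fderiv ℝ F1 x w with hF2
  have s1 : ∀ x ∈ B.W, ContDiffAt ℝ (⊤ : ℕ∞) F1 x := fun x hx => BE_D w (B.smooth_a x hx)
  have s2 : ∀ x ∈ B.W, ContDiffAt ℝ (⊤ : ℕ∞) F2 x := fun x hx => BE_D w (s1 x hx)
  have scp : ContinuousAt (fun x => B.cp x w) q :=
    ((B.smooth_cp q hq).clm_apply contDiffAt_const).continuousAt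
  have som : ContinuousAt (fun x => B.om x w) q :=
    ((B.smooth_om q hq).clm_apply contDiffAt_const).continuousAt
  obtain ⟨R, hR, hball⟩ : ∃ R > 0, ∀ x ∈ Metric.ball q R, x ∈ B.W ∧ 0 ≤ B.a x ∧ ‖F2 x‖ ≤ ‖F2 q‖ + 1 ∧
      ‖F1 x‖ ≤ ‖F1 q‖ + 1 ∧ ‖B.a x‖ ≤ ‖B.a q‖ + 1 ∧ ‖B.om x w‖ ≤ ‖B.om q w‖ + 1 ∧ 1 / 2 < B.cp x w := by
    have hcpq : 1 / 2 < B.cp q w := by
      rw [hw, B.cp_Np q hq]; norm_num
    have := (B.isOpen_W.mem_nhds hq)
    have e : ∀ᶠ x in 𝓝 q, x ∈ B.W ∧ 0 ≤ B.a x ∧ ‖F2 x‖ ≤ ‖F2 q‖ + 1 ∧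
        ‖F1 x‖ ≤ ‖F1 q‖ + 1 ∧ ‖B.a x‖ ≤ ‖B.a q‖ + 1 ∧ ‖B.om x w‖ ≤ ‖B.om q w‖ + 1 ∧ 1 / 2 < B.cp x w := by
      filter_upwards [this, hpos, BE_bdd (s2 q hq).continuousAt, BE_bdd (s1 q hq).continuousAt,
        BE_bdd (B.smooth_a q hq).continuousAt, BE_bdd som, scp.eventually_const_lt hcpq]
        with x h1 h2 h3 h4 h5 h6 h7
      exact ⟨h1, h2, h3, h4, h5, h6, h7⟩
    exact Metric.eventually_nhds_iff_ball.1 e
  have hw0 : 0 < ‖w‖ := by
    rw [norm_pos_iff]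
    intro h0
    have := B.cp_Np q hq
    rw [← hw, h0] at this
    simp at this
  -- time step
  set δ := R / (2 * ‖w‖) with hδ
  have hδ0 : 0 < δ := by positivity
  have hline : ∀ x ∈ Metric.ball q (R / 2), ∀ t : ℝ, |t| ≤ δ → x + t • w ∈ Metric.ball q R := by
    intro x hx t ht
    rw [Metric.mem_ball, dist_eq_norm] at hx ⊢
    have h1 : ‖t • w‖ ≤ R / 2 := by
      rw [norm_smul, Real.norm_eq_abs]
      calc |t| * ‖w‖ ≤ δ * ‖w‖ := by gcongr
        _ = R / 2 := by rw [hδ]; field_simp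
    calc ‖x + t • w - q‖ = ‖(x - q) + t • w‖ := by congr 1; abel
      _ ≤ ‖x - q‖ + ‖t • w‖ := norm_add_le _ _
      _ < R := by linarith
  set M := (‖F2 q‖ + 1) + (‖F1 q‖ + 1) / δ with hM
  have hM0 : 0 < M := by positivity
  have key : ∀ x ∈ Metric.ball q (R / 2), F1 x ^ 2 ≤ 2 * M * B.a x := by
    intro x hx
    obtain ⟨-, -, -, hF1x, -⟩ := hball x (Metric.ball_subset_ball (by linarith) hx)
    have ht : |-(F1 x / M)| ≤ δ := by
      rw [abs_neg, abs_div, abs_of_pos hM0, div_le_iff₀ hM0]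
      have : (‖F1 q‖ + 1) / δ ≤ M := by
        rw [hM]
        have := norm_nonneg (F2 q)
        linarith
      rw [div_le_iff₀ hδ0] at this
      rw [Real.norm_eq_abs] at hF1x
      linarith
    set t := -(F1 x / M) with htdef
    have hb : ∀ s, |s| ≤ |t| → x + s • w ∈ Metric.ball q R := fun s hs => hline x hx s (hs.trans ht)
    have h3 := BE_taylor (β := fun s => -B.a (x + s • w)) (β1 := fun s => -F1 (x + s • w))
      (β2 := fun s => -F2 (x + s • w)) (t := t) (m := -M)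
      (fun s hs => (BE_line (B.smooth_a _ (hball _ (hb s hs)).1)).neg)
      (fun s hs => (BE_line (s1 _ (hball _ (hb s hs)).1)).neg)
      (fun s hs => by
        have h4 := (hball _ (hb s hs)).2.2.1
        have h5 := (le_abs_self (F2 (x + s • w)))
        rw [← Real.norm_eq_abs] at h5
        have h6 : 0 ≤ (‖F1 q‖ + 1) / δ := by positivity
        rw [hM]
        linarith)
    simp only [zero_smul, add_zero] at h3
    have h7 := (hball _ (hb t le_rfl)).2.1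
    have h8 : -B.a x - F1 x * t - M * t ^ 2 / 2 ≤ 0 := by nlinarith
    have h9 : F1 x * t = -(F1 x ^ 2 / M) := by rw [htdef]; ring
    have h10 : M * t ^ 2 / 2 = F1 x ^ 2 / M / 2 := by
      rw [htdef]; field_simp
    rw [h9, h10] at h8
    have h11 : F1 x ^ 2 / M ≤ 2 * B.a x := by linarith
    rw [div_le_iff₀ hM0] at h11
    linarith
  refine ⟨4 * M + 8 * (‖B.a q‖ + 1) * (‖B.om q w‖ + 1) ^ 2, ?_⟩
  filter_upwards [Metric.ball_mem_nhds q (show 0 < R / 2 by positivity)] with x hx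
  obtain ⟨hxW, ha, -, -, hab, hom, hcp⟩ := hball x (Metric.ball_subset_ball (by linarith) hx)
  have h1 := key x hx
  have h2 := B.da x hxW w
  have h3 : 2 * B.u x * B.cp x w = F1 x + 2 * B.a x * B.om x w := by
    simp only [hF1]
    rw [h2]; ring
  have h4 : (2 * B.u x * B.cp x w) ^ 2 ≤ 2 * F1 x ^ 2 + 8 * B.a x ^ 2 * B.om x w ^ 2 := by
    rw [h3]
    nlinarith [sq_nonneg (F1 x - 2 * B.a x * B.om x w)]
  have h5 : B.u x ^ 2 ≤ (2 * B.u x * B.cp x w) ^ 2 := by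
    have : 1 ≤ (2 * B.cp x w) ^ 2 := by nlinarith
    calc B.u x ^ 2 = B.u x ^ 2 * 1 := by ring
      _ ≤ B.u x ^ 2 * (2 * B.cp x w) ^ 2 := by gcongr
      _ = _ := by ring
  rw [Real.norm_eq_abs, abs_of_nonneg ha] at hab
  have h6 : B.om x w ^ 2 ≤ (‖B.om q w‖ + 1) ^ 2 := by
    rw [← sq_abs, ← Real.norm_eq_abs]
    gcongr
  have h7 : B.a x ^ 2 * B.om x w ^ 2 ≤ B.a x * (‖B.a q‖ + 1) * (‖B.om q w‖ + 1) ^ 2 := by
    rw [pow_two (B.a x)]
    gcongr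
  nlinarith
end Block

end Pool.Agent.helper25.B2
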