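import Mathlib
import Pool.Agent.helper25.B2.Sol
import Pool.Agent.helper25.B2.Block
import Pool.Agent.helper49.B2.BE

/-! # MP_b2b189_gt (S13780), b2:BK: near a scalar point with `h > 0`, `u^2` is `h a` up to `a^{3/2}` -/

set_option autoImplicit false

namespace Pool.Agent.helper25.B2

open Set Filter Topology Asymptotics

namespace Block

variable {E : Type*} [NormedAddCommGroup E] [NormedSpace ℝ E]

/-- at a point with `a = u = 0`: `du = h cp`. -/
theorem BK_du (B : Block E) {y : E} (hy : y ∈ B.W) (ha : B.a y = 0) (hu : B.u y = 0) (w : E) :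
    fderiv ℝ B.u y w = B.h y * B.cp y w := by
  have hda : fderiv ℝ B.a =ᶠ[𝓝 y] fun x => (-2 * B.a x) • B.om x + (2 * B.u x) • B.cp x := by
    filter_upwards [B.isOpen_W.mem_nhds hy] with x hx
    ext w
    rw [B.da x hx w]
    simp
  have h1 : HasFDerivAt (fun x => (-2 * B.a x) • B.om x + (2 * B.u x) • B.cp x)
      (((-2 * B.a y) • fderiv ℝ B.om y + ((-2 : ℝ) • fderiv ℝ B.a y).smulRight (B.om y)) +
        ((2 * B.u y) • fderiv ℝ B.cp y + ((2 : ℝ) • fderiv ℝ B.u y).smulRight (B.cp y))) y := by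
    have ea := (BS_diff (B.smooth_a y hy)).hasFDerivAt
    have eu := (BS_diff (B.smooth_u y hy)).hasFDerivAt
    have eo := (BS_diff (B.smooth_om y hy)).hasFDerivAt
    have ec := (BS_diff (B.smooth_cp y hy)).hasFDerivAt
    exact ((ea.const_mul (-2)).fun_smul eo).add ((eu.const_mul 2).fun_smul ec)
  have h2 : ∀ w w' : E, fderiv ℝ (fderiv ℝ B.a) y w w' = 2 * fderiv ℝ B.u y w * B.cp y w' := by
    intro w w'
    rw [hda.fderiv_eq, h1.fderiv]
    have h3 : fderiv ℝ B.a y w = 0 := by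
      rw [B.da y hy w, ha, hu]; ring
    simp [ha, hu, h3]
  have hsym : IsSymmSndFDerivAt ℝ B.a y :=
    (B.smooth_a y hy).isSymmSndFDerivAt (by
      simp only [minSmoothness_of_isRCLikeNormedField]
      exact WithTop.coe_le_coe.2 (le_top : (2 : ℕ∞) ≤ ⊤))
  have h4 := hsym w (B.Np y)
  rw [h2, h2, B.cp_Np y hy, B.du_Np y hy, hu] at h4
  linarith

/-- second derivative of `a` along `w` at a point with `a = u = 0`. -/
theorem BK_dda (B : Block E) {y : E} (hy : y ∈ B.W) (ha : B.a y = 0) (hu : B.u y = 0) (w : E) :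
    fderiv ℝ (fun x => fderiv ℝ B.a x w) y w = 2 * B.h y * B.cp y w ^ 2 := by
  have hda : (fun x => fderiv ℝ B.a x w) =ᶠ[𝓝 y] fun x => (-2 * B.a x) * B.om x w + (2 * B.u x) * B.cp x w := by
    filter_upwards [B.isOpen_W.mem_nhds hy] with x hx
    rw [B.da x hx w]
  rw [hda.fderiv_eq]
  have ea := (BS_diff (B.smooth_a y hy)).hasFDerivAt
  have eu := (BS_diff (B.smooth_u y hy)).hasFDerivAt
  have eo := (((BS_diff (B.smooth_om y hy))).clm_apply (differentiableAt_const w)).hasFDerivAt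
  have ec := (((BS_diff (B.smooth_cp y hy))).clm_apply (differentiableAt_const w)).hasFDerivAt
  have h1 := ((ea.const_mul (-2)).fun_mul eo).fun_add ((eu.const_mul 2).fun_mul ec)
  rw [h1.fderiv]
  have h3 : fderiv ℝ B.a y w = 0 := by
    rw [B.da y hy w, ha, hu]; ring
  simp only [_root_.add_apply, _root_.smul_apply, smul_eq_mul, ha, hu, h3,
    BK_du B hy ha hu w]
  ring

/-- `n` steps. -/
theorem BK_steps {α : ℕ → ℝ} {c K : ℝ} (hc : 0 ≤ c) (hK : 0 ≤ K) (h0 : α 0 ≤ 0)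
    (h : ∀ k, α (k + 1) ≤ α k * (1 + c) + K) (k : ℕ) : α k ≤ K * k * Real.exp (c * k) := by
  induction k with
  | zero => simpa using h0
  | succ k ih =>
    have h1 : 1 + c ≤ Real.exp c := by linarith [Real.add_one_le_exp c]
    have h2 : 1 ≤ Real.exp (c * (k + 1)) := Real.one_le_exp (by positivity)
    calc α (k + 1) ≤ α k * (1 + c) + K := h k
      _ ≤ (K * k * Real.exp (c * k)) * (1 + c) + K := by gcongr
      _ ≤ (K * k * Real.exp (c * k)) * Real.exp c + K * Real.exp (c * (k + 1)) := by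
          gcongr
          nlinarith
      _ = K * ↑(k + 1) * Real.exp (c * ↑(k + 1)) := by
          push_cast
          rw [show c * ((k : ℝ) + 1) = c * k + c by ring, Real.exp_add]
          ring

/-- Taylor estimate of order three. -/
theorem BK_taylor3 {φ φ1 φ2 φ3 : ℝ → ℝ} {t₀ M : ℝ}
    (h : ∀ s, |s| ≤ |t₀| → HasDerivAt φ (φ1 s) s) (h1 : ∀ s, |s| ≤ |t₀| → HasDerivAt φ1 (φ2 s) s)
    (h2 : ∀ s, |s| ≤ |t₀| → HasDerivAt φ2 (φ3 s) s) (h3 : ∀ s, |s| ≤ |t₀| → |φ3 s| ≤ M)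
    (e0 : φ t₀ = 0) (e1 : φ1 t₀ = 0) (e2 : φ2 t₀ = 0) : |φ 0| ≤ 8 * M * |t₀| ^ 3 := by
  have hM : 0 ≤ M := (abs_nonneg _).trans (h3 0 (by simp))
  have hconv : Convex ℝ {s : ℝ | |s| ≤ |t₀|} := by
    have : {s : ℝ | |s| ≤ |t₀|} = Icc (-|t₀|) |t₀| := by
      ext s; simp [abs_le]
    rw [this]
    exact convex_Icc _ _
  have hmem : t₀ ∈ {s : ℝ | |s| ≤ |t₀|} := le_refl |t₀|
  have gen : ∀ (f f' : ℝ → ℝ) (C : ℝ), 0 ≤ C → (∀ s, |s| ≤ |t₀| → HasDerivAt f (f' s) s) →
      (∀ s, |s| ≤ |t₀| → |f' s| ≤ C) → f t₀ = 0 → ∀ s, |s| ≤ |t₀| → |f s| ≤ 2 * C * |t₀| := by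
    intro f f' C hC hf hb hz s hs
    have := hconv.norm_image_sub_le_of_norm_hasDerivWithin_le (f := f) (f' := f') (C := C)
      (fun x hx => (hf x hx).hasDerivWithinAt) (fun x hx => by
        rw [Real.norm_eq_abs]; exact hb x hx) hmem hs
    rw [hz, sub_zero, Real.norm_eq_abs, Real.norm_eq_abs] at this
    have h4 : |s - t₀| ≤ |t₀| + |t₀| := (abs_sub _ _).trans (by gcongr)
    calc |f s| ≤ C * |s - t₀| := this
      _ ≤ C * (|t₀| + |t₀|) := by gcongr
      _ = _ := by ring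
  have g2 := gen φ2 φ3 M hM h2 h3 e2
  have g1 := gen φ1 φ2 _ (by positivity) h1 g2 e1
  have g0 := gen φ φ1 _ (by positivity) h g1 e0 0 (by simp)
  calc |φ 0| ≤ _ := g0
    _ = _ := by ring

/-- one step: an upper bound of the minimum over a line in a neighbouring point. -/
theorem BK_step {B : Block E} {R M : ℝ} {q w : E} (hM : 0 ≤ M)
    (hW : ∀ x ∈ Metric.ball q R, x ∈ B.W)
    (h2 : ∀ x ∈ Metric.ball q R, ‖fderiv ℝ (fderiv ℝ B.a) x‖ ≤ M)
    (hom : ∀ x ∈ Metric.ball q R, ‖B.om x‖ ≤ M) (hcp : ∀ x ∈ Metric.ball q R, ‖B.cp x‖ ≤ M)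
    (hcw : ∀ x ∈ Metric.ball q R, 1 / 2 < B.cp x w)
    {y z : E} (hy : y ∈ Metric.ball q R) (hyz : y + z ∈ Metric.ball q R) (ha : 0 ≤ B.a y)
    (hmin : fderiv ℝ B.a y w = 0) :
    B.a (y + z) ≤ B.a y * (1 + (2 * M + 4 * M * M * ‖w‖) * ‖z‖) + M * ‖z‖ ^ 2 := by
  have hyW := hW y hy
  -- the derivative at `y`
  have hu : |B.u y| ≤ 2 * (M * ‖w‖) * B.a y := by
    have h3 := B.da y hyW w
    rw [hmin] at h3
    have h4 : B.u y * B.cp y w = B.a y * B.om y w := by linarith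
    have h5 : |B.u y| * B.cp y w ≤ B.a y * (M * ‖w‖) := by
      have h6 : |B.u y| * B.cp y w = B.a y * |B.om y w| := by
        rw [← abs_of_pos ((by norm_num : (0 : ℝ) < 1 / 2).trans (hcw y hy)), ← abs_mul, h4, abs_mul,
          abs_of_nonneg ha]
      rw [h6]
      have h7 : |B.om y w| ≤ M * ‖w‖ := by
        rw [← Real.norm_eq_abs]
        exact ((B.om y).le_opNorm w).trans (by gcongr; exact hom y hy)
      gcongr
    have h8 := hcw y hy
    have h9 := abs_nonneg (B.u y)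
    nlinarith
  have hd : fderiv ℝ B.a y z ≤ B.a y * ((2 * M + 4 * M * M * ‖w‖) * ‖z‖) := by
    rw [B.da y hyW z]
    have h7 : |B.om y z| ≤ M * ‖z‖ := by
      rw [← Real.norm_eq_abs]
      exact ((B.om y).le_opNorm z).trans (by gcongr; exact hom y hy)
    have h8 : |B.cp y z| ≤ M * ‖z‖ := by
      rw [← Real.norm_eq_abs]
      exact ((B.cp y).le_opNorm z).trans (by gcongr; exact hcp y hy)
    have h9 : -2 * B.a y * B.om y z ≤ 2 * B.a y * (M * ‖z‖) := by
      have := (abs_le.1 h7).1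
      nlinarith
    have h10 : 2 * B.u y * B.cp y z ≤ 2 * (2 * (M * ‖w‖) * B.a y) * (M * ‖z‖) := by
      calc 2 * B.u y * B.cp y z ≤ |2 * B.u y * B.cp y z| := le_abs_self _
        _ = 2 * |B.u y| * |B.cp y z| := by rw [abs_mul, abs_mul]; norm_num
        _ ≤ _ := by gcongr
    linarith
  -- Taylor
  have hseg : ∀ t ∈ Icc (0 : ℝ) 1, y + t • z ∈ Metric.ball q R := by
    intro t ht
    have h11 := (convex_ball q R) hy hyz (sub_nonneg.2 ht.2) ht.1 (by ring)
    convert h11 using 1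
    rw [smul_add, ← add_assoc, ← add_smul]
    congr 1
    rw [show (1 : ℝ) - t + t = 1 by ring, one_smul]
  have h12 := BS_taylor (β := fun t => -B.a (y + t • z)) (β1 := fun t => -fderiv ℝ B.a (y + t • z) z)
    (β2 := fun t => -fderiv ℝ (fun x => fderiv ℝ B.a x z) (y + t • z) z) (T := 1) (m := -(M * ‖z‖ ^ 2))
    zero_le_one
    (fun t ht => (BE_line (B.smooth_a _ (hW _ (hseg t ht)))).neg)
    (fun t ht => (BE_line (BE_D z (B.smooth_a _ (hW _ (hseg t ht))))).neg)
    (fun t ht => by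
      have h13 : fderiv ℝ (fun x => fderiv ℝ B.a x z) (y + t • z) z =
          fderiv ℝ (fderiv ℝ B.a) (y + t • z) z z := by
        have h14 := (BS_diff (BS_fderiv (B.smooth_a _ (hW _ (hseg t ht))))).hasFDerivAt.clm_apply
          (hasFDerivAt_const z (y + t • z))
        rw [h14.fderiv]
        simp
      rw [h13]
      have h15 : |fderiv ℝ (fderiv ℝ B.a) (y + t • z) z z| ≤ M * ‖z‖ ^ 2 := by
        rw [← Real.norm_eq_abs]
        calc _ ≤ ‖fderiv ℝ (fderiv ℝ B.a) (y + t • z) z‖ * ‖z‖ := ContinuousLinearMap.le_opNorm _ _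
          _ ≤ (‖fderiv ℝ (fderiv ℝ B.a) (y + t • z)‖ * ‖z‖) * ‖z‖ := by
              gcongr; exact ContinuousLinearMap.le_opNorm _ _
          _ ≤ (M * ‖z‖) * ‖z‖ := by gcongr; exact h2 _ (hseg t ht)
          _ = _ := by ring
      linarith [(abs_le.1 h15).2])
  simp only [zero_smul, add_zero, one_smul, mul_one, one_pow] at h12
  have h16 : 0 ≤ M * ‖z‖ ^ 2 := by positivity
  linarith

/-- near a scalar point with `h > 0` every point is on a short `Np(q)`-segment ending in a zero of `a`. -/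
theorem BK_zero [CompleteSpace E] (B : Block E) (hA : B.A) {q : E} (hq : q ∈ B.W) (ha : B.a q = 0)
    (hb : B.b q = 0) (hh : 0 < B.h q) {δ₀ : ℝ} (hδ₀ : 0 < δ₀) :
    ∀ᶠ x in 𝓝 q, ∃ t : ℝ, |t| ≤ δ₀ ∧ B.a (x + t • B.Np q) = 0 := by
  set w := B.Np q with hw
  have hu : B.u q = 0 := hA.1 q hq ha
  set F1 : E → ℝ := fun x => fderiv ℝ B.a x w with hF1
  set F2 : E → ℝ := fun x => fderiv ℝ F1 x w with hF2
  have s1 : ∀ x ∈ B.W, ContDiffAt ℝ (⊤ : ℕ∞) F1 x := fun x hx => BE_D w (B.smooth_a x hx)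
  have s2 : ∀ x ∈ B.W, ContDiffAt ℝ (⊤ : ℕ∞) F2 x := fun x hx => BE_D w (s1 x hx)
  have hF2q : B.h q < F2 q := by
    have := BK_dda B hq ha hu w
    rw [hw, B.cp_Np q hq] at this
    simp only [hF2, hF1, hw]
    rw [this]; linarith
  have hF1q : F1 q = 0 := by
    simp only [hF1]
    rw [B.da q hq, ha, hu]; ring
  have scp : ContinuousAt (fun x => B.cp x w) q :=
    ((B.smooth_cp q hq).clm_apply contDiffAt_const).continuousAt
  have hcpq : 1 / 2 < B.cp q w := by
    rw [hw, B.cp_Np q hq]; norm_num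
  set M := (‖fderiv ℝ (fderiv ℝ B.a) q‖ + 1) + (‖B.om q‖ + 1) + (‖B.cp q‖ + 1) with hM
  have hM0 : 0 ≤ M := by positivity
  obtain ⟨R, hR, hball⟩ : ∃ R > 0, ∀ x ∈ Metric.ball q R, x ∈ B.W ∧ 0 ≤ B.a x ∧ B.h q < F2 x ∧
      ‖fderiv ℝ (fderiv ℝ B.a) x‖ ≤ M ∧ ‖B.om x‖ ≤ M ∧ ‖B.cp x‖ ≤ M ∧ 1 / 2 < B.cp x w := by
    have e : ∀ᶠ x in 𝓝 q, x ∈ B.W ∧ 0 ≤ B.a x ∧ B.h q < F2 x ∧
        ‖fderiv ℝ (fderiv ℝ B.a) x‖ ≤ M ∧ ‖B.om x‖ ≤ M ∧ ‖B.cp x‖ ≤ M ∧ 1 / 2 < B.cp x w := by
      filter_upwards [B.isOpen_W.mem_nhds hq, block_S B hA hq ha hb hh,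
        (s2 q hq).continuousAt.eventually_const_lt hF2q,
        BE_bdd (BS_fderiv (BS_fderiv (B.smooth_a q hq))).continuousAt,
        BE_bdd (B.smooth_om q hq).continuousAt, BE_bdd (B.smooth_cp q hq).continuousAt,
        scp.eventually_const_lt hcpq]
        with x h1 h2 h3 h4 h5 h6 h7
      have n1 := norm_nonneg (fderiv ℝ (fderiv ℝ B.a) q)
      have n2 := norm_nonneg (B.om q)
      have n3 := norm_nonneg (B.cp q)
      exact ⟨h1, h2.1, h3, by linarith, by linarith, by linarith, h7⟩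
    exact Metric.eventually_nhds_iff_ball.1 e
  have hw0 : 0 < ‖w‖ := by
    rw [norm_pos_iff]
    intro h0
    have := B.cp_Np q hq
    rw [← hw, h0] at this
    simp at this
  -- time step
  set δ := min δ₀ (R / (2 * ‖w‖)) with hδ
  have hδ0 : 0 < δ := lt_min hδ₀ (by positivity)
  have hδw : δ * ‖w‖ ≤ R / 2 := by
    calc δ * ‖w‖ ≤ R / (2 * ‖w‖) * ‖w‖ := by gcongr; exact min_le_right _ _
      _ = R / 2 := by field_simp
  have hline : ∀ x ∈ Metric.ball q (R / 2), ∀ t : ℝ, |t| ≤ δ → x + t • w ∈ Metric.ball q R := by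
    intro x hx t ht
    rw [Metric.mem_ball, dist_eq_norm] at hx ⊢
    have h1 : ‖t • w‖ ≤ R / 2 := by
      rw [norm_smul, Real.norm_eq_abs]
      exact le_trans (by gcongr) hδw
    calc ‖x + t • w - q‖ = ‖(x - q) + t • w‖ := by congr 1; abel
      _ ≤ ‖x - q‖ + ‖t • w‖ := norm_add_le _ _
      _ < R := by linarith
  have hend : ∀ t : ℝ, |t| = δ → 0 < B.a (q + t • w) := by
    intro t ht
    have hb : ∀ s, |s| ≤ |t| → q + s • w ∈ Metric.ball q R := fun s hs =>
      hline q (Metric.mem_ball_self (by positivity)) s (hs.trans ht.le)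
    have h3 := BE_taylor (β := fun s => B.a (q + s • w)) (β1 := fun s => F1 (q + s • w))
      (β2 := fun s => F2 (q + s • w)) (t := t) (m := B.h q)
      (fun s hs => (BE_line (B.smooth_a _ (hball _ (hb s hs)).1)))
      (fun s hs => (BE_line (s1 _ (hball _ (hb s hs)).1)))
      (fun s hs => (hball _ (hb s hs)).2.2.1.le)
    simp only [zero_smul, add_zero, ha, hF1q, zero_mul, zero_add] at h3
    have h4 : 0 < t ^ 2 := by
      rw [← sq_abs, ht]; positivity
    have : 0 < B.h q * t ^ 2 / 2 := by positivity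
    linarith
  have hcont : ∀ x ∈ Metric.ball q (R / 2), ∀ t : ℝ, |t| ≤ δ → ContinuousAt (fun t : ℝ => B.a (x + t • w)) t :=
    fun x hx t ht => (BE_line (B.smooth_a _ (hball _ (hline x hx t ht)).1)).continuousAt
  -- end points
  have hends : ∀ᶠ x in 𝓝 q, B.a x < B.a (x + δ • w) ∧ B.a x < B.a (x + (-δ) • w) := by
    have hc : ∀ t : ℝ, |t| = δ → ContinuousAt (fun x => B.a (x + t • w) - B.a x) q := by
      intro t ht
      have h1 := hline q (Metric.mem_ball_self (by positivity)) t ht.le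
      have h2 : ContinuousAt (fun x => B.a (x + t • w)) q :=
        ContinuousAt.comp' (f := fun x => x + t • w) (g := B.a)
          (B.smooth_a _ (hball _ h1).1).continuousAt (by fun_prop)
      exact h2.sub (B.smooth_a q hq).continuousAt
    have hc' : ∀ t : ℝ, |t| = δ → ∀ᶠ x in 𝓝 q, 0 < B.a (x + t • w) - B.a x := fun t ht =>
      (hc t ht).eventually_const_lt (show 0 < B.a (q + t • w) - B.a q by
        rw [ha, sub_zero]; exact hend t ht)
    have h1 := hc' δ (abs_of_pos hδ0)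
    have h2 := hc' (-δ) (by rw [abs_neg]; exact abs_of_pos hδ0)
    filter_upwards [h1, h2] with x h3 h4
    exact ⟨by linarith, by linarith⟩
  obtain ⟨ρ, hρ, hρball⟩ := Metric.eventually_nhds_iff_ball.1 hends
  set r := min ρ (R / 2) with hr
  have hr0 : 0 < r := lt_min hρ (by positivity)
  -- minimizers
  have hminim : ∀ x ∈ Metric.ball q r, ∃ t : ℝ, |t| ≤ δ ∧ (∀ s : ℝ, |s| ≤ δ → B.a (x + t • w) ≤ B.a (x + s • w)) ∧
      fderiv ℝ B.a (x + t • w) w = 0 := by
    intro x hx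
    have hx2 : x ∈ Metric.ball q (R / 2) := Metric.ball_subset_ball (min_le_right _ _) hx
    have hxρ : x ∈ Metric.ball q ρ := Metric.ball_subset_ball (min_le_left _ _) hx
    obtain ⟨t, ht, hmin⟩ := (isCompact_Icc (a := -δ) (b := δ)).exists_isMinOn
      (nonempty_Icc.2 (by linarith)) (f := fun t : ℝ => B.a (x + t • w))
      (fun t ht => (hcont x hx2 t (abs_le.2 ht)).continuousWithinAt)
    have hmin' : ∀ s : ℝ, |s| ≤ δ → B.a (x + t • w) ≤ B.a (x + s • w) := fun s hs =>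
      hmin (abs_le.1 hs)
    have h0 := hmin' 0 (by simpa using hδ0.le)
    simp only [zero_smul, add_zero] at h0
    have hne1 : t ≠ δ := by
      intro h; rw [h] at h0; linarith [(hρball x hxρ).1]
    have hne2 : t ≠ -δ := by
      intro h; rw [h] at h0; linarith [(hρball x hxρ).2]
    have hint : t ∈ Ioo (-δ) δ := ⟨lt_of_le_of_ne ht.1 (Ne.symm hne2), lt_of_le_of_ne ht.2 hne1⟩
    refine ⟨t, abs_le.2 ht, hmin', ?_⟩
    have hloc : IsLocalMin (fun t : ℝ => B.a (x + t • w)) t := by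
      filter_upwards [isOpen_Ioo.mem_nhds hint] with s hs
      exact hmin' s (abs_le.2 ⟨hs.1.le, hs.2.le⟩)
    exact hloc.hasDerivAt_eq_zero (BE_line (B.smooth_a _ (hball _ (hline x hx2 t (abs_le.2 ht))).1))
  choose! τ hτ1 hτ2 hτ3 using hminim
  -- the step
  set c := 2 * M + 4 * M * M * ‖w‖ with hc
  have hc0 : 0 ≤ c := by positivity
  have hstep : ∀ x ∈ Metric.ball q r, ∀ z : E, x + z ∈ Metric.ball q r →
      B.a (x + z + τ (x + z) • w) ≤ B.a (x + τ x • w) * (1 + c * ‖z‖) + M * ‖z‖ ^ 2 := by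
    intro x hx z hxz
    have hsub : Metric.ball q r ⊆ Metric.ball q (R / 2) := Metric.ball_subset_ball (min_le_right _ _)
    have h1 := hτ2 (x + z) hxz (τ x) (hτ1 x hx)
    have h2 : x + z + τ x • w = (x + τ x • w) + z := by abel
    rw [h2] at h1
    refine h1.trans ?_
    have hm := hline x (hsub hx) (τ x) (hτ1 x hx)
    refine BK_step (B := B) (R := R) (q := q) hM0 (fun x hx => (hball x hx).1)
      (fun x hx => (hball x hx).2.2.2.1) (fun x hx => (hball x hx).2.2.2.2.1)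
      (fun x hx => (hball x hx).2.2.2.2.2.1) (fun x hx => (hball x hx).2.2.2.2.2.2) hm ?_
      (hball _ hm).2.1 (hτ3 x hx)
    rw [← h2]
    exact hline _ (hsub hxz) _ (hτ1 x hx)
  filter_upwards [Metric.ball_mem_nhds q hr0] with x hx
  refine ⟨τ x, (hτ1 x hx).trans (min_le_left _ _), le_antisymm ?_ ?_⟩
  swap
  · exact (hball _ (hline x (Metric.ball_subset_ball (min_le_right _ _) hx) _ (hτ1 x hx))).2.1
  -- subdivide
  have hN : ∀ N : ℕ, 0 < N → B.a (x + τ x • w) ≤ M * ‖x - q‖ ^ 2 / N * Real.exp (c * ‖x - q‖) := by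
    intro N hN
    have hN' : (0 : ℝ) < N := by exact_mod_cast hN
    set z := (1 / (N : ℝ)) • (x - q) with hz
    have hzn : ‖z‖ = ‖x - q‖ / N := by
      rw [hz, norm_smul, Real.norm_eq_abs, abs_of_pos (by positivity)]
      ring
    have hmem : ∀ k : ℕ, k ≤ N → q + (k : ℝ) • z ∈ Metric.ball q r := by
      intro k hk
      rw [Metric.mem_ball, dist_eq_norm] at hx ⊢
      rw [add_sub_cancel_left, norm_smul, hzn, Real.norm_eq_abs, abs_of_nonneg (by positivity)]
      refine lt_of_le_of_lt ?_ hx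
      rw [mul_div_assoc']
      rw [div_le_iff₀ hN', mul_comm]
      gcongr
    set α : ℕ → ℝ := fun k => B.a (q + ((min k N : ℕ) : ℝ) • z + τ (q + ((min k N : ℕ) : ℝ) • z) • w) with hα
    have hanon : ∀ k, 0 ≤ α k := by
      intro k
      have h1 := hmem (min k N) (min_le_right _ _)
      exact (hball _ (hline _ (Metric.ball_subset_ball (min_le_right _ _) h1) _ (hτ1 _ h1))).2.1
    have hα0 : α 0 ≤ 0 := by
      simp only [hα, Nat.zero_min, Nat.cast_zero, zero_smul, add_zero]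
      have := hτ2 q (Metric.mem_ball_self hr0) 0 (by simpa using hδ0.le)
      simpa only [zero_smul, add_zero, ha] using this
    have hrec : ∀ k, α (k + 1) ≤ α k * (1 + c * ‖z‖) + M * ‖z‖ ^ 2 := by
      intro k
      rcases le_or_gt N k with hk | hk
      · have e1 : min (k + 1) N = N := min_eq_right (by omega)
        have e2 : min k N = N := min_eq_right hk
        have e3 : α (k + 1) = α k := by simp only [hα, e1, e2]
        rw [e3]
        have := hanon k
        have h5 : 0 ≤ α k * (c * ‖z‖) := by positivity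
        have h6 : 0 ≤ M * ‖z‖ ^ 2 := by positivity
        linarith
      · have e1 : min (k + 1) N = k + 1 := min_eq_left (by omega)
        have e2 : min k N = k := min_eq_left hk.le
        have h1 := hstep (q + (k : ℝ) • z) (hmem k hk.le) z (by
          have := hmem (k + 1) (by omega)
          convert this using 1
          push_cast
          rw [add_smul, one_smul]; abel)
        simp only [hα, e1, e2]
        have e3 : q + ((k + 1 : ℕ) : ℝ) • z = q + (k : ℝ) • z + z := by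
          push_cast
          rw [add_smul, one_smul]; abel
        rw [e3]
        exact h1
    have h1 := BK_steps (α := α) (c := c * ‖z‖) (K := M * ‖z‖ ^ 2) (by positivity) (by positivity) hα0 hrec N
    have h2 : α N = B.a (x + τ x • w) := by
      have h3 : q + (N : ℝ) • z = x := by
        rw [hz, smul_smul, mul_one_div_cancel hN'.ne', one_smul]; abel
      simp only [hα, min_self, h3]
    rw [h2, hzn] at h1
    refine h1.trans (le_of_eq ?_)
    have h4 : c * (‖x - q‖ / N) * N = c * ‖x - q‖ := by field_simp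
    rw [h4]
    field_simp
  by_contra hcon
  push Not at hcon
  set K := M * ‖x - q‖ ^ 2 * Real.exp (c * ‖x - q‖) with hK
  obtain ⟨N, hNK⟩ := exists_nat_gt (K / B.a (x + τ x • w))
  have hKnn : 0 ≤ K := by positivity
  have hN0 : 0 < N := by
    have : (0 : ℝ) < N := lt_of_le_of_lt (by positivity) hNK
    exact_mod_cast this
  have hN' : (0 : ℝ) < N := by exact_mod_cast hN0
  have h1 := hN N hN0
  rw [div_lt_iff₀ hcon] at hNK
  have h2 : M * ‖x - q‖ ^ 2 / N * Real.exp (c * ‖x - q‖) = K / N := by rw [hK]; ring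
  rw [h2, le_div_iff₀ hN'] at h1
  linarith

/-- BK: near a scalar point with `h > 0`, `u^2` is `h a` up to `a^{3/2}`. -/
theorem block_K [CompleteSpace E] (B : Block E) (hA : B.A) {q : E} (hq : q ∈ B.W) (ha : B.a q = 0)
    (hb : B.b q = 0) (hh : 0 < B.h q) :
    ∃ C : ℝ, ∀ᶠ x in 𝓝 q, (B.u x ^ 2 - B.h x * B.a x) ^ 2 ≤ C * B.a x ^ 3 := by
  set w := B.Np q with hw
  have hu : B.u q = 0 := hA.1 q hq ha
  set F1 : E → ℝ := fun x => fderiv ℝ B.a x w with hF1
  set F2 : E → ℝ := fun x => fderiv ℝ F1 x w with hF2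
  set U1 : E → ℝ := fun x => fderiv ℝ B.u x w with hU1
  set U2 : E → ℝ := fun x => fderiv ℝ U1 x w with hU2
  set H1 : E → ℝ := fun x => fderiv ℝ B.h x w with hH1
  set H2 : E → ℝ := fun x => fderiv ℝ H1 x w with hH2
  set Φ : E → ℝ := fun x => B.u x ^ 2 - B.h x * B.a x with hΦ
  set Φ1 : E → ℝ := fun x => 2 * B.u x * U1 x - (H1 x * B.a x + B.h x * F1 x) with hΦ1
  set Φ2 : E → ℝ := fun x => 2 * U1 x * U1 x + 2 * B.u x * U2 x -
    (H2 x * B.a x + 2 * H1 x * F1 x + B.h x * F2 x) with hΦ2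
  set Φ3 : E → ℝ := fun x => fderiv ℝ Φ2 x w with hΦ3
  have s1 : ∀ x ∈ B.W, ContDiffAt ℝ (⊤ : ℕ∞) F1 x := fun x hx => BE_D w (B.smooth_a x hx)
  have s2 : ∀ x ∈ B.W, ContDiffAt ℝ (⊤ : ℕ∞) F2 x := fun x hx => BE_D w (s1 x hx)
  have t1 : ∀ x ∈ B.W, ContDiffAt ℝ (⊤ : ℕ∞) U1 x := fun x hx => BE_D w (B.smooth_u x hx)
  have t2 : ∀ x ∈ B.W, ContDiffAt ℝ (⊤ : ℕ∞) U2 x := fun x hx => BE_D w (t1 x hx)
  have r1 : ∀ x ∈ B.W, ContDiffAt ℝ (⊤ : ℕ∞) H1 x := fun x hx => BE_D w (B.smooth_h x hx)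
  have r2 : ∀ x ∈ B.W, ContDiffAt ℝ (⊤ : ℕ∞) H2 x := fun x hx => BE_D w (r1 x hx)
  have p2 : ∀ x ∈ B.W, ContDiffAt ℝ (⊤ : ℕ∞) Φ2 x := fun x hx => by
    have c1 := s1 x hx
    have c2 := s2 x hx
    have c3 := t1 x hx
    have c4 := t2 x hx
    have c5 := r1 x hx
    have c6 := r2 x hx
    have c7 := B.smooth_a x hx
    have c8 := B.smooth_u x hx
    have c9 := B.smooth_h x hx
    fun_prop
  have p3 : ∀ x ∈ B.W, ContDiffAt ℝ (⊤ : ℕ∞) Φ3 x := fun x hx => BE_D w (p2 x hx)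
  have hF2q : B.h q < F2 q := by
    have := BK_dda B hq ha hu w
    rw [hw, B.cp_Np q hq] at this
    simp only [hF2, hF1, hw]
    rw [this]; linarith
  set M := ‖Φ3 q‖ + 1 with hM
  have hM0 : 0 ≤ M := by positivity
  obtain ⟨R, hR, hball⟩ : ∃ R > 0, ∀ x ∈ Metric.ball q R, x ∈ B.W ∧ 0 ≤ B.a x ∧ B.h q < F2 x ∧
      ‖Φ3 x‖ ≤ M := by
    have e : ∀ᶠ x in 𝓝 q, x ∈ B.W ∧ 0 ≤ B.a x ∧ B.h q < F2 x ∧ ‖Φ3 x‖ ≤ M := by
      filter_upwards [B.isOpen_W.mem_nhds hq, block_S B hA hq ha hb hh,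
        (s2 q hq).continuousAt.eventually_const_lt hF2q,
        BE_bdd (p3 q hq).continuousAt]
        with x h1 h2 h3 h4
      exact ⟨h1, h2.1, h3, h4⟩
    exact Metric.eventually_nhds_iff_ball.1 e
  have hw0 : 0 < ‖w‖ := by
    rw [norm_pos_iff]
    intro h0
    have := B.cp_Np q hq
    rw [← hw, h0] at this
    simp at this
  set δ := R / (4 * ‖w‖) with hδ
  have hδ0 : 0 < δ := by positivity
  have hline : ∀ x ∈ Metric.ball q (R / 2), ∀ t : ℝ, |t| ≤ 2 * δ → x + t • w ∈ Metric.ball q R := by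
    intro x hx t ht
    rw [Metric.mem_ball, dist_eq_norm] at hx ⊢
    have h1 : ‖t • w‖ ≤ R / 2 := by
      rw [norm_smul, Real.norm_eq_abs]
      calc |t| * ‖w‖ ≤ (2 * δ) * ‖w‖ := by gcongr
        _ = R / 2 := by rw [hδ]; field_simp; norm_num
    calc ‖x + t • w - q‖ = ‖(x - q) + t • w‖ := by congr 1; abel
      _ ≤ ‖x - q‖ + ‖t • w‖ := norm_add_le _ _
      _ < R := by linarith
  refine ⟨(8 * M) ^ 2 * (2 / B.h q) ^ 3, ?_⟩
  filter_upwards [BK_zero B hA hq ha hb hh hδ0, Metric.ball_mem_nhds q (show 0 < R / 2 by positivity)]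
    with x ⟨t, ht, hz⟩ hx
  rw [← hw] at hz
  have hb : ∀ s, |s| ≤ |t| → x + s • w ∈ Metric.ball q R := fun s hs => hline x hx s (by linarith)
  have hyb := hb t le_rfl
  have hyW := (hball _ hyb).1
  have huy := hA.1 _ hyW hz
  have hF1y : F1 (x + t • w) = 0 := by
    simp only [hF1]
    rw [B.da _ hyW, hz, huy]; ring
  have hF2y : F2 (x + t • w) = 2 * B.h (x + t • w) * B.cp (x + t • w) w ^ 2 := BK_dda B hyW hz huy w
  have hU1y : U1 (x + t • w) = B.h (x + t • w) * B.cp (x + t • w) w := BK_du B hyW hz huy w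
  -- upper bound for Φ
  have e1 : |Φ x| ≤ 8 * M * |t| ^ 3 := by
    have h3 := BK_taylor3 (φ := fun s => Φ (x + s • w)) (φ1 := fun s => Φ1 (x + s • w))
      (φ2 := fun s => Φ2 (x + s • w)) (φ3 := fun s => Φ3 (x + s • w)) (t₀ := t) (M := M)
      (fun s hs => by
        have hW := (hball _ (hb s hs)).1
        refine (((BE_line (B.smooth_u _ hW)).fun_pow 2).fun_sub
          ((BE_line (B.smooth_h _ hW)).fun_mul (BE_line (B.smooth_a _ hW)))).congr_deriv ?_
        simp only [hΦ1, hU1, hF1, hH1]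
        push_cast
        ring)
      (fun s hs => by
        have hW := (hball _ (hb s hs)).1
        refine ((((BE_line (B.smooth_u _ hW)).const_mul 2).fun_mul (BE_line (t1 _ hW))).fun_sub
          (((BE_line (r1 _ hW)).fun_mul (BE_line (B.smooth_a _ hW))).fun_add
            ((BE_line (B.smooth_h _ hW)).fun_mul (BE_line (s1 _ hW))))).congr_deriv ?_
        simp only [hΦ2, hU1, hF1, hH1, hU2, hF2, hH2]
        ring)
      (fun s hs => BE_line (p2 _ (hball _ (hb s hs)).1))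
      (fun s hs => by
        rw [← Real.norm_eq_abs]; exact (hball _ (hb s hs)).2.2.2)
      (by simp only [hΦ, hz, huy]; ring)
      (by simp only [hΦ1, hz, huy, hF1y]; ring)
      (by simp only [hΦ2, hz, huy, hF1y, hF2y, hU1y]; ring)
    simpa only [zero_smul, add_zero] using h3
  -- lower bound for a
  have e2 : B.h q * t ^ 2 / 2 ≤ B.a x := by
    have hs' : ∀ s, |s| ≤ |-t| → |t + s| ≤ 2 * δ := by
      intro s hs
      rw [abs_neg] at hs
      calc |t + s| ≤ |t| + |s| := abs_add_le _ _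
        _ ≤ 2 * δ := by linarith
    have hb' : ∀ s, |s| ≤ |-t| → (x + t • w) + s • w ∈ Metric.ball q R := fun s hs => by
      have := hline x hx (t + s) (hs' s hs)
      rwa [add_smul, ← add_assoc] at this
    have h3 := BE_taylor (β := fun s => B.a ((x + t • w) + s • w)) (β1 := fun s => F1 ((x + t • w) + s • w))
      (β2 := fun s => F2 ((x + t • w) + s • w)) (t := -t) (m := B.h q)
      (fun s hs => (BE_line (B.smooth_a _ (hball _ (hb' s hs)).1)))
      (fun s hs => (BE_line (s1 _ (hball _ (hb' s hs)).1)))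
      (fun s hs => (hball _ (hb' s hs)).2.2.1.le)
    simp only [zero_smul, add_zero, hz, hF1y, zero_mul, zero_add] at h3
    have h4 : x + t • w + -t • w = x := by
      rw [neg_smul]; abel
    rw [h4] at h3
    linarith
  have e3 : t ^ 2 ≤ 2 / B.h q * B.a x := by
    rw [div_mul_eq_mul_div, le_div_iff₀ hh]
    linarith
  have ha0 : 0 ≤ B.a x := by
    refine le_trans ?_ e2
    positivity
  calc (B.u x ^ 2 - B.h x * B.a x) ^ 2 = |Φ x| ^ 2 := by rw [sq_abs]
    _ ≤ (8 * M * |t| ^ 3) ^ 2 := by gcongr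
    _ = (8 * M) ^ 2 * (t ^ 2) ^ 3 := by rw [← sq_abs t]; ring
    _ ≤ (8 * M) ^ 2 * (2 / B.h q * B.a x) ^ 3 := by gcongr
    _ = (8 * M) ^ 2 * (2 / B.h q) ^ 3 * B.a x ^ 3 := by ring

end Block

end Pool.Agent.helper25.B2
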