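import Mathlib
import Pool.Agent.helper25.B2.Sol
import Pool.Agent.helper25.B2.Block
import Pool.Agent.helper58.B2.FG
import Pool.Agent.helper49.B2.BK

/-! # MP_b2b189_gt (S13780), b2:BX: the `-X`-curves near a scalar point with `h > 0` -/

set_option autoImplicit false

namespace Pool.Agent.helper25.B2

open Set Filter Topology Asymptotics

/-- forward global existence from a uniform local existence time. -/
theorem BX_global {E : Type*} [NormedAddCommGroup E] [NormedSpace ℝ E] {X : E → E} {Ω D : Set E}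
    (hΩ : IsOpen Ω) (hX : ∀ x ∈ Ω, ContDiffAt ℝ 1 X x) {δ : ℝ} (hδ : 0 < δ)
    (hu : ∀ y ∈ D, ∃ γ : ℝ → E, γ 0 = y ∧ Sol X Ω γ (Ioo (-δ) δ)) {x₀ : E} (hx₀ : x₀ ∈ D)
    (hK : ∀ T > 0, ∀ γ : ℝ → E, γ 0 = x₀ → Sol X Ω γ (Ioo (-δ) T) → ∀ t ∈ Ico 0 T, γ t ∈ D) :
    ∃ γ : ℝ → E, γ 0 = x₀ ∧ Sol X Ω γ (Ioi (-δ)) := by
  have hP : ∀ n : ℕ, ∃ γ : ℝ → E, γ 0 = x₀ ∧ Sol X Ω γ (Ioo (-δ) (δ + n * (δ / 2))) := by
    intro n
    induction n with
    | zero =>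
      obtain ⟨γ, h1, h2⟩ := hu x₀ hx₀
      exact ⟨γ, h1, by simpa using h2⟩
    | succ n ih =>
      obtain ⟨γ, h1, h2⟩ := ih
      set T := δ + n * (δ / 2) with hT
      have hTδ : δ ≤ T := by
        have : (0 : ℝ) ≤ n * (δ / 2) := by positivity
        linarith
      obtain ⟨η, h3, h4⟩ := hu (γ (T - δ / 2)) (hK T (by linarith) γ h1 h2 _ ⟨by linarith, by linarith⟩)
      have g1 := FG_glue hΩ hX (t₁ := T - δ / 2) h2 (FG_shift h4 (T - δ / 2)) ⟨by linarith, by linarith⟩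
        ⟨by linarith, by linarith⟩ (by rw [sub_self, h3])
      refine ⟨_, ?_, g1.mono (Ioo_subset_Ioo le_rfl ?_)⟩
      · rw [if_pos (by linarith)]; exact h1
      · push_cast
        rw [hT]; linarith
  choose Γ hΓ0 hΓ using hP
  have hcons : ∀ m n : ℕ, m ≤ n → EqOn (Γ m) (Γ n) (Ioo (-δ) (δ + m * (δ / 2))) := by
    intro m n hmn
    have hmn' : (m : ℝ) ≤ n := by exact_mod_cast hmn
    have hm0 : (0 : ℝ) ≤ m := Nat.cast_nonneg m
    refine sol_unique hΩ hX ordConnected_Ioo (hΓ m) ((hΓ n).mono (Ioo_subset_Ioo le_rfl (by gcongr)))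
      (t₀ := 0) ⟨by linarith, by positivity⟩ ?_
    rw [hΓ0, hΓ0]
  have hbd : ∀ s t : ℝ, s ≤ t → s < δ + (⌈t / (δ / 2)⌉₊ : ℝ) * (δ / 2) := by
    intro s t hst
    have h1 := Nat.le_ceil (t / (δ / 2))
    rw [div_le_iff₀ (by positivity)] at h1
    linarith
  refine ⟨fun t => Γ ⌈t / (δ / 2)⌉₊ t, ?_, ?_⟩
  · exact hΓ0 _
  · intro t ht
    have ht' : -δ < t := ht
    set N := ⌈(t + 1) / (δ / 2)⌉₊ with hN
    have e : (fun t => Γ ⌈t / (δ / 2)⌉₊ t) =ᶠ[𝓝 t] Γ N := by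
      filter_upwards [Ioo_mem_nhds ht' (show t < t + 1 by linarith)] with s hs
      refine hcons _ _ (Nat.ceil_le_ceil (by gcongr; exact hs.2.le)) ⟨hs.1, hbd s s le_rfl⟩
    exact FG_congr (η := fun t => Γ ⌈t / (δ / 2)⌉₊ t)
      (hΓ N t ⟨ht', hbd t (t + 1) (by linarith)⟩) e

/-- integral estimate along an exponentially decaying function. -/
theorem BX_decay {F : Type*} [NormedAddCommGroup F] [NormedSpace ℝ F] {S S' : ℝ → ℝ} {f f' : ℝ → F}
    {c K T : ℝ} (hc : 0 < c) (hK : 0 ≤ K) (hS : ∀ t ∈ Icc 0 T, HasDerivAt S (S' t) t)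
    (hS' : ∀ t ∈ Icc 0 T, S' t ≤ -c * S t) (hS0 : ∀ t ∈ Icc 0 T, 0 ≤ S t)
    (hf : ∀ t ∈ Icc 0 T, HasDerivAt f (f' t) t) (hf' : ∀ t ∈ Icc 0 T, ‖f' t‖ ≤ K * S t)
    (hT : 0 ≤ T) : ‖f T - f 0‖ ≤ K / c * S 0 := by
  have h1 := image_norm_le_of_norm_deriv_right_le_deriv_boundary' (f := fun t => f t - f 0) (f' := f')
    (a := 0) (b := T) (B := fun t => K / c * (S 0 - S t)) (B' := fun t => K / c * (-S' t))
    (fun t ht => ((hf t ht).sub_const _).continuousAt.continuousWithinAt)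
    (fun t ht => ((hf t (Ico_subset_Icc_self ht)).sub_const _).hasDerivWithinAt)
    (by simp)
    (fun t ht => (((hS t ht).const_sub (S 0)).const_mul _).continuousAt.continuousWithinAt)
    (fun t ht => (((hS t (Ico_subset_Icc_self ht)).const_sub (S 0)).const_mul _).hasDerivWithinAt)
    (fun t ht => by
      have ht' := Ico_subset_Icc_self ht
      have h2 := hS' t ht'
      refine (hf' t ht').trans ?_
      rw [div_mul_eq_mul_div, le_div_iff₀ hc]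
      have : K * (c * S t) ≤ K * (-S' t) := by gcongr; linarith
      linarith) (right_mem_Icc.2 hT)
  refine h1.trans ?_
  have h3 := hS0 T (right_mem_Icc.2 hT)
  have h4 : 0 ≤ K / c := by positivity
  nlinarith

namespace Block

variable {E : Type*} [NormedAddCommGroup E] [NormedSpace ℝ E]

/-- The field `X = grad s = u Np + v Nm`. -/
def X (B : Block E) (x : E) : E := B.u x • B.Np x + B.v x • B.Nm x

/-- estimates on an open set. -/
structure BXGood (B : Block E) (Ω : Set E) (c K : ℝ) : Prop where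
  W : ∀ x ∈ Ω, x ∈ B.W
  a0 : ∀ x ∈ Ω, 0 ≤ B.a x
  b0 : ∀ x ∈ Ω, 0 ≤ B.b x
  da1 : ∀ x ∈ Ω, 2 * B.a x * B.om x (B.X x) - 2 * B.u x ^ 2 ≤ -c * B.a x
  db1 : ∀ x ∈ Ω, -2 * B.b x * B.om x (B.X x) - 2 * B.v x ^ 2 ≤ -c * B.b x
  da2 : ∀ x ∈ Ω, -K * B.a x ≤ 2 * B.a x * B.om x (B.X x) - 2 * B.u x ^ 2
  db2 : ∀ x ∈ Ω, -K * B.b x ≤ -2 * B.b x * B.om x (B.X x) - 2 * B.v x ^ 2
  nX : ∀ x ∈ Ω, ‖B.X x‖ ≤ K * (√(B.a x) + √(B.b x))
  rat : ∀ x ∈ Ω, 0 < B.a x → 0 < B.b x →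
    |-4 * B.om x (B.X x) - 2 * (B.v x ^ 2 / B.b x) + 2 * (B.u x ^ 2 / B.a x)| ≤ K * (√(B.a x) + √(B.b x))

theorem BX_mono_pos {α α' : ℝ → ℝ} {K T : ℝ} (h : ∀ t ∈ Icc 0 T, HasDerivAt α (α' t) t)
    (h1 : ∀ t ∈ Icc 0 T, -K * α t ≤ α' t) (hT : 0 ≤ T) : α 0 ≤ α T * Real.exp (K * T) := by
  have hd : ∀ t ∈ Icc 0 T, HasDerivAt (fun t => α t * Real.exp (K * t))
      (α' t * Real.exp (K * t) + α t * (Real.exp (K * t) * K)) t := by
    intro t ht
    have h2 : HasDerivAt (fun t : ℝ => Real.exp (K * t)) (Real.exp (K * t) * K) t := by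
      have := ((hasDerivAt_id t).const_mul K).exp
      simpa using this
    exact (h t ht).fun_mul h2
  have hmono : MonotoneOn (fun t => α t * Real.exp (K * t)) (Icc 0 T) := by
    refine monotoneOn_of_deriv_nonneg (convex_Icc 0 T)
      (fun t ht => (hd t ht).continuousAt.continuousWithinAt)
      (fun t ht => ((hd t (interior_subset ht)).differentiableAt).differentiableWithinAt) ?_
    intro t ht
    have ht' := interior_subset ht
    rw [(hd t ht').deriv]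
    have h4 := h1 t ht'
    have h5 := Real.exp_pos (K * t)
    have h6 : 0 ≤ (α' t + K * α t) * Real.exp (K * t) := mul_nonneg (by linarith) h5.le
    linarith
  have := hmono (left_mem_Icc.2 hT) (right_mem_Icc.2 hT) hT
  simpa using this

theorem BX_da (B : Block E) {x : E} (hx : x ∈ B.W) :
    fderiv ℝ B.a x (-B.X x) = 2 * B.a x * B.om x (B.X x) - 2 * B.u x ^ 2 := by
  rw [map_neg, B.da x hx]
  have : B.cp x (B.X x) = B.u x := by
    simp only [X, map_add, map_smul, B.cp_Np x hx, B.cp_Nm x hx, smul_eq_mul]; ring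
  rw [this]; ring

theorem BX_db (B : Block E) {x : E} (hx : x ∈ B.W) :
    fderiv ℝ B.b x (-B.X x) = -2 * B.b x * B.om x (B.X x) - 2 * B.v x ^ 2 := by
  rw [map_neg, B.db x hx]
  have : B.cm x (B.X x) = B.v x := by
    simp only [X, map_add, map_smul, B.cm_Np x hx, B.cm_Nm x hx, smul_eq_mul]; ring
  rw [this]; ring

/-- the estimates along curves. -/
theorem BX_est {B : Block E} {Ω : Set E} {c K : ℝ} (hc : 0 < c) (hK : 0 ≤ K) (hG : B.BXGood Ω c K)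
    {T : ℝ} {γ : ℝ → E} (hγ : ∀ t ∈ Icc 0 T, γ t ∈ Ω ∧ HasDerivAt γ (-B.X (γ t)) t)
    (ha : 0 < B.a (γ 0)) (hb : 0 < B.b (γ 0)) (hT : 0 ≤ T) :
    0 < B.a (γ T) ∧ 0 < B.b (γ T) ∧
      ‖γ T - γ 0‖ ≤ K / (c / 2) * (√(B.a (γ 0)) + √(B.b (γ 0))) ∧
      |Real.log (B.b (γ T) / B.a (γ T)) - Real.log (B.b (γ 0) / B.a (γ 0))| ≤
        K / (c / 2) * (√(B.a (γ 0)) + √(B.b (γ 0))) ∧
      B.a (γ T) * Real.exp (c * T) ≤ B.a (γ 0) ∧ B.b (γ T) * Real.exp (c * T) ≤ B.b (γ 0) := by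
  have da : ∀ t ∈ Icc 0 T, HasDerivAt (fun t => B.a (γ t))
      (2 * B.a (γ t) * B.om (γ t) (B.X (γ t)) - 2 * B.u (γ t) ^ 2) t := by
    intro t ht
    obtain ⟨h1, h2⟩ := hγ t ht
    have h3 := BS_comp (BS_diff (B.smooth_a _ (hG.W _ h1))) h2
    rwa [BX_da B (hG.W _ h1)] at h3
  have db : ∀ t ∈ Icc 0 T, HasDerivAt (fun t => B.b (γ t))
      (-2 * B.b (γ t) * B.om (γ t) (B.X (γ t)) - 2 * B.v (γ t) ^ 2) t := by
    intro t ht
    obtain ⟨h1, h2⟩ := hγ t ht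
    have h3 := BS_comp (BS_diff (B.smooth_b _ (hG.W _ h1))) h2
    rwa [BX_db B (hG.W _ h1)] at h3
  have pa : ∀ t ∈ Icc 0 T, 0 < B.a (γ t) := by
    intro t ht
    have h1 := BX_mono_pos (α := fun t => B.a (γ t)) (T := t) (K := K)
      (fun s hs => da s ⟨hs.1, hs.2.trans ht.2⟩)
      (fun s hs => hG.da2 _ (hγ s ⟨hs.1, hs.2.trans ht.2⟩).1) ht.1
    have h2 := Real.exp_pos (K * t)
    have h3 : 0 < B.a (γ t) * Real.exp (K * t) := lt_of_lt_of_le ha h1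
    exact (pos_iff_pos_of_mul_pos h3).2 h2
  have pb : ∀ t ∈ Icc 0 T, 0 < B.b (γ t) := by
    intro t ht
    have h1 := BX_mono_pos (α := fun t => B.b (γ t)) (T := t) (K := K)
      (fun s hs => db s ⟨hs.1, hs.2.trans ht.2⟩)
      (fun s hs => hG.db2 _ (hγ s ⟨hs.1, hs.2.trans ht.2⟩).1) ht.1
    have h2 := Real.exp_pos (K * t)
    have h3 : 0 < B.b (γ t) * Real.exp (K * t) := lt_of_lt_of_le hb h1
    exact (pos_iff_pos_of_mul_pos h3).2 h2
  have hTm : T ∈ Icc 0 T := right_mem_Icc.2 hT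
  -- S
  have dS : ∀ t ∈ Icc 0 T, HasDerivAt (fun t => √(B.a (γ t)) + √(B.b (γ t)))
      ((2 * B.a (γ t) * B.om (γ t) (B.X (γ t)) - 2 * B.u (γ t) ^ 2) / (2 * √(B.a (γ t))) +
        (-2 * B.b (γ t) * B.om (γ t) (B.X (γ t)) - 2 * B.v (γ t) ^ 2) / (2 * √(B.b (γ t)))) t :=
    fun t ht => ((da t ht).sqrt (pa t ht).ne').fun_add ((db t ht).sqrt (pb t ht).ne')
  have dS' : ∀ t ∈ Icc 0 T,
      ((2 * B.a (γ t) * B.om (γ t) (B.X (γ t)) - 2 * B.u (γ t) ^ 2) / (2 * √(B.a (γ t))) +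
        (-2 * B.b (γ t) * B.om (γ t) (B.X (γ t)) - 2 * B.v (γ t) ^ 2) / (2 * √(B.b (γ t)))) ≤
      -(c / 2) * (√(B.a (γ t)) + √(B.b (γ t))) := by
    intro t ht
    have h1 := hG.da1 _ (hγ t ht).1
    have h2 := hG.db1 _ (hγ t ht).1
    have sa := Real.sqrt_pos.2 (pa t ht)
    have sb := Real.sqrt_pos.2 (pb t ht)
    have h3 : (2 * B.a (γ t) * B.om (γ t) (B.X (γ t)) - 2 * B.u (γ t) ^ 2) / (2 * √(B.a (γ t))) ≤
        -(c / 2) * √(B.a (γ t)) := by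
      rw [div_le_iff₀ (by positivity)]
      refine h1.trans (le_of_eq ?_)
      have := Real.mul_self_sqrt (pa t ht).le
      linear_combination c * this
    have h4 : (-2 * B.b (γ t) * B.om (γ t) (B.X (γ t)) - 2 * B.v (γ t) ^ 2) / (2 * √(B.b (γ t))) ≤
        -(c / 2) * √(B.b (γ t)) := by
      rw [div_le_iff₀ (by positivity)]
      refine h2.trans (le_of_eq ?_)
      have := Real.mul_self_sqrt (pb t ht).le
      linear_combination c * this
    linarith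
  refine ⟨pa T hTm, pb T hTm, ?_, ?_, ?_, ?_⟩
  · exact BX_decay (f := γ) (f' := fun t => -B.X (γ t)) (by positivity) hK dS dS'
      (fun t ht => by positivity) (fun t ht => (hγ t ht).2)
      (fun t ht => by rw [norm_neg]; exact hG.nX _ (hγ t ht).1) hT
  · have dl : ∀ t ∈ Icc 0 T, HasDerivAt (fun t => Real.log (B.b (γ t)) - Real.log (B.a (γ t)))
        (-4 * B.om (γ t) (B.X (γ t)) - 2 * (B.v (γ t) ^ 2 / B.b (γ t)) +
          2 * (B.u (γ t) ^ 2 / B.a (γ t))) t := by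
      intro t ht
      have h1 := pa t ht
      have h2 := pb t ht
      refine (((db t ht).log h2.ne').fun_sub ((da t ht).log h1.ne')).congr_deriv ?_
      field_simp
      ring
    have h1 := BX_decay (f := fun t => Real.log (B.b (γ t)) - Real.log (B.a (γ t)))
      (by positivity) hK dS dS'
      (fun t ht => by positivity) dl
      (fun t ht => by rw [Real.norm_eq_abs]; exact hG.rat _ (hγ t ht).1 (pa t ht) (pb t ht)) hT
    rw [Real.norm_eq_abs] at h1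
    rw [Real.log_div (pb T hTm).ne' (pa T hTm).ne', Real.log_div hb.ne' ha.ne']
    exact h1
  · have h1 := BX_mono_pos (α := fun t => -B.a (γ t)) (T := T) (K := c)
      (fun s hs => (da s hs).fun_neg)
      (fun s hs => by have := hG.da1 _ (hγ s hs).1; linarith) hT
    simp only [neg_mul, neg_le_neg_iff] at h1
    exact h1
  · have h1 := BX_mono_pos (α := fun t => -B.b (γ t)) (T := T) (K := c)
      (fun s hs => (db s hs).fun_neg)
      (fun s hs => by have := hG.db1 _ (hγ s hs).1; linarith) hT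
    simp only [neg_mul, neg_le_neg_iff] at h1
    exact h1

/-- the pointwise estimates. -/
theorem BX_point {a b h u o CE CK P₀ MK : ℝ} (ha : 0 ≤ a)
    (hCK : 0 ≤ CK) (hh : P₀ ≤ h)
    (hu : u ^ 2 ≤ CE * a) (hku : (u ^ 2 - h * a) ^ 2 ≤ CK ^ 2 * a ^ 3) (ho : |o| ≤ MK * (√a + √b))
    (hMK : 0 ≤ MK) (hs : (MK + CK) * (√a + √b) ≤ P₀ / 4) :
    2 * a * o - 2 * u ^ 2 ≤ -P₀ * a ∧ -(P₀ + 2 * CE) * a ≤ 2 * a * o - 2 * u ^ 2 ∧
      (0 < a → |u ^ 2 / a - h| ≤ CK * √a) := by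
  have sa := Real.sqrt_nonneg a
  have sb := Real.sqrt_nonneg b
  have h1 : |u ^ 2 - h * a| ≤ CK * √a * a := by
    have h2 : (u ^ 2 - h * a) ^ 2 ≤ (CK * √a * a) ^ 2 := by
      refine hku.trans (le_of_eq ?_)
      rw [mul_pow, mul_pow, Real.sq_sqrt ha]; ring
    exact abs_le_of_sq_le_sq h2 (by positivity)
  have h3 : |o| ≤ P₀ / 4 := by
    refine ho.trans (le_trans ?_ hs)
    gcongr
    linarith
  have h4 : CK * √a ≤ P₀ / 4 := by
    refine le_trans ?_ hs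
    have : CK * √a ≤ (MK + CK) * √a := by gcongr; linarith
    have : (MK + CK) * √a ≤ (MK + CK) * (√a + √b) := by gcongr; linarith
    linarith
  have h5 := abs_le.1 h3
  have h6 := abs_le.1 h1
  have h7 : CK * √a * a ≤ P₀ / 4 * a := by gcongr
  have h8 : P₀ * a ≤ h * a := by gcongr
  have h9 : a * o ≤ a * (P₀ / 4) := by gcongr; exact h5.2
  have h10 : a * (-(P₀ / 4)) ≤ a * o := by gcongr; exact h5.1
  refine ⟨by nlinarith, by nlinarith, fun hapos => ?_⟩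
  have h11 : u ^ 2 / a - h = (u ^ 2 - h * a) / a := by field_simp
  rw [h11, abs_div, abs_of_pos hapos, div_le_iff₀ hapos]
  exact h1

theorem BX_good [CompleteSpace E] (B : Block E) (hA : B.A) {q : E} (hq : q ∈ B.W) (ha : B.a q = 0)
    (hb : B.b q = 0) (hh : 0 < B.h q) {N : Set E} (hN : N ∈ 𝓝 q) :
    ∃ Ω : Set E, IsOpen Ω ∧ q ∈ Ω ∧ Ω ⊆ N ∧ ∃ c > 0, ∃ K : ℝ, 0 ≤ K ∧ B.BXGood Ω c K := by
  have hS := block_S B hA hq ha hb hh
  obtain ⟨C1, hC1⟩ := block_E B hq (hS.mono fun x h => h.1)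
  obtain ⟨C2, hC2⟩ := block_E B.swap (q := q) hq (hS.mono fun x h => h.2)
  obtain ⟨D1, hD1⟩ := block_K B hA hq ha hb hh
  obtain ⟨D2, hD2⟩ := block_K B.swap ⟨hA.2, hA.1⟩ (q := q) hq hb ha hh
  set CE := |C1| + |C2| with hCE
  set CK := √(|D1| + |D2|) with hCK
  have hCE0 : 0 ≤ CE := by positivity
  have hCK0 : 0 ≤ CK := by positivity
  have hCK2 : CK ^ 2 = |D1| + |D2| := Real.sq_sqrt (by positivity)
  set M := (‖B.Np q‖ + 1) + (‖B.Nm q‖ + 1) + (‖B.om q‖ + 1) with hM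
  have hM0 : 0 ≤ M := by positivity
  set K1 := M * √CE with hK1
  have hK10 : 0 ≤ K1 := by positivity
  set MK := M * K1 with hMK
  have hMK0 : 0 ≤ MK := by positivity
  set P₀ := B.h q / 2 with hP₀
  have hP₀0 : 0 < P₀ := by positivity
  have cont : ContinuousAt (fun x => (MK + CK) * (√(B.a x) + √(B.b x))) q := by
    have c1 := (B.smooth_a q hq).continuousAt
    have c2 := (B.smooth_b q hq).continuousAt
    exact continuousAt_const.mul ((Real.continuous_sqrt.continuousAt.comp' c1).add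
      (Real.continuous_sqrt.continuousAt.comp' c2))
  have hsmall : (MK + CK) * (√(B.a q) + √(B.b q)) < P₀ / 4 := by
    rw [ha, hb]
    simp only [Real.sqrt_zero, add_zero, mul_zero]
    positivity
  obtain ⟨Ω, hΩ, hΩo, hqΩ⟩ : ∃ Ω : Set E, (∀ x ∈ Ω, x ∈ N ∧ x ∈ B.W ∧ (0 ≤ B.a x ∧ 0 ≤ B.b x) ∧
      B.u x ^ 2 ≤ C1 * B.a x ∧ B.v x ^ 2 ≤ C2 * B.b x ∧
      (B.u x ^ 2 - B.h x * B.a x) ^ 2 ≤ D1 * B.a x ^ 3 ∧ (B.v x ^ 2 - B.h x * B.b x) ^ 2 ≤ D2 * B.b x ^ 3 ∧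
      ‖B.Np x‖ ≤ ‖B.Np q‖ + 1 ∧ ‖B.Nm x‖ ≤ ‖B.Nm q‖ + 1 ∧ ‖B.om x‖ ≤ ‖B.om q‖ + 1 ∧
      P₀ < B.h x ∧ (MK + CK) * (√(B.a x) + √(B.b x)) < P₀ / 4) ∧ IsOpen Ω ∧ q ∈ Ω := by
    have e : ∀ᶠ x in 𝓝 q, x ∈ N ∧ x ∈ B.W ∧ (0 ≤ B.a x ∧ 0 ≤ B.b x) ∧
      B.u x ^ 2 ≤ C1 * B.a x ∧ B.v x ^ 2 ≤ C2 * B.b x ∧
      (B.u x ^ 2 - B.h x * B.a x) ^ 2 ≤ D1 * B.a x ^ 3 ∧ (B.v x ^ 2 - B.h x * B.b x) ^ 2 ≤ D2 * B.b x ^ 3 ∧
      ‖B.Np x‖ ≤ ‖B.Np q‖ + 1 ∧ ‖B.Nm x‖ ≤ ‖B.Nm q‖ + 1 ∧ ‖B.om x‖ ≤ ‖B.om q‖ + 1 ∧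
      P₀ < B.h x ∧ (MK + CK) * (√(B.a x) + √(B.b x)) < P₀ / 4 := by
      filter_upwards [hN, B.isOpen_W.mem_nhds hq, hS, hC1, hC2, hD1, hD2,
        BE_bdd (B.smooth_Np q hq).continuousAt, BE_bdd (B.smooth_Nm q hq).continuousAt,
        BE_bdd (B.smooth_om q hq).continuousAt,
        (B.smooth_h q hq).continuousAt.eventually_const_lt (show P₀ < B.h q by linarith),
        cont.eventually_lt_const hsmall] with x h1 h2 h3 h4 h5 h6 h7 h8 h9 h10 h11 h12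
      exact ⟨h1, h2, h3, h4, h5, h6, h7, h8, h9, h10, h11, h12⟩
    obtain ⟨Ω, h1, h2, h3⟩ := eventually_nhds_iff.1 e
    exact ⟨Ω, h1, h2, h3⟩
  have n1 := norm_nonneg (B.Np q)
  have n2 := norm_nonneg (B.Nm q)
  have n3 := norm_nonneg (B.om q)
  set K := K1 + (P₀ + 2 * CE) + (4 * MK + 2 * CK) with hK
  have hK0 : 0 ≤ K := by positivity
  have hle : ∀ x : ℝ, 0 ≤ x → C1 * x ≤ CE * x ∧ C2 * x ≤ CE * x := by
    intro x hx
    have h1 := le_abs_self C1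
    have h2 := le_abs_self C2
    have h3 := abs_nonneg C1
    have h4 := abs_nonneg C2
    constructor <;> gcongr <;> linarith
  have hle2 : ∀ x : ℝ, 0 ≤ x → D1 * x ≤ CK ^ 2 * x ∧ D2 * x ≤ CK ^ 2 * x := by
    intro x hx
    have h1 := le_abs_self D1
    have h2 := le_abs_self D2
    have h3 := abs_nonneg D1
    have h4 := abs_nonneg D2
    constructor <;> rw [hCK2] <;> gcongr <;> linarith
  -- consequences
  have all : ∀ x ∈ Ω, ‖B.X x‖ ≤ K1 * (√(B.a x) + √(B.b x)) ∧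
      |B.om x (B.X x)| ≤ MK * (√(B.a x) + √(B.b x)) ∧
      (2 * B.a x * B.om x (B.X x) - 2 * B.u x ^ 2 ≤ -P₀ * B.a x ∧
        -(P₀ + 2 * CE) * B.a x ≤ 2 * B.a x * B.om x (B.X x) - 2 * B.u x ^ 2 ∧
        (0 < B.a x → |B.u x ^ 2 / B.a x - B.h x| ≤ CK * √(B.a x))) ∧
      (2 * B.b x * (-B.om x (B.X x)) - 2 * B.v x ^ 2 ≤ -P₀ * B.b x ∧
        -(P₀ + 2 * CE) * B.b x ≤ 2 * B.b x * (-B.om x (B.X x)) - 2 * B.v x ^ 2 ∧
        (0 < B.b x → |B.v x ^ 2 / B.b x - B.h x| ≤ CK * √(B.b x))) := by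
    intro x hx
    obtain ⟨-, hW, ⟨a0, b0⟩, hu, hv, hku, hkv, hp, hm, ho, hhx, hsm⟩ := hΩ x hx
    have sa := Real.sqrt_nonneg (B.a x)
    have sb := Real.sqrt_nonneg (B.b x)
    have hu' : |B.u x| ≤ √CE * √(B.a x) := by
      rw [← Real.sqrt_mul hCE0]
      exact Real.abs_le_sqrt (hu.trans (hle _ a0).1)
    have hv' : |B.v x| ≤ √CE * √(B.b x) := by
      rw [← Real.sqrt_mul hCE0]
      exact Real.abs_le_sqrt (hv.trans (hle _ b0).2)
    have hX : ‖B.X x‖ ≤ K1 * (√(B.a x) + √(B.b x)) := by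
      calc ‖B.X x‖ ≤ ‖B.u x • B.Np x‖ + ‖B.v x • B.Nm x‖ := norm_add_le _ _
        _ = |B.u x| * ‖B.Np x‖ + |B.v x| * ‖B.Nm x‖ := by
            rw [norm_smul, norm_smul, Real.norm_eq_abs, Real.norm_eq_abs]
        _ ≤ (√CE * √(B.a x)) * M + (√CE * √(B.b x)) * M := by
            gcongr <;> linarith
        _ = K1 * (√(B.a x) + √(B.b x)) := by rw [hK1]; ring
    have hom : |B.om x (B.X x)| ≤ MK * (√(B.a x) + √(B.b x)) := by
      rw [← Real.norm_eq_abs]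
      calc ‖B.om x (B.X x)‖ ≤ ‖B.om x‖ * ‖B.X x‖ := (B.om x).le_opNorm _
        _ ≤ M * (K1 * (√(B.a x) + √(B.b x))) := by gcongr; linarith
        _ = _ := by rw [hMK]; ring
    refine ⟨hX, hom, ?_, ?_⟩
    · exact BX_point a0 hCK0 hhx.le (hu.trans (hle _ a0).1)
        (hku.trans (hle2 _ (by positivity)).1) hom hMK0 hsm.le
    · exact BX_point b0 hCK0 hhx.le (hv.trans (hle _ b0).2)
        (hkv.trans (hle2 _ (by positivity)).2) (by rw [abs_neg, add_comm]; exact hom) hMK0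
        (by rw [add_comm (√(B.b x))]; exact hsm.le)
  refine ⟨Ω, hΩo, hqΩ, fun x hx => (hΩ x hx).1, P₀, hP₀0, K, hK0, ?_⟩
  have hKge1 : P₀ + 2 * CE ≤ K := by
    have : 0 ≤ 4 * MK + 2 * CK := by positivity
    linarith
  have hKge2 : K1 ≤ K := by
    have : 0 ≤ P₀ + 2 * CE := by positivity
    have : 0 ≤ 4 * MK + 2 * CK := by positivity
    linarith
  have hKge3 : 4 * MK + 2 * CK ≤ K := by
    have : 0 ≤ P₀ + 2 * CE := by positivity
    linarith
  constructor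
  · exact fun x hx => (hΩ x hx).2.1
  · exact fun x hx => (hΩ x hx).2.2.1.1
  · exact fun x hx => (hΩ x hx).2.2.1.2
  · exact fun x hx => (all x hx).2.2.1.1
  · intro x hx
    have := (all x hx).2.2.2.1
    linarith
  · intro x hx
    have h1 := (all x hx).2.2.1.2.1
    have h2 := (hΩ x hx).2.2.1.1
    nlinarith
  · intro x hx
    have h1 := (all x hx).2.2.2.2.1
    have h2 := (hΩ x hx).2.2.1.2
    nlinarith
  · intro x hx
    refine (all x hx).1.trans ?_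
    gcongr
  · intro x hx hax hbx
    have h1 := abs_le.1 (all x hx).2.1
    have h2 := abs_le.1 ((all x hx).2.2.1.2.2 hax)
    have h3 := abs_le.1 ((all x hx).2.2.2.2.2 hbx)
    have sa := Real.sqrt_nonneg (B.a x)
    have sb := Real.sqrt_nonneg (B.b x)
    have h4 : (4 * MK + 2 * CK) * (√(B.a x) + √(B.b x)) ≤ K * (√(B.a x) + √(B.b x)) := by gcongr
    have h5 : (4 * MK + 2 * CK) * (√(B.a x) + √(B.b x)) =
        4 * (MK * (√(B.a x) + √(B.b x))) + 2 * (CK * √(B.a x)) + 2 * (CK * √(B.b x)) := by ring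
    rw [abs_le]
    constructor <;> linarith [h1.1, h1.2, h2.1, h2.2, h3.1, h3.2]

/-- BX: the `-X`-curves starting near a scalar point with `h > 0`, `a, b > 0`, exist for all positive times,
stay near the point, converge to scalar points, and do not change `log (b/a)` much. -/
theorem block_X [CompleteSpace E] (B : Block E) (hA : B.A) {q : E} (hq : q ∈ B.W) (ha : B.a q = 0)
    (hb : B.b q = 0) (hh : 0 < B.h q) {N : Set E} (hN : N ∈ 𝓝 q) {ε : ℝ} (hε : 0 < ε) :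
    ∀ᶠ y in 𝓝 q, 0 < B.a y → 0 < B.b y → ∃ γ : ℝ → E, γ 0 = y ∧
      (∀ t, 0 ≤ t → γ t ∈ N ∧ γ t ∈ B.W ∧ 0 < B.a (γ t) ∧ 0 < B.b (γ t) ∧
        HasDerivAt γ (-B.X (γ t)) t ∧
        |Real.log (B.b (γ t) / B.a (γ t)) - Real.log (B.b y / B.a y)| ≤ ε) ∧
      Tendsto (fun t => B.a (γ t)) atTop (𝓝 0) ∧ Tendsto (fun t => B.b (γ t)) atTop (𝓝 0) := by
  obtain ⟨Ω, hΩo, hqΩ, hΩN, c, hc, K, hK, hG⟩ := BX_good B hA hq ha hb hh hN
  have sX : ∀ x ∈ Ω, ContDiffAt ℝ 1 (fun x => -B.X x) x := by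
    intro x hx
    have hW := hG.W x hx
    have h1 : ContDiffAt ℝ (⊤ : ℕ∞) (fun x => -B.X x) x :=
      (((B.smooth_u x hW).smul (B.smooth_Np x hW)).add ((B.smooth_v x hW).smul (B.smooth_Nm x hW))).neg
    exact h1.of_le (by exact_mod_cast le_top)
  obtain ⟨r, hr, δ, hδ, hflow⟩ := FU_local hΩo hqΩ (sX q hqΩ)
  set S : E → ℝ := fun y => K / (c / 2) * (√(B.a y) + √(B.b y)) with hS
  have cS : ContinuousAt S q := by
    have c1 := (B.smooth_a q hq).continuousAt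
    have c2 := (B.smooth_b q hq).continuousAt
    exact continuousAt_const.mul ((Real.continuous_sqrt.continuousAt.comp' c1).add
      (Real.continuous_sqrt.continuousAt.comp' c2))
  have hSq : S q = 0 := by
    simp only [hS, ha, hb, Real.sqrt_zero, add_zero, mul_zero]
  filter_upwards [Metric.closedBall_mem_nhds q (show 0 < r / 2 by positivity),
    cS.eventually_lt_const (show S q < r / 2 by rw [hSq]; positivity),
    cS.eventually_lt_const (show S q < ε by rw [hSq]; positivity)] with y hy hy1 hy2 hay hby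
  have hyD : y ∈ Metric.closedBall q r := Metric.closedBall_subset_closedBall (by linarith) hy
  obtain ⟨γ, h0, hγ⟩ := BX_global hΩo sX hδ hflow hyD (by
    intro T hT γ hγ0 hγ t ht
    have h1 := BX_est hc hK hG (T := t) (γ := γ) (fun s hs => hγ s ⟨by linarith [hs.1], by linarith [hs.2, ht.2]⟩)
      (by rwa [hγ0]) (by rwa [hγ0]) ht.1
    have h2 := h1.2.2.1
    rw [hγ0] at h2
    rw [Metric.mem_closedBall] at hy ⊢
    have h3 : dist (γ t) y ≤ r / 2 := by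
      rw [dist_eq_norm]
      exact h2.trans hy1.le
    linarith [dist_triangle (γ t) y q])
  have hest : ∀ t : ℝ, 0 ≤ t → _ := fun t ht => BX_est hc hK hG (T := t) (γ := γ)
    (fun s hs => hγ s (show -δ < s by linarith [hs.1])) (by rwa [h0]) (by rwa [h0]) ht
  refine ⟨γ, h0, fun t ht => ?_, ?_, ?_⟩
  · obtain ⟨e1, e2, e3, e4, e5, e6⟩ := hest t ht
    have h1 := hγ t (show -δ < t by linarith)
    refine ⟨hΩN h1.1, hG.W _ h1.1, e1, e2, h1.2, ?_⟩
    rw [h0] at e4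
    exact e4.trans hy2.le
  · have hexp : Tendsto (fun t => B.a y * Real.exp (-(c * t))) atTop (𝓝 0) := by
      have h1 : Tendsto (fun t : ℝ => Real.exp (-(c * t))) atTop (𝓝 0) :=
        Real.tendsto_exp_neg_atTop_nhds_zero.comp (tendsto_id.const_mul_atTop hc)
      simpa using h1.const_mul (B.a y)
    refine tendsto_of_tendsto_of_tendsto_of_le_of_le' tendsto_const_nhds hexp ?_ ?_
    · filter_upwards [eventually_ge_atTop 0] with t ht
      exact (hest t ht).1.le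
    · filter_upwards [eventually_ge_atTop 0] with t ht
      have h1 := (hest t ht).2.2.2.2.1
      rw [h0] at h1
      rw [Real.exp_neg, ← div_eq_mul_inv, le_div_iff₀ (Real.exp_pos _)]
      exact h1
  · have hexp : Tendsto (fun t => B.b y * Real.exp (-(c * t))) atTop (𝓝 0) := by
      have h1 : Tendsto (fun t : ℝ => Real.exp (-(c * t))) atTop (𝓝 0) :=
        Real.tendsto_exp_neg_atTop_nhds_zero.comp (tendsto_id.const_mul_atTop hc)
      simpa using h1.const_mul (B.b y)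
    refine tendsto_of_tendsto_of_tendsto_of_le_of_le' tendsto_const_nhds hexp ?_ ?_
    · filter_upwards [eventually_ge_atTop 0] with t ht
      exact (hest t ht).2.1.le
    · filter_upwards [eventually_ge_atTop 0] with t ht
      have h1 := (hest t ht).2.2.2.2.2
      rw [h0] at h1
      rw [Real.exp_neg, ← div_eq_mul_inv, le_div_iff₀ (Real.exp_pos _)]
      exact h1

end Block

end Pool.Agent.helper25.B2
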