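import Pool.Agent.helper98.B2.GA
import Pool.Agent.helper74.B2.AD
import Pool.Agent.helper46.B2.GB
import Pool.Agent.helper72.B2.GC

/-! # MP_b2b189_gt, b2:R1a: pointwise consequences of `K_c ≡ 0` -/

set_option autoImplicit false

namespace Pool.Agent.helper68.B2

open scoped ContDiff Topology Matrix
open Matrix Set

theorem R1a_sym {q s : V3} (h : vecMulVec q s + vecMulVec s q = 0) (hq : q ≠ 0) : s = 0 := by
  have h1 : ∀ i j, q i * s j + s i * q j = 0 := by
    intro i j
    have := congrFun (congrFun h i) j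
    simpa only [Matrix.add_apply, vecMulVec_apply, Matrix.zero_apply] using this
  obtain ⟨i, hi⟩ := Function.ne_iff.1 hq
  simp only [Pi.zero_apply] at hi
  have hsi : s i = 0 := by
    have := h1 i i
    have h2 : q i * s i = 0 := by linarith
    exact (mul_eq_zero.1 h2).resolve_left hi
  funext j
  have := h1 i j
  rw [hsi, zero_mul, add_zero] at this
  exact (mul_eq_zero.1 this).resolve_left hi

theorem R1a_sym_rank1 (H : M3) (hs : Hᵀ = H) (hadj : H.adjugate = 0) :
    ∃ (ε : ℝ) (v : V3), (ε = 1 ∨ ε = -1) ∧ H = ε • vecMulVec v v := by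
  have e10 : H 1 0 = H 0 1 := congrFun (congrFun hs 0) 1
  have e20 : H 2 0 = H 0 2 := congrFun (congrFun hs 0) 2
  have e21 : H 2 1 = H 1 2 := congrFun (congrFun hs 1) 2
  rw [Matrix.adjugate_fin_three] at hadj
  have m00 := congrFun (congrFun hadj 0) 0
  have m01 := congrFun (congrFun hadj 0) 1
  have m02 := congrFun (congrFun hadj 0) 2
  have m11 := congrFun (congrFun hadj 1) 1
  have m12 := congrFun (congrFun hadj 1) 2
  have m22 := congrFun (congrFun hadj 2) 2
  simp [e10, e20, e21] at m00 m01 m02 m11 m12 m22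
  have key : ∀ i j k, H i i * H j k = H i j * H i k := by
    intro i j k
    fin_cases i <;> fin_cases j <;> fin_cases k <;> simp [e10, e20, e21] <;> linarith
  by_cases hz : ∃ i, H i i ≠ 0
  · obtain ⟨i, hi⟩ := hz
    rcases lt_or_gt_of_ne hi with hneg | hpos
    · refine ⟨-1, fun j => H i j / √(-H i i), Or.inr rfl, ?_⟩
      ext j k
      simp only [Matrix.smul_apply, vecMulVec_apply, smul_eq_mul]
      have h1 : √(-H i i) * √(-H i i) = -H i i := Real.mul_self_sqrt (by linarith)
      have h2 : √(-H i i) ≠ 0 := by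
        intro h0; rw [h0] at h1; simp at h1; exact hi h1
      have h3 := key i j k
      rw [show -1 * (H i j / √(-H i i) * (H i k / √(-H i i))) = -(H i j * H i k) / (√(-H i i) * √(-H i i)) by
        field_simp]
      rw [h1, ← h3]
      field_simp
    · refine ⟨1, fun j => H i j / √(H i i), Or.inl rfl, ?_⟩
      ext j k
      simp only [Matrix.smul_apply, vecMulVec_apply, smul_eq_mul]
      have h1 : √(H i i) * √(H i i) = H i i := Real.mul_self_sqrt (by linarith)
      have h2 : √(H i i) ≠ 0 := by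
        intro h0; rw [h0] at h1; simp at h1; exact hi h1.symm
      have h3 := key i j k
      rw [show 1 * (H i j / √(H i i) * (H i k / √(H i i))) = (H i j * H i k) / (√(H i i) * √(H i i)) by
        field_simp]
      rw [h1, ← h3]
      field_simp
  · push Not at hz
    refine ⟨1, 0, Or.inl rfl, ?_⟩
    ext j k
    simp only [Matrix.smul_apply, vecMulVec_apply, Pi.zero_apply, mul_zero, smul_eq_mul]
    have h1 := key j k k
    rw [hz j, zero_mul] at h1
    exact mul_self_eq_zero.1 h1.symm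

theorem R1a_rank1 {A G : M3} (hG : Gᵀ = G) (hd : G.det ≠ 0) (hA : (G * A)ᵀ = G * A)
    (hadj : A.adjugate = 0) :
    ∃ (ε : ℝ) (v : V3), (ε = 1 ∨ ε = -1) ∧ A = ε • vecMulVec v (G *ᵥ v) := by
  have hu := isUnit_iff_ne_zero.2 hd
  have hAt : Aᵀ * G = G * A := by rw [← hA, Matrix.transpose_mul, hG]
  obtain ⟨ε, v, hε, h⟩ := R1a_sym_rank1 (A * G⁻¹) (by
    rw [Matrix.transpose_mul, Matrix.transpose_nonsing_inv, hG]
    calc G⁻¹ * Aᵀ = G⁻¹ * ((Aᵀ * G) * G⁻¹) := by rw [Matrix.mul_nonsing_inv_cancel_right _ _ hu]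
      _ = G⁻¹ * ((G * A) * G⁻¹) := by rw [hAt]
      _ = A * G⁻¹ := by rw [Matrix.mul_assoc, Matrix.nonsing_inv_mul_cancel_left _ _ hu])
    (by rw [Matrix.adjugate_mul_distrib, hadj, mul_zero])
  refine ⟨ε, v, hε, ?_⟩
  calc A = (A * G⁻¹) * G := by rw [Matrix.nonsing_inv_mul_cancel_right _ _ hu]
    _ = ε • vecMulVec v (G *ᵥ v) := by rw [h, Matrix.smul_mul, GA_vecMulVec_mul, hG]

theorem R1a_vec_ne {N : M3} (hN : N.det ≠ 0) {a b : V3} (h : vecMulVec (N *ᵥ a) b = 0) (hb : b ≠ 0) :
    a = 0 := by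
  have hu := isUnit_iff_ne_zero.2 hN
  obtain ⟨j, hj⟩ := Function.ne_iff.1 hb
  have h1 : N *ᵥ a = 0 := by
    funext i
    have := congrFun (congrFun h i) j
    simp only [vecMulVec_apply, Matrix.zero_apply] at this
    exact (mul_eq_zero.1 this).resolve_right hj
  calc a = N⁻¹ *ᵥ (N *ᵥ a) := by rw [Matrix.mulVec_mulVec, Matrix.nonsing_inv_mul _ hu, Matrix.one_mulVec]
    _ = 0 := by rw [h1, Matrix.mulVec_zero]

/-- parallel vectors from the cross product -/
theorem R1a_par {v w : V3} (hv : v ≠ 0) (h : crossProduct v w = 0) : ∃ c : ℝ, w = c • v := by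
  have h0 := congrFun h 0
  have h1 := congrFun h 1
  have h2 := congrFun h 2
  simp [cross_apply] at h0 h1 h2
  obtain ⟨i, hi⟩ := Function.ne_iff.1 hv
  simp only [Pi.zero_apply] at hi
  refine ⟨w i / v i, ?_⟩
  funext j
  simp only [Pi.smul_apply, smul_eq_mul]
  rw [div_mul_eq_mul_div, eq_div_iff hi]
  fin_cases i <;> fin_cases j <;> simp <;> linarith

theorem R1a_cross_ne {v : V3} (hv : v ≠ 0) : ∃ X : V3, crossProduct v X ≠ 0 := by
  by_contra hcon
  push Not at hcon
  have h0 := hcon ![1, 0, 0]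
  have h1 := hcon ![0, 1, 0]
  apply hv
  have a0 := congrFun h0 1
  have a1 := congrFun h0 2
  have a2 := congrFun h1 2
  simp [cross_apply] at a0 a1 a2
  funext j
  fin_cases j <;> simp [a0, a1, a2]

/-- if every vector is an eigenvector, the matrix is scalar -/
theorem R1a_scalar {M : M3} (h : ∀ z : V3, z ≠ 0 → ∃ θ : ℝ, M *ᵥ z = θ • z) :
    ∃ θ : ℝ, M = θ • (1 : M3) := by
  have hb : ∀ i j, i ≠ j → M i j = 0 := by
    intro i j hij
    obtain ⟨θ, hθ⟩ := h (ee j) (by
      intro h0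
      have := congrFun h0 j
      simp [ee] at this)
    have h1 := congrFun hθ i
    simpa [ee, hij] using h1
  have hd : ∀ i j, M i i = M j j := by
    intro i j
    by_cases hij : i = j
    · rw [hij]
    obtain ⟨θ, hθ⟩ := h (ee i + ee j) (by
      intro h0
      have := congrFun h0 j
      simp [ee, Pi.single_apply, Ne.symm hij] at this)
    have h1 := congrFun hθ i
    have h2 := congrFun hθ j
    simp [ee, Matrix.mulVec_add, Pi.single_apply, hij, Ne.symm hij, hb i j hij,
      hb j i (Ne.symm hij)] at h1 h2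
    rw [h1, h2]
  refine ⟨M 0 0, ?_⟩
  ext i j
  by_cases hij : i = j
  · subst hij
    simp [hd i 0]
  · simp [hb i j hij, hij]

theorem R1a_adj2 (M : M3) : (2 : ℝ) • M.adjugate = crossM M M := by
  rw [B0b_adjugate, smul_smul]
  norm_num

theorem R1a_cross_add (A B C : M3) : crossM (A + B) C = crossM A C + crossM B C := by
  rw [B0b_crossM_comm, AD_cross_add, B0b_crossM_comm C A, B0b_crossM_comm C B]

namespace Geo
variable (S : Geo)

theorem R1a_nabE_cross {x : E4} {A B : E4 → M3} (hA : DifferentiableAt ℝ A x)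
    (hB : DifferentiableAt ℝ B x) (v : V3) :
    S.nabE (fun y => crossM (A y) (B y)) v x
      = crossM (S.nabE A v x) (B x) + crossM (A x) (S.nabE B v x) := by
  have h1 : (fun y => crossM (A y) (B y)) =
      fun y => (A y + B y).adjugate - (A y).adjugate - (B y).adjugate := by
    funext y
    rw [AD_add]; abel
  have hadjd : ∀ {C : E4 → M3}, DifferentiableAt ℝ C x → DifferentiableAt ℝ (fun y => (C y).adjugate) x :=
    fun {C} hC => (B0b_H_adjugate (v := 0) (B0b_H_of hC)).diff
  have h2 := S.nabE_adjugate (hA.fun_add hB) v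
  have h3 := S.nabE_adjugate hA v
  have h4 := S.nabE_adjugate hB v
  have h5 : S.nabE (fun y => (A y + B y).adjugate - (A y).adjugate - (B y).adjugate) v x =
      S.nabE (fun y => (A y + B y).adjugate) v x - S.nabE (fun y => (A y).adjugate) v x -
        S.nabE (fun y => (B y).adjugate) v x := by
    simp only [nabE]
    rw [Dv_sub ((hadjd (hA.fun_add hB)).fun_sub (hadjd hA)) (hadjd hB),
      Dv_sub (hadjd (hA.fun_add hB)) (hadjd hA)]
    noncomm_ring
  have h6 : S.nabE (fun y => A y + B y) v x = S.nabE A v x + S.nabE B v x := by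
    simp only [nabE]
    rw [Dv_add hA hB]
    noncomm_ring
  rw [h1, h5, h2, h3, h4, h6, AD_cross_add, R1a_cross_add, R1a_cross_add,
    B0b_crossM_comm (B x) (S.nabE A v x)]
  abel

theorem R1a_nabE_od {x : E4} (hx : x ≠ 0) (v w : V3) :
    S.nabE (fun y => S.od y v (S.lam y)) w x
      = S.od x (S.Gam w x *ᵥ v) (S.lam x) + S.od x v (S.Lam x *ᵥ w) := by
  have hl : DifferentiableAt ℝ S.lam x := S.smlam.differentiableAt hx
  have hc : DifferentiableAt ℝ (fun _ : E4 => v) x := differentiableAt_const _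
  have h1 := S.nabE_dyad hx hc hl w
  have h2 := S.nabE_dyad hx hl hc w
  have hG := S.GA_diffG hx
  have hd1 : DifferentiableAt ℝ (fun y => vecMulVec v (S.G y *ᵥ S.lam y)) x :=
    ((B0b_H_of (v := 0) hc).bilin B0b_bil_vecMulVec
      ((B0b_H_of (v := 0) hG).bilin B0b_bil_mulVec (B0b_H_of hl))).diff
  have hd2 : DifferentiableAt ℝ (fun y => vecMulVec (S.lam y) (S.G y *ᵥ v)) x :=
    ((B0b_H_of (v := 0) hl).bilin B0b_bil_vecMulVec
      ((B0b_H_of (v := 0) hG).bilin B0b_bil_mulVec (B0b_H_of hc))).diff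
  have h3 : S.nabE (fun y => S.od y v (S.lam y)) w x =
      S.nabE (fun y => vecMulVec v (S.G y *ᵥ S.lam y)) w x +
        S.nabE (fun y => vecMulVec (S.lam y) (S.G y *ᵥ v)) w x := by
    simp only [nabE, od, odot]
    rw [Dv_add hd1 hd2]
    noncomm_ring
  have h4 : S.nab (fun _ => v) w x = S.Gam w x *ᵥ v := by
    simp only [nab]
    rw [Dv_const, zero_add]
  rw [h3, h1, h2, h4, ← S.Lam_mulVec]
  simp only [od, odot]
  abel

/-- first order -/
theorem R1a_one (c : ℝ) (hK : ∀ x, x ≠ 0 → S.K c x = 0) {x : E4} (hx : x ≠ 0) (v : V3) :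
    crossM (S.L x - c • (1 : M3)) (S.od x v (S.lam x)) = 0 := by
  rw [← S.nabE_K c hx]
  have h1 : S.K c =ᶠ[𝓝 x] fun _ => (0 : M3) := by
    filter_upwards [isOpen_compl_singleton.mem_nhds hx] with y hy
    exact hK y hy
  simp only [nabE]
  rw [B0b_Dv_congr h1, Dv_const, hK x hx]
  simp

/-- second order -/
theorem R1a_two (c : ℝ) (hK : ∀ x, x ≠ 0 → S.K c x = 0) {x : E4} (hx : x ≠ 0) (v w : V3) :
    crossM (S.od x w (S.lam x)) (S.od x v (S.lam x))
      + crossM (S.L x - c • (1 : M3)) (S.od x v (S.Lam x *ᵥ w)) = 0 := by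
  have hl : DifferentiableAt ℝ S.lam x := S.smlam.differentiableAt hx
  have hc : DifferentiableAt ℝ (fun _ : E4 => v) x := differentiableAt_const _
  have hG := S.GA_diffG hx
  have hd : DifferentiableAt ℝ (fun y => S.od y v (S.lam y)) x := by
    have hd1 : DifferentiableAt ℝ (fun y => vecMulVec v (S.G y *ᵥ S.lam y)) x :=
      ((B0b_H_of (v := 0) hc).bilin B0b_bil_vecMulVec
        ((B0b_H_of (v := 0) hG).bilin B0b_bil_mulVec (B0b_H_of hl))).diff
    have hd2 : DifferentiableAt ℝ (fun y => vecMulVec (S.lam y) (S.G y *ᵥ v)) x :=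
      ((B0b_H_of (v := 0) hl).bilin B0b_bil_vecMulVec
        ((B0b_H_of (v := 0) hG).bilin B0b_bil_mulVec (B0b_H_of hc))).diff
    exact hd1.fun_add hd2
  have h1 := S.R1a_nabE_cross (S.GA_diffLt c hx) hd w
  have h2 : (fun y => crossM (S.L y - c • (1 : M3)) (S.od y v (S.lam y))) =ᶠ[𝓝 x] fun _ => (0 : M3) := by
    filter_upwards [isOpen_compl_singleton.mem_nhds hx] with y hy
    exact S.R1a_one c hK hy v
  have h3 : S.nabE (fun y => crossM (S.L y - c • (1 : M3)) (S.od y v (S.lam y))) w x = 0 := by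
    simp only [nabE]
    rw [B0b_Dv_congr h2, Dv_const, S.R1a_one c hK hx v]
    simp
  rw [h3, S.GA_nabE_Lt c hx, S.R1a_nabE_od hx, AD_cross_add, S.R1a_one c hK hx, zero_add] at h1
  exact h1.symm

/-- R1a: pointwise consequences of `K_c ≡ 0` -/
theorem R1a (hNC : S.NC) (c : ℝ) (hK : ∀ x, x ≠ 0 → S.K c x = 0) {x : E4} (hx : x ≠ 0) :
    ∃ (ε : ℝ) (v : V3) (φ r : ℝ), (ε = 1 ∨ ε = -1) ∧ (v ≠ 0 ∨ φ ≠ 0) ∧
      S.L x - c • (1 : M3) = ε • vecMulVec v (S.G x *ᵥ v) ∧ S.lam x = (ε * φ) • v ∧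
      S.Lam x = (ε * φ ^ 2) • (1 : M3) + r • vecMulVec v (S.G x *ᵥ v) := by
  have hG := S.symm x hx
  have hd := (S.det_neg x hx).ne
  have hu := isUnit_iff_ne_zero.2 hd
  have hN : (S.G x).adjugate.det ≠ 0 := by
    rw [Matrix.det_adjugate]
    exact pow_ne_zero _ hd
  have hsa : (S.G x * (S.L x - c • (1 : M3)))ᵀ = S.G x * (S.L x - c • (1 : M3)) := by
    rw [Matrix.mul_sub, Matrix.transpose_sub, S.selfadj x hx, Matrix.mul_smul, Matrix.mul_one,
      Matrix.transpose_smul, hG]
  obtain ⟨ε, v, hε, hL⟩ := R1a_rank1 hG hd hsa (hK x hx)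
  have hε2 : ε * ε = 1 := by rcases hε with h | h <;> rw [h] <;> norm_num
  have hε0 : ε ≠ 0 := by rcases hε with h | h <;> rw [h] <;> norm_num
  have h1 := S.R1a_one c hK hx
  have h2 := S.R1a_two c hK hx
  rw [hL] at h1 h2
  have hsm : ∀ B : M3, crossM (ε • vecMulVec v (S.G x *ᵥ v)) B = ε • crossM (vecMulVec v (S.G x *ᵥ v)) B := by
    intro B
    simp only [crossM, Matrix.smul_mul, Matrix.mul_smul, Matrix.trace_smul, smul_add, smul_sub, smul_smul,
      smul_eq_mul, add_smul, sub_smul, mul_sub, mul_assoc, mul_comm, mul_left_comm]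
  by_cases hv : v = 0
  · -- the zero case
    subst hv
    have hLc : S.L x = c • (1 : M3) := by
      have : vecMulVec (0 : V3) (S.G x *ᵥ 0) = 0 := by ext i j; simp [vecMulVec_apply]
      rw [this, smul_zero, sub_eq_zero] at hL
      exact hL
    have hz : vecMulVec (0 : V3) (S.G x *ᵥ 0) = 0 := by ext i j; simp [vecMulVec_apply]
    have hcz : ∀ B : M3, crossM (0 : M3) B = 0 := by
      intro B; simp [crossM]
    have hlam : S.lam x = 0 := by
      by_contra hne
      obtain ⟨X, hX⟩ := R1a_cross_ne hne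
      have h3 := h2 X X
      rw [hz, smul_zero, hcz, add_zero] at h3
      have h4 : (S.od x X (S.lam x)).adjugate = 0 := by
        rw [B0b_adjugate, h3, smul_zero]
      have h5 : crossProduct X (S.lam x) ≠ 0 := by
        intro h6
        apply hX
        rw [← cross_anticomm, h6, neg_zero]
      rw [od, AD_odot _ hG, neg_eq_zero] at h4
      exact h5 (R1a_vec_ne hN h4 h5)
    -- every vector is an eigenvector of Lam
    have heig : ∀ z : V3, z ≠ 0 → ∃ θ : ℝ, S.Lam x *ᵥ z = θ • z := by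
      intro z hz
      exact S.F1 hx (μ := c) hz (by rw [hLc, Matrix.smul_mulVec, Matrix.one_mulVec])
    obtain ⟨θ, hθ⟩ := R1a_scalar heig
    have hθ0 : θ ≠ 0 := by
      intro h0
      rw [h0, zero_smul] at hθ
      exact hNC ⟨c, S.UC_L c hx hLc hlam hθ⟩
    rcases lt_or_gt_of_ne hθ0 with hneg | hpos
    · refine ⟨-1, 0, √(-θ), 0, Or.inr rfl, Or.inr ?_, ?_, ?_, ?_⟩
      · exact (Real.sqrt_pos.2 (by linarith)).ne'
      · rw [hLc, sub_self]; ext i j; simp [vecMulVec_apply]
      · rw [hlam, smul_zero]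
      · rw [hθ, Real.sq_sqrt (by linarith)]
        simp
    · refine ⟨1, 0, √θ, 0, Or.inl rfl, Or.inr ?_, ?_, ?_, ?_⟩
      · exact (Real.sqrt_pos.2 hpos).ne'
      · rw [hLc, sub_self]; ext i j; simp [vecMulVec_apply]
      · rw [hlam, smul_zero]
      · rw [hθ, Real.sq_sqrt hpos.le]
        simp
  · -- the rank one case
    have hp : crossProduct v (S.lam x) = 0 := by
      by_contra hne
      have h3 := h1 (S.lam x)
      rw [hsm, od, AD_dyad_odot _ hG] at h3
      have h4 : vecMulVec ((S.G x).adjugate *ᵥ crossProduct v (S.lam x)) (crossProduct v (S.lam x)) = 0 := by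
        have h5 := (smul_eq_zero.1 h3).resolve_left hε0
        rw [← two_smul ℝ] at h5
        exact (smul_eq_zero.1 h5).resolve_left two_ne_zero
      exact hne (R1a_vec_ne hN h4 hne)
    obtain ⟨m, hm⟩ := R1a_par hv hp
    set φ := ε * m with hφ
    have hlam : S.lam x = (ε * φ) • v := by
      rw [hm, hφ, ← mul_assoc, hε2, one_mul]
    -- second order
    have hs : ∀ X : V3, crossProduct v X ≠ 0 →
        crossProduct v (S.Lam x *ᵥ X - (ε * φ ^ 2) • X) = 0 := by
      intro X hX
      have h3 := h2 X X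
      rw [hsm, ← R1a_adj2, od, AD_odot _ hG, od, AD_dyad_odot _ hG, hlam] at h3
      set q := crossProduct v X with hq
      set rr := crossProduct v (S.Lam x *ᵥ X) with hrr
      have h4 : crossProduct X ((ε * φ) • v) = -(ε * φ) • q := by
        rw [map_smul, ← cross_anticomm v X, hq, smul_neg, neg_smul]
      rw [h4] at h3
      have h5 : (S.G x).adjugate * (vecMulVec q (ε • rr - φ ^ 2 • q) + vecMulVec (ε • rr - φ ^ 2 • q) q) = 0 := by
        rw [← h3, mul_add, GA_mul_vecMulVec, GA_mul_vecMulVec]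
        ext i j
        simp only [Matrix.add_apply, Matrix.smul_apply, Matrix.neg_apply, vecMulVec_apply, smul_eq_mul,
          Matrix.mulVec_smul, Matrix.mulVec_sub, Pi.smul_apply, Pi.sub_apply, neg_smul, Matrix.mulVec_neg,
          Pi.neg_apply, two_smul]
        linear_combination (2 * φ ^ 2 * ((S.G x).adjugate *ᵥ q) i * q j) * hε2
      have h6 : vecMulVec q (ε • rr - φ ^ 2 • q) + vecMulVec (ε • rr - φ ^ 2 • q) q = 0 := by
        have h7 := congrArg (fun M => ((S.G x).adjugate)⁻¹ * M) h5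
        simpa only [Matrix.nonsing_inv_mul_cancel_left _ _ (isUnit_iff_ne_zero.2 hN), mul_zero] using h7
      have h8 := R1a_sym h6 hX
      rw [map_sub, map_smul, ← hrr, ← hq]
      have h9 : rr - (ε * φ ^ 2) • q = ε • (ε • rr - φ ^ 2 • q) := by
        rw [smul_sub, smul_smul, smul_smul, hε2, one_smul]
      rw [h9, h8, smul_zero]
    have hs' : ∀ X : V3, crossProduct v (S.Lam x *ᵥ X - (ε * φ ^ 2) • X) = 0 := by
      intro X
      by_cases hX : crossProduct v X = 0
      · obtain ⟨Y, hY⟩ := R1a_cross_ne hv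
        have h3 := hs Y hY
        have h4 := hs (X + Y) (by rw [map_add, hX, zero_add]; exact hY)
        have h5 : S.Lam x *ᵥ (X + Y) - (ε * φ ^ 2) • (X + Y) =
            (S.Lam x *ᵥ X - (ε * φ ^ 2) • X) + (S.Lam x *ᵥ Y - (ε * φ ^ 2) • Y) := by
          rw [Matrix.mulVec_add, smul_add]; abel
        rw [h5, map_add, h3, add_zero] at h4
        exact h4
      · exact hs X hX
    -- Lam - ε φ² = v ρᵀ
    have hρ : ∃ ρ : V3, S.Lam x - (ε * φ ^ 2) • (1 : M3) = vecMulVec v ρ := by
      have h3 : ∀ i, ∃ t : ℝ, S.Lam x *ᵥ ee i - (ε * φ ^ 2) • ee i = t • v := fun i =>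
        R1a_par hv (hs' (ee i))
      choose ρ hρ using h3
      refine ⟨ρ, ?_⟩
      ext k i
      have h4 := congrFun (hρ i) k
      simp only [ee, Pi.sub_apply, Pi.smul_apply, smul_eq_mul, Matrix.mulVec_single_one,
        Matrix.col_apply] at h4
      simp only [Matrix.sub_apply, Matrix.smul_apply, smul_eq_mul, vecMulVec_apply]
      rw [mul_comm (v k), ← h4]
      congr 2
      simp [Matrix.one_apply, Pi.single_apply]
    obtain ⟨ρ, hρ⟩ := hρ
    have hGv : S.G x *ᵥ v ≠ 0 := by
      intro h0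
      apply hv
      calc v = (S.G x)⁻¹ *ᵥ (S.G x *ᵥ v) := by
            rw [Matrix.mulVec_mulVec, Matrix.nonsing_inv_mul _ hu, Matrix.one_mulVec]
        _ = 0 := by rw [h0, Matrix.mulVec_zero]
    have hsym : ∀ i j, (S.G x *ᵥ v) i * ρ j = (S.G x *ᵥ v) j * ρ i := by
      intro i j
      have h3 : (S.G x * vecMulVec v ρ)ᵀ = S.G x * vecMulVec v ρ := by
        rw [← hρ, Matrix.mul_sub, Matrix.transpose_sub, S.Lam_sa hx, Matrix.mul_smul, Matrix.mul_one,
          Matrix.transpose_smul, hG]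
      rw [GA_mul_vecMulVec] at h3
      have h4 := congrFun (congrFun h3 j) i
      simpa only [Matrix.transpose_apply, vecMulVec_apply] using h4
    obtain ⟨i, hi⟩ := Function.ne_iff.1 hGv
    simp only [Pi.zero_apply] at hi
    refine ⟨ε, v, φ, ρ i / (S.G x *ᵥ v) i, hε, Or.inl hv, hL, hlam, ?_⟩
    rw [← sub_eq_iff_eq_add', hρ]
    ext k j
    simp only [Matrix.smul_apply, vecMulVec_apply, smul_eq_mul]
    have h3 := hsym i j
    field_simp
    linear_combination v k * h3

end Geo

end Pool.Agent.helper68.B2
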