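import Pool.Agent.helper49.B2.R1a
import Pool.Agent.helper58.B2.W2
import Pool.Agent.helper80.B2.W1

/-! # MP_b2b189_gt, b2:R1b: `K_c ≡ 0` is impossible -/

set_option autoImplicit false

namespace Pool.Agent.helper68.B2

open scoped ContDiff Topology Matrix
open Matrix Set

/-- the corner entry -/
noncomputable def R1b_th (H : M3) (l : V3) (La : M3) : ℝ :=
  open Classical in
  if H = 0 then La 0 0 else if H 0 0 ≠ 0 then l 0 ^ 2 / H 0 0 else
    if H 1 1 ≠ 0 then l 1 ^ 2 / H 1 1 else l 2 ^ 2 / H 2 2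

theorem R1b_quot {ε φ : ℝ} {v : V3} (hε : ε = 1 ∨ ε = -1) {H : M3} (hH : H = ε • vecMulVec v v)
    {l : V3} (hl : l = (ε * φ) • v) {i : Fin 3} (hi : H i i ≠ 0) : l i ^ 2 / H i i = ε * φ ^ 2 := by
  rw [hH] at hi ⊢
  rw [hl]
  simp only [Matrix.smul_apply, vecMulVec_apply, smul_eq_mul, Pi.smul_apply] at hi ⊢
  have hv : v i ≠ 0 := by
    intro h; apply hi; rw [h]; ring
  rcases hε with h | h <;> rw [h] <;> field_simp

theorem R1b_th_eq {ε φ r : ℝ} {v g : V3} (hε : ε = 1 ∨ ε = -1) {H : M3} (hH : H = ε • vecMulVec v v)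
    {l : V3} (hl : l = (ε * φ) • v) {La : M3} (hLa : La = (ε * φ ^ 2) • (1 : M3) + r • vecMulVec v g) :
    R1b_th H l La = ε * φ ^ 2 := by
  have hε0 : ε ≠ 0 := by rcases hε with h | h <;> rw [h] <;> norm_num
  have hvi : ∀ i, H i i = 0 → v i = 0 := by
    intro i hi
    rw [hH] at hi
    simp only [Matrix.smul_apply, vecMulVec_apply, smul_eq_mul] at hi
    exact mul_self_eq_zero.1 ((mul_eq_zero.1 hi).resolve_left hε0)
  unfold R1b_th
  split_ifs with h1 h2 h3
  · have hv : v = 0 := by
      funext i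
      exact hvi i (by rw [h1]; rfl)
    rw [hLa, hv]
    simp [vecMulVec_apply]
  · exact R1b_quot hε hH hl h2
  · exact R1b_quot hε hH hl h3
  · refine R1b_quot hε hH hl ?_
    intro h4
    apply h1
    have hv : v = 0 := by
      funext i
      fin_cases i
      · exact hvi 0 (not_not.1 h2)
      · exact hvi 1 (not_not.1 h3)
      · exact hvi 2 h4
    rw [hH, hv]
    ext i j
    simp [vecMulVec_apply]

/-- the symmetric 4x4 matrix -/
def R1b_W (H : M3) (l : V3) (θ : ℝ) : Matrix (Fin 4) (Fin 4) ℝ :=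
  !![H 0 0, H 0 1, H 0 2, l 0; H 1 0, H 1 1, H 1 2, l 1; H 2 0, H 2 1, H 2 2, l 2; l 0, l 1, l 2, θ]

theorem R1b_W_eq {ε φ : ℝ} {v : V3} {H : M3} (hH : H = ε • vecMulVec v v)
    {l : V3} (hl : l = (ε * φ) • v) {θ : ℝ} (hθ : θ = ε * φ ^ 2) :
    R1b_W H l θ = ε • vecMulVec ![v 0, v 1, v 2, φ] ![v 0, v 1, v 2, φ] := by
  rw [hH, hl, hθ]
  ext i j
  fin_cases i <;> fin_cases j <;> simp [R1b_W, vecMulVec_apply] <;>
    first | ring1 | (left; ring1)

theorem R1b_perp (u : V3) : ∃ z : V3, z ≠ 0 ∧ u ⬝ᵥ z = 0 := by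
  by_cases h : u 0 = 0 ∧ u 1 = 0
  · refine ⟨![1, 0, 0], ?_, ?_⟩
    · intro h0
      have := congrFun h0 0
      simp at this
    · simp [dotProduct, Fin.sum_univ_three, h.1]
  · refine ⟨![u 1, -u 0, 0], ?_, ?_⟩
    · intro h0
      apply h
      have h1 := congrFun h0 0
      have h2 := congrFun h0 1
      simp at h1 h2
      exact ⟨h2, h1⟩
    · simp [dotProduct, Fin.sum_univ_three]
      ring

/-- product with a function vanishing at the point -/
theorem R1b_smul {E F : Type*} [NormedAddCommGroup E] [NormedSpace ℝ E] [NormedAddCommGroup F]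
    [NormedSpace ℝ F] {c : E → ℝ} {f : E → F} {x : E} {f' : E →L[ℝ] F} (hc : ContinuousAt c x)
    (hf : HasFDerivAt f f' x) (h0 : f x = 0) : HasFDerivAt (fun y => c y • f y) (c x • f') x := by
  rw [hasFDerivAt_iff_isLittleO]
  have h1 : (fun y => f y) =O[𝓝 x] fun y => y - x := by
    have := hf.isBigO_sub
    simpa [h0] using this
  have h2 : (fun y => c y - c x) =o[𝓝 x] fun _ => (1 : ℝ) := by
    rw [Asymptotics.isLittleO_one_iff]
    have : Filter.Tendsto (fun y => c y - c x) (𝓝 x) (𝓝 (c x - c x)) := hc.tendsto.sub_const _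
    simpa using this
  have h3 : (fun y => (c y - c x) • f y) =o[𝓝 x] fun y => y - x := by
    have := h2.smul_isBigO h1
    simpa using this
  have h4 : (fun y => c x • (f y - f x - f' (y - x))) =o[𝓝 x] fun y => y - x :=
    (hasFDerivAt_iff_isLittleO.1 hf).const_smul_left _
  refine (h3.add h4).congr_left ?_
  intro y
  simp only [h0, smul_zero, sub_zero, _root_.smul_apply, sub_smul, smul_sub]
  abel

theorem R1b_neg {G : M3} (hG : Gᵀ = G) (hd : G.det < 0) : ∃ X : V3, bil G X X < 0 := by
  by_contra hcon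
  push Not at hcon
  have h1 : G.PosSemidef := Matrix.PosSemidef.of_dotProduct_mulVec_nonneg
    (by rw [Matrix.IsHermitian, Matrix.conjTranspose_eq_transpose_of_trivial, hG])
    (fun x => by simpa [bil] using hcon x)
  exact absurd h1.det_nonneg (not_le.2 hd)

namespace Geo
variable (S : Geo)

/-- the global root -/
theorem R1b_root (hNC : S.NC) (c : ℝ) (hK : ∀ x, x ≠ 0 → S.K c x = 0) :
    ∃ (s : ℝ) (v : E4 → V3) (φ : E4 → ℝ), (s = 1 ∨ s = -1) ∧ ContinuousOn v {0}ᶜ ∧
      ContinuousOn φ {0}ᶜ ∧ Hom v ∧ ∀ x, x ≠ 0 → (v x ≠ 0 ∨ φ x ≠ 0) ∧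
        S.L x - c • (1 : M3) = s • vecMulVec (v x) (S.G x *ᵥ v x) ∧ S.lam x = (s * φ x) • v x ∧
        (v x = 0 → S.Lam x = (s * φ x ^ 2) • (1 : M3)) := by
  set H : E4 → M3 := fun x => (S.L x - c • (1 : M3)) * (S.G x)⁻¹ with hH
  set θ : E4 → ℝ := fun x => R1b_th (H x) (S.lam x) (S.Lam x) with hθ
  -- pointwise data
  have data : ∀ x, x ≠ 0 → ∃ (ε : ℝ) (v : V3) (φ r : ℝ), (ε = 1 ∨ ε = -1) ∧ (v ≠ 0 ∨ φ ≠ 0) ∧
      H x = ε • vecMulVec v v ∧ S.lam x = (ε * φ) • v ∧
      S.Lam x = (ε * φ ^ 2) • (1 : M3) + r • vecMulVec v (S.G x *ᵥ v) ∧ θ x = ε * φ ^ 2 := by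
    intro x hx
    obtain ⟨ε, v, φ, r, hε, hv, hL, hl, hLa⟩ := S.R1a hNC c hK hx
    have hu := isUnit_iff_ne_zero.2 (S.det_neg x hx).ne
    have hHx : H x = ε • vecMulVec v v := by
      simp only [hH]
      rw [hL, Matrix.smul_mul, GA_vecMulVec_mul, Matrix.transpose_nonsing_inv, S.symm x hx,
        Matrix.mulVec_mulVec, Matrix.nonsing_inv_mul _ hu, Matrix.one_mulVec]
    exact ⟨ε, v, φ, r, hε, hv, hHx, hl, hLa, R1b_th_eq hε hHx hl hLa⟩
  -- continuity
  have cH : ∀ x, x ≠ 0 → ContinuousAt H x := by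
    intro x hx
    have h1 : ContDiffAt ℝ ∞ (fun y => S.L y - c • (1 : M3)) x := (S.smL.contDiffAt hx).sub contDiffAt_const
    have h2 : ContDiffAt ℝ ∞ (fun y => (S.G y)⁻¹) x :=
      contDiffAt_inv (S.smG.contDiffAt hx) (S.det_neg x hx).ne
    exact (h1.mul h2).continuousAt
  have cHe : ∀ x, x ≠ 0 → ∀ i j, ContinuousAt (fun y => H y i j) x := fun x hx i j =>
    (continuous_apply_apply i j).continuousAt.comp' (cH x hx)
  have cl : ∀ x, x ≠ 0 → ∀ i, ContinuousAt (fun y => S.lam y i) x := fun x hx i =>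
    (continuous_apply i).continuousAt.comp' (S.smlam.contDiffAt hx).continuousAt
  have cLa : ∀ x, x ≠ 0 → ContinuousAt S.Lam x := fun x hx => (S.sm_Lam.contDiffAt hx).continuousAt
  have cθ : ∀ x, x ≠ 0 → ContinuousAt θ x := by
    intro x₀ hx₀
    obtain ⟨ε₀, v₀, φ₀, r₀, hε₀, hv₀, hH₀, hl₀, hLa₀, hθ₀⟩ := data x₀ hx₀
    by_cases hz : v₀ = 0
    · -- near a zero of the root
      have hLa₀' : S.Lam x₀ = θ x₀ • (1 : M3) := by
        rw [hLa₀, hθ₀, hz]
        ext i j
        simp [vecMulVec_apply]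
      have hbound : ∀ x, x ≠ 0 → |θ x - θ x₀| ≤ ‖S.Lam x - S.Lam x₀‖ := by
        intro x hx
        obtain ⟨ε, v, φ, r, hε, hv, hHx, hl, hLa, hθx⟩ := data x hx
        obtain ⟨z, hz0, hz1⟩ := R1b_perp (S.G x *ᵥ v)
        have h1 : (S.Lam x - S.Lam x₀) *ᵥ z = (θ x - θ x₀) • z := by
          rw [hLa₀', hLa, Matrix.sub_mulVec, Matrix.add_mulVec, Matrix.smul_mulVec, Matrix.smul_mulVec,
            Matrix.smul_mulVec, Matrix.one_mulVec, GA_vecMulVec_mulVec, hz1, zero_smul, smul_zero,
            add_zero, hθx, sub_smul]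
        have h2 := Matrix.linfty_opNorm_mulVec (S.Lam x - S.Lam x₀) z
        rw [h1, norm_smul, Real.norm_eq_abs] at h2
        exact le_of_mul_le_mul_right h2 (norm_pos_iff.2 hz0)
      have h3 : Filter.Tendsto (fun x => ‖S.Lam x - S.Lam x₀‖) (𝓝 x₀) (𝓝 0) := by
        have : Filter.Tendsto (fun x => ‖S.Lam x - S.Lam x₀‖) (𝓝 x₀) (𝓝 ‖S.Lam x₀ - S.Lam x₀‖) :=
          ((cLa x₀ hx₀).tendsto.sub_const _).norm
        simpa using this
      rw [ContinuousAt, tendsto_iff_norm_sub_tendsto_zero]
      refine squeeze_zero' (Filter.Eventually.of_forall fun x => norm_nonneg _) ?_ h3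
      filter_upwards [isOpen_compl_singleton.mem_nhds hx₀] with x hx
      exact hbound x hx
    · obtain ⟨i, hi⟩ := Function.ne_iff.1 hz
      simp only [Pi.zero_apply] at hi
      have hHi : H x₀ i i ≠ 0 := by
        rw [hH₀]
        simp only [Matrix.smul_apply, vecMulVec_apply, smul_eq_mul]
        rcases hε₀ with h | h <;> rw [h] <;> simpa using hi
      have h1 : θ =ᶠ[𝓝 x₀] fun x => S.lam x i ^ 2 / H x i i := by
        filter_upwards [isOpen_compl_singleton.mem_nhds hx₀, (cHe x₀ hx₀ i i).eventually_ne hHi] with x hx hne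
        obtain ⟨ε, v, φ, r, hε, hv, hHx, hl, hLa, hθx⟩ := data x hx
        rw [hθx, R1b_quot hε hHx hl hne]
      exact (((cl x₀ hx₀ i).pow 2).div (cHe x₀ hx₀ i i) hHi).congr h1.symm
  -- the 4x4 matrix
  obtain ⟨s, hs, w, hwc, hwH, hw⟩ := W2_root (n := 4) (fun x => R1b_W (H x) (S.lam x) (θ x))
    (by
      intro x hx
      refine ContinuousAt.continuousWithinAt ?_
      refine continuousAt_pi.2 fun i => continuousAt_pi.2 fun j => ?_
      have a1 := cHe x hx
      have a2 := cl x hx
      have a3 := cθ x hx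
      fin_cases i <;> fin_cases j <;> simp only [R1b_W] <;>
        first | exact a1 _ _ | exact a2 _ | exact a3)
    (by
      intro t ht x
      have h1 : H (t • x) = H x := by
        simp only [hH]
        rw [S.homL t ht x, S.homG t ht x]
      have h2 : θ (t • x) = θ x := by
        simp only [hθ]
        rw [h1, S.homlam t ht x, S.hom_Lam t ht x]
      simp only [h1, h2, S.homlam t ht x])
    (by
      intro x hx
      obtain ⟨ε, v, φ, r, hε, hv, hHx, hl, hLa, hθx⟩ := data x hx
      refine ⟨![v 0, v 1, v 2, φ], ?_, ε, hε, R1b_W_eq hHx hl hθx⟩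
      intro h0
      rcases hv with hv | hv
      · apply hv
        have a0 := congrFun h0 0
        have a1 := congrFun h0 1
        have a2 := congrFun h0 2
        simp at a0 a1 a2
        funext i
        fin_cases i <;> simp [a0, a1, a2]
      · apply hv
        have a3 := congrFun h0 3
        simpa using a3)
  have hwi : ∀ i, ContinuousOn (fun x => w x i) {0}ᶜ := fun i => (continuous_apply i).comp_continuousOn hwc
  refine ⟨s, fun x => ![w x 0, w x 1, w x 2], fun x => w x 3, hs, ?_, hwi 3, ?_, ?_⟩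
  · refine continuousOn_pi.2 fun i => ?_
    fin_cases i
    · exact hwi 0
    · exact hwi 1
    · exact hwi 2
  · intro t ht x
    simp only [hwH t ht x]
  · intro x hx
    obtain ⟨hw0, hwe⟩ := hw x hx
    have he : ∀ i j, R1b_W (H x) (S.lam x) (θ x) i j = s * (w x i * w x j) := by
      intro i j
      have := congrFun (congrFun hwe i) j
      simpa only [Matrix.smul_apply, vecMulVec_apply, smul_eq_mul] using this
    have hHx : H x = s • vecMulVec ![w x 0, w x 1, w x 2] ![w x 0, w x 1, w x 2] := by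
      ext i j
      fin_cases i <;> fin_cases j <;> simp only [Matrix.smul_apply, vecMulVec_apply, smul_eq_mul]
      · exact he 0 0
      · exact he 0 1
      · exact he 0 2
      · exact he 1 0
      · exact he 1 1
      · exact he 1 2
      · exact he 2 0
      · exact he 2 1
      · exact he 2 2
    have hlx : S.lam x = (s * w x 3) • ![w x 0, w x 1, w x 2] := by
      funext i
      simp only [Pi.smul_apply, smul_eq_mul]
      fin_cases i
      · have := he 3 0
        simp [R1b_W] at this ⊢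
        linarith
      · have := he 3 1
        simp [R1b_W] at this ⊢
        linarith
      · have := he 3 2
        simp [R1b_W] at this ⊢
        linarith
    have hθx : θ x = s * w x 3 ^ 2 := by
      have := he 3 3
      simp [R1b_W] at this
      rw [this]; ring
    have hu := isUnit_iff_ne_zero.2 (S.det_neg x hx).ne
    refine ⟨?_, ?_, hlx, ?_⟩
    · by_contra hcon
      push Not at hcon
      apply hw0
      have a0 := congrFun hcon.1 0
      have a1 := congrFun hcon.1 1
      have a2 := congrFun hcon.1 2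
      simp at a0 a1 a2
      funext i
      fin_cases i
      · exact a0
      · exact a1
      · exact a2
      · exact hcon.2
    · have h1 : S.L x - c • (1 : M3) = H x * S.G x := by
        simp only [hH]
        rw [Matrix.nonsing_inv_mul_cancel_right _ _ hu]
      rw [h1, hHx, Matrix.smul_mul, GA_vecMulVec_mul, S.symm x hx]
    · intro hv0
      obtain ⟨ε, v, φ, r, hε, hv, hHx', hl, hLa, hθx'⟩ := data x hx
      have hv0' : ![w x 0, w x 1, w x 2] = 0 := hv0
      rw [hv0'] at hHx
      have hz : v = 0 := by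
        have h0 : ε • vecMulVec v v = 0 := by
          rw [← hHx', hHx]
          ext i j
          simp [vecMulVec_apply]
        funext i
        have h2 := congrFun (congrFun h0 i) i
        simp only [Matrix.smul_apply, vecMulVec_apply, smul_eq_mul, Matrix.zero_apply] at h2
        have hε0 : ε ≠ 0 := by rcases hε with h | h <;> rw [h] <;> norm_num
        exact mul_self_eq_zero.1 ((mul_eq_zero.1 h2).resolve_left hε0)
      rw [hLa, ← hθx', hθx, hz]
      ext i j
      simp

theorem R1 (hNC : S.NC) (c : ℝ) (hK : ∀ x, x ≠ 0 → S.K c x = 0) : False := by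
  obtain ⟨s, v, φ, hs, hvc, hφc, hvH, hd⟩ := S.R1b_root hNC c hK
  have hs2 : s * s = 1 := by rcases hs with h | h <;> rw [h] <;> norm_num
  have hs0 : s ≠ 0 := by rcases hs with h | h <;> rw [h] <;> norm_num
  have hnhds : ∀ x : E4, x ≠ 0 → ({0}ᶜ : Set E4) ∈ 𝓝 x := fun x hx => isOpen_compl_singleton.mem_nhds hx
  -- the derivative of the root
  have hnab : ∀ x, x ≠ 0 → DifferentiableAt ℝ v x ∧ ∀ X, S.nab v X x = φ x • X := by
    intro x hx
    have hu := isUnit_iff_ne_zero.2 (S.det_neg x hx).ne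
    by_cases hz : v x = 0
    · -- zero of v
      obtain ⟨hne, -, hl, hLa⟩ := hd x hx
      have hφ0 : φ x ≠ 0 := hne.resolve_left (not_not.2 hz)
      have hl0 : S.lam x = 0 := by rw [hl, hz, smul_zero]
      have hφx : ContinuousAt φ x := hφc.continuousAt (hnhds x hx)
      have hev : v =ᶠ[𝓝 x] fun y => (s / φ y) • S.lam y := by
        filter_upwards [hnhds x hx, hφx.eventually_ne hφ0] with y hy hne
        rw [(hd y hy).2.2.1, smul_smul]
        have : s / φ y * (s * φ y) = 1 := by field_simp; rw [pow_two, hs2]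
        rw [this, one_smul]
      have h1 := R1b_smul (c := fun y => s / φ y) (f := S.lam) (x := x) (continuousAt_const.div hφx hφ0)
        (S.smlam.differentiableAt hx).hasFDerivAt hl0
      have h2 := h1.congr_of_eventuallyEq hev
      refine ⟨h2.differentiableAt, fun X => ?_⟩
      have h3 : Dv v X x = (s / φ x) • Dv S.lam X x := by
        simp only [Dv]
        rw [h2.fderiv]
        rfl
      have h4 : S.nab S.lam X x = Dv S.lam X x := by
        simp only [nab, hl0, Matrix.mulVec_zero, add_zero]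
      have h5 : S.nab v X x = Dv v X x := by
        simp only [nab, hz, Matrix.mulVec_zero, add_zero]
      rw [h5, h3, ← h4, ← S.Lam_mulVec, hLa hz, Matrix.smul_mulVec, Matrix.one_mulVec, smul_smul]
      congr 1
      field_simp
      rw [pow_two, hs2]
    · -- v smooth near x
      set U : Set E4 := {y | y ≠ 0 ∧ v y ≠ 0} with hU
      have hUo : IsOpen U := by
        have : U = {0}ᶜ ∩ v ⁻¹' {0}ᶜ := by ext y; simp [hU]
        rw [this]
        exact hvc.isOpen_inter_preimage isOpen_compl_singleton isOpen_compl_singleton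
      have hsm := W2_smooth (n := 3) (fun y => (S.L y - c • (1 : M3)) * (S.G y)⁻¹) v s hs U hUo
        (by
          intro i j y hy
          have h1 : ContDiffAt ℝ ∞ (fun y => S.L y - c • (1 : M3)) y :=
            (S.smL.contDiffAt hy.1).sub contDiffAt_const
          have h2 : ContDiffAt ℝ ∞ (fun y => (S.G y)⁻¹) y :=
            contDiffAt_inv (S.smG.contDiffAt hy.1) (S.det_neg y hy.1).ne
          have h3 : ContDiffAt ℝ ∞ (fun y => (S.L y - c • (1 : M3)) * (S.G y)⁻¹) y := h1.mul h2
          exact (contDiffAt_entries.1 h3 i j).contDiffWithinAt)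
        (hvc.mono fun y hy => hy.1)
        (by
          intro y hy
          refine ⟨hy.2, ?_⟩
          have hu := isUnit_iff_ne_zero.2 (S.det_neg y hy.1).ne
          rw [(hd y hy.1).2.1, Matrix.smul_mul, GA_vecMulVec_mul, Matrix.transpose_nonsing_inv,
            S.symm y hy.1, Matrix.mulVec_mulVec, Matrix.nonsing_inv_mul _ hu, Matrix.one_mulVec])
      have hvd : DifferentiableAt ℝ v x :=
        (hsm.contDiffAt (hUo.mem_nhds ⟨hx, hz⟩)).differentiableAt (by simp)
      refine ⟨hvd, fun X => ?_⟩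
      have h1 := S.GA_nabE_Lt c hx X
      have h2 := S.nabE_dyad hx hvd hvd X
      have hG := S.GA_diffG hx
      have hdd : DifferentiableAt ℝ (fun y => vecMulVec (v y) (S.G y *ᵥ v y)) x :=
        ((B0b_H_of (v := 0) hvd).bilin B0b_bil_vecMulVec
          ((B0b_H_of (v := 0) hG).bilin B0b_bil_mulVec (B0b_H_of hvd))).diff
      have h3 : S.nabE (fun y => S.L y - c • (1 : M3)) X x =
          s • S.nabE (fun y => vecMulVec (v y) (S.G y *ᵥ v y)) X x := by
        have e1 : (fun y => S.L y - c • (1 : M3)) =ᶠ[𝓝 x] fun y => s • vecMulVec (v y) (S.G y *ᵥ v y) := by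
          filter_upwards [hnhds x hx] with y hy
          exact (hd y hy).2.1
        simp only [nabE]
        rw [B0b_Dv_congr e1, Dv_smul (differentiableAt_const s) hdd, Dv_const, e1.eq_of_nhds, zero_smul,
          zero_add, Matrix.mul_smul, Matrix.smul_mul, ← smul_sub, ← smul_add]
      rw [h3, h2, (hd x hx).2.2.1] at h1
      set u := S.nab v X x - φ x • X with hu'
      have h4 : vecMulVec u (S.G x *ᵥ v x) + vecMulVec (v x) (S.G x *ᵥ u) = 0 := by
        have h5 : s • (vecMulVec u (S.G x *ᵥ v x) + vecMulVec (v x) (S.G x *ᵥ u)) = 0 := by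
          have h6 : s • (vecMulVec u (S.G x *ᵥ v x) + vecMulVec (v x) (S.G x *ᵥ u)) =
              s • (vecMulVec (S.nab v X x) (S.G x *ᵥ v x) + vecMulVec (v x) (S.G x *ᵥ S.nab v X x)) -
                S.od x X ((s * φ x) • v x) := by
            ext i j
            simp only [hu', od, odot, Matrix.smul_apply, Matrix.add_apply, Matrix.sub_apply, vecMulVec_apply,
              Matrix.mulVec_sub, Matrix.mulVec_smul, Pi.sub_apply, Pi.smul_apply, smul_eq_mul]
            ring
          rw [h6, h1, sub_self]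
        exact (smul_eq_zero.1 h5).resolve_left hs0
      have h7 : vecMulVec (v x) u + vecMulVec u (v x) = 0 := by
        have h8 := congrArg (fun M => M * (S.G x)⁻¹) h4
        simp only [add_mul, GA_vecMulVec_mul, Matrix.transpose_nonsing_inv, S.symm x hx,
          Matrix.mulVec_mulVec, Matrix.nonsing_inv_mul _ hu, Matrix.one_mulVec, zero_mul] at h8
        rw [add_comm]
        exact h8
      exact sub_eq_zero.1 (R1a_sym h7 hz)
  -- v is C^1
  have hDv : ∀ x, x ≠ 0 → ∀ w, fderiv ℝ v x w =
      φ x • comps x w - ∑ i, comps x w i • (S.Γ i x *ᵥ v x) := by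
    intro x hx w
    rw [fderiv_decomp v hx w, hvH.radial hx, smul_zero, add_zero]
    have h1 := (hnab x hx).2 (comps x w)
    have h2 : Dv v (comps x w) x = S.nab v (comps x w) x - S.Gam (comps x w) x *ᵥ v x := by
      simp only [nab]; abel
    rw [h2, h1]
    congr 1
    simp only [Gam, Matrix.sum_mulVec, Matrix.smul_mulVec]
  have hvC1 : ∀ x, x ≠ 0 → ContDiffAt ℝ 1 v x := by
    have hon : ContDiffOn ℝ (0 + 1) v {0}ᶜ := by
      rw [contDiffOn_succ_iff_fderiv_of_isOpen isOpen_compl_singleton]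
      refine ⟨fun x hx => (hnab x hx).1.differentiableWithinAt, fun h => absurd h (by simp), ?_⟩
      rw [contDiffOn_zero, continuousOn_clm_apply]
      intro w
      have h1 : ContinuousOn (fun x => φ x • comps x w - ∑ i, comps x w i • (S.Γ i x *ᵥ v x)) ({0}ᶜ : Set E4) := by
        have hcomp : ∀ i, ContinuousOn (fun x : E4 => comps x w i) ({0}ᶜ : Set E4) := by
          intro i
          simp only [comps]
          refine ContinuousOn.div ?_ ?_ ?_
          · exact (((J i).continuous.inner continuous_const)).continuousOn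
          · exact (continuous_norm.pow 2).continuousOn
          · intro x hx
            exact pow_ne_zero 2 (norm_ne_zero_iff.2 hx)
        have hcomps : ContinuousOn (fun x : E4 => comps x w) ({0}ᶜ : Set E4) :=
          continuousOn_pi.2 hcomp
        refine (hφc.smul hcomps).sub (continuousOn_finsetSum _ fun i _ => (hcomp i).smul ?_)
        have hΓ : ContinuousOn (S.Γ i) ({0}ᶜ : Set E4) := fun x hx =>
          ((S.smΓ i).contDiffAt hx).continuousAt.continuousWithinAt
        exact (Continuous.matrix_mulVec (A := fun q : M3 × V3 => q.1) (B := fun q : M3 × V3 => q.2)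
          continuous_fst continuous_snd).comp_continuousOn (hΓ.prodMk hvc)
      exact h1.congr fun x hx => hDv x hx w
    rw [zero_add] at hon
    exact fun x hx => hon.contDiffAt (hnhds x hx)
  -- the closed form
  set α : E4 → V3 := fun y => S.G y *ᵥ v y with hα
  have hαH : Hom α := by
    intro t ht x
    simp only [hα]
    rw [S.homG t ht x, hvH t ht x]
  have hαC1 : ∀ x, x ≠ 0 → ContDiffAt ℝ 1 α x := fun x hx =>
    contDiffAt_mulVec ((S.smG.contDiffAt hx).of_le (by exact_mod_cast le_top)) (hvC1 x hx)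
  have hgee : ∀ y j, S.g y (ee j) (v y) = α y j := by
    intro y j
    simp only [g, bil, hα, ee]
    simp
  have hclosed : ∀ x, x ≠ 0 → ∀ i j, Dv (fun y => α y j) (ee i) x - Dv (fun y => α y i) (ee j) x
      = 2 * ∑ k, eps i j k * α x k := by
    intro x hx i j
    have h1 : ∀ i j, Dv (fun y => α y j) (ee i) x = S.g x (S.Γ i x *ᵥ ee j) (v x) + φ x * S.g x (ee j) (ee i) := by
      intro i j
      have h2 := S.nab_g hx (V := fun _ => ee j) (W := v) (differentiableAt_const _) (hnab x hx).1 (ee i)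
      have h3 : (fun y => S.g y (ee j) (v y)) = fun y => α y j := funext fun y => hgee y j
      rw [h3] at h2
      rw [h2, (hnab x hx).2]
      simp only [nab]
      rw [Dv_const, zero_add, GA_Gam_ee]
      simp only [g]
      rw [GA_bil_smul_right]
    rw [h1, h1, S.g_symm hx (ee j) (ee i)]
    have h4 : S.Γ i x *ᵥ ee j = S.Γ j x *ᵥ ee i + (2 : ℝ) • fun k => eps i j k := by
      funext k
      have := S.torsion x hx i j k
      simp only [ee, Matrix.mulVec_single_one, Matrix.col_apply, Pi.add_apply, Pi.smul_apply, smul_eq_mul]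
      linarith
    rw [h4]
    simp only [g]
    rw [GA_bil_add_left, GA_bil_smul_left]
    have h5 : bil (S.G x) (fun k => eps i j k) (v x) = ∑ k, eps i j k * α x k := by
      simp only [bil, hα, dotProduct]
    rw [h5]
    ring
  have hrad : ∀ x, x ≠ 0 → fderiv ℝ α x x = 0 := fun x hx => hαH.radial hx
  have hsy := fun (x : E4) (hx : x ≠ 0) => W1_symm α x hx (hαC1 x hx) (hrad x hx) (hclosed x hx)
  obtain ⟨ψ, hψ⟩ := Pool.Agent.helper25.B2.exact_punctured (E := E4) (θ := form α)
    (by simp) (fun x hx => (hsy x hx).1) (fun x hx => (hsy x hx).2)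
  obtain ⟨p, hp, hψp, hmax⟩ := W1_crit ψ (fun x hx => (hψ x hx).differentiableAt) (by
    intro x hx
    rw [(hψ x hx).fderiv, W1_form_apply]
    exact Finset.sum_eq_zero fun i _ => by rw [W1_Jx, mul_zero])
  have hN : ‖p‖ ^ 2 ≠ 0 := pow_ne_zero 2 (norm_ne_zero_iff.2 hp)
  have hαp : α p = 0 := by
    rw [(hψ p hp).fderiv] at hψp
    funext j
    have h1 : form α p (J j p) = 0 := by rw [hψp]; rfl
    rw [W1_form_apply] at h1
    simp only [W1_JJ, mul_ite, mul_zero, Finset.sum_ite_eq', Finset.mem_univ, if_true] at h1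
    rw [div_mul_cancel₀ _ hN] at h1
    exact h1
  have hvp : v p = 0 := by
    have hu := isUnit_iff_ne_zero.2 (S.det_neg p hp).ne
    calc v p = (S.G p)⁻¹ *ᵥ (S.G p *ᵥ v p) := by
          rw [Matrix.mulVec_mulVec, Matrix.nonsing_inv_mul _ hu, Matrix.one_mulVec]
      _ = 0 := by
          have : S.G p *ᵥ v p = 0 := hαp
          rw [this, Matrix.mulVec_zero]
  have hφp : φ p ≠ 0 := (hd p hp).1.resolve_left (not_not.2 hvp)
  obtain ⟨X, hX⟩ : ∃ X : V3, 0 < φ p * S.g p X X := by
    rcases lt_or_gt_of_ne hφp with hneg | hpos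
    · obtain ⟨X, hX⟩ := R1b_neg (S.symm p hp) (S.det_neg p hp)
      exact ⟨X, mul_pos_of_neg_of_neg hneg hX⟩
    · obtain ⟨X, hX⟩ := S.pos p hp
      exact ⟨X, mul_pos hpos hX⟩
  -- second derivative test along the line
  set w := fld X p with hw
  set γ : ℝ → E4 := fun t => p + t • w with hγ
  have hγ0 : γ 0 = p := by simp [hγ]
  have hγd : ∀ t, HasDerivAt γ w t := by
    intro t
    have := ((hasDerivAt_id t).smul_const w).const_add p
    simpa [hγ] using this
  have hγc : ContinuousAt γ 0 := (hγd 0).continuousAt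
  have hev0 : ∀ᶠ t in 𝓝 (0 : ℝ), γ t ≠ 0 := hγc.eventually_ne (by rw [hγ0]; exact hp)
  set h : ℝ → ℝ := fun t => ψ (γ t) with hh
  have hd1 : ∀ᶠ t in 𝓝 (0 : ℝ), HasDerivAt h (form α (γ t) w) t := by
    filter_upwards [hev0] with t ht
    exact (hψ (γ t) ht).comp_hasDerivAt t (hγd t)
  have hderiv : deriv h =ᶠ[𝓝 0] fun t => form α (γ t) w := hd1.mono fun t ht => ht.deriv
  have hdd : HasDerivAt (fun t => form α (γ t) w) (φ p * S.g p X X) 0 := by
    have h1 : ∀ i, HasDerivAt (fun t => α (γ t) i) (Dv (fun y => α y i) X p) 0 := by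
      intro i
      have h2 : DifferentiableAt ℝ (fun y => α y i) p :=
        (differentiableAt_pi.1 ((hαC1 p hp).differentiableAt (by simp))) i
      have h3 : HasDerivAt γ (fld X (γ 0)) 0 := by rw [hγ0]; exact hγd 0
      have h4 := Dv_curve (f := fun y => α y i) (γ := γ) (v := X) (t := 0) (by rw [hγ0]; exact h2) h3
      rwa [hγ0] at h4
    have h5 : ∀ i, DifferentiableAt ℝ (fun t => inner ℝ (J i (γ t)) w / ‖γ t‖ ^ 2) 0 := by
      intro i
      have h6 : DifferentiableAt ℝ γ 0 := (hγd 0).differentiableAt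
      have h6' : DifferentiableAt ℝ (fun t => J i (γ t)) 0 :=
        ((J i).hasFDerivAt.comp_hasDerivAt (0 : ℝ) (hγd 0)).differentiableAt
      have h7 : DifferentiableAt ℝ (fun t => inner ℝ (J i (γ t)) w) 0 :=
        h6'.inner ℝ (differentiableAt_const w)
      have h8 : DifferentiableAt ℝ (fun t => ‖γ t‖ ^ 2) 0 := h6.norm_sq ℝ
      exact h7.fun_div h8 (by rw [hγ0]; exact hN)
    have h9 := HasDerivAt.fun_sum (u := Finset.univ) fun i _ => (h1 i).fun_mul (h5 i).hasDerivAt
    have h10 : (fun t => form α (γ t) w) = fun t => ∑ i, α (γ t) i * (inner ℝ (J i (γ t)) w / ‖γ t‖ ^ 2) := by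
      funext t
      rw [W1_form_apply]
      exact Finset.sum_congr rfl fun i _ => by ring
    rw [h10]
    refine h9.congr_deriv ?_
    have h11 : ∀ i, inner ℝ (J i (γ 0)) w / ‖γ 0‖ ^ 2 = X i := by
      intro i
      rw [hγ0]
      exact congrFun (comps_fld X hp) i
    have h12 : ∀ i, α (γ 0) i = 0 := by
      intro i; rw [hγ0, hαp]; rfl
    simp only [h11, h12, zero_mul, add_zero]
    -- Dv of g(X, v)
    have h13 := S.nab_g hp (V := fun _ => X) (W := v) (differentiableAt_const _) (hnab p hp).1 X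
    rw [(hnab p hp).2, hvp] at h13
    have h14 : S.g p (S.nab (fun _ => X) X p) 0 = 0 := by simp [g, bil]
    rw [h14, zero_add] at h13
    have h15 : S.g p X (φ p • X) = φ p * S.g p X X := by
      simp only [g]; rw [GA_bil_smul_right]
    rw [h15] at h13
    rw [← h13]
    have h16 : (fun y => S.g y X (v y)) = fun y => ∑ i, X i * α y i := by
      funext y
      simp only [g, bil, hα, dotProduct]
    rw [h16]
    have h17 : ∀ i, DifferentiableAt ℝ (fun y => α y i) p := fun i =>
      (differentiableAt_pi.1 ((hαC1 p hp).differentiableAt (by simp))) i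
    simp only [Dv]
    rw [fderiv_fun_sum fun i _ => (h17 i).const_mul (X i)]
    rw [ContinuousLinearMap.sum_apply]
    refine Finset.sum_congr rfl fun i _ => ?_
    rw [fderiv_const_mul (h17 i)]
    simp [mul_comm]
  have hder0 : deriv h 0 = 0 := by
    rw [hderiv.eq_of_nhds, hγ0, W1_form_apply, hαp]
    simp
  have hdder : deriv (deriv h) 0 = φ p * S.g p X X := by
    rw [hderiv.deriv_eq]; exact hdd.deriv
  have hmin := isLocalMin_of_deriv_deriv_pos (f := h) (x₀ := 0) (by rw [hdder]; exact hX) hder0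
    (hd1.self_of_nhds.continuousAt)
  have hconst : h =ᶠ[𝓝 0] fun _ => h 0 := by
    filter_upwards [hmin, hev0] with t ht ht0
    refine le_antisymm ?_ ht
    simp only [hh, hγ0]
    exact hmax _ ht0
  have hz : deriv (deriv h) 0 = 0 := by
    have h1 : deriv h =ᶠ[𝓝 0] fun _ => (0 : ℝ) := by
      have := hconst.deriv
      refine this.trans ?_
      exact Filter.Eventually.of_forall fun t => by simp
    rw [h1.deriv_eq]
    simp
  rw [hdder] at hz
  linarith

end Geo

end Pool.Agent.helper68.B2
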